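import Pool.Agent.H13.BL.Upper

/-! Averages. -/

set_option autoImplicit false

namespace Pool.Agent.H13.BL

open MeasureTheory Set

instance : Nonempty St := ⟨⟨fun _ => ((0 : ℚ) : ℝ), IsSt.const 0⟩⟩

/-- dependent choice along good states -/
lemma exists_chain {σ : Type*} (Good : σ → Prop) (Step : σ → σ → Prop) (s0 : σ) (h0 : Good s0)
    (h : ∀ s, Good s → ∃ s', Good s' ∧ Step s s') :
    ∃ f : ℕ → σ, f 0 = s0 ∧ (∀ k, Good (f k)) ∧ ∀ k, Step (f k) (f (k + 1)) := by
  classical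
  choose! nx hnx using h
  let f : ℕ → σ := fun k => Nat.rec s0 (fun _ s => nx s) k
  have hg : ∀ k, Good (f k) := by
    intro k
    induction k with
    | zero => exact h0
    | succ k ih => exact (hnx _ ih).1
  exact ⟨f, rfl, hg, fun k => (hnx _ (hg k)).2⟩

/-- Loss in the cutting of a functional. -/
lemma cut_loss {w : ℕ} {g : St} (hg : GG w g) {p q d : ℕ} {X : ℝ → ℝ} (hX : RX p q X)
    (hd : d ≤ p) : pr g.1 X ≤ pr (cut (p - d) (q + d) g).1 X + 2 * (1 / 2) ^ d := by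
  have hc := (hg.cutg (p - d) (q + d)).bm
  have h1 : BM (fun t => max (g.1 t - 2 ^ (q + d)) 0) := by
    refine hg.bm.of_le ((hg.bm.meas.sub_const _).max measurable_const)
      (fun t => le_max_right _ _) (fun t => max_le ?_ (hg.nn t))
    have : (0 : ℝ) < 2 ^ (q + d) := by positivity
    linarith
  have h2 : BM (fun _ : ℝ => (2 : ℝ) ^ (p - d)) := BM.const (by positivity)
  have hpt : ∀ t, g.1 t ≤ (cut (p - d) (q + d) g).1 t +
      (2 ^ (p - d) + max (g.1 t - 2 ^ (q + d)) 0) := by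
    intro t
    have e1 : (0 : ℝ) < 2 ^ (p - d) := by positivity
    have e2 : (0 : ℝ) < 2 ^ (q + d) := by positivity
    show g.1 t ≤ min (max (g.1 t - 2 ^ (p - d)) 0) (2 ^ (q + d)) + _
    have e3 := le_max_left (g.1 t - 2 ^ (q + d)) 0
    have e4 := le_max_right (g.1 t - 2 ^ (q + d)) 0
    have e5 := le_max_left (g.1 t - 2 ^ (p - d)) 0
    rcases le_total (max (g.1 t - 2 ^ (p - d)) 0) (2 ^ (q + d)) with h | h
    · rw [min_eq_left h]; linarith
    · rw [min_eq_right h]; linarith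
  have h3 : pr g.1 X ≤ pr (cut (p - d) (q + d) g).1 X +
      (pr (fun _ => (2 : ℝ) ^ (p - d)) X + pr (fun t => max (g.1 t - 2 ^ (q + d)) 0) X) := by
    rw [← pr_add_left h2 h1 hX.bm, ← pr_add_left hc (h2.add h1) hX.bm]
    exact pr_mono hg.bm (hc.add (h2.add h1)) hX.bm hX.bm hpt (fun _ => le_rfl)
  have h4 : pr (fun _ => (2 : ℝ) ^ (p - d)) X ≤ (1 / 2) ^ d := by
    refine (pr_le_left h2 hX.bm (fun _ => le_rfl)).trans ?_
    calc (2 : ℝ) ^ (p - d) * ∫ t, X t ∂mu ≤ 2 ^ (p - d) * (1 / 2) ^ p := by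
          have := hX.int
          gcongr
      _ = (2 ^ (p - d) * (1 / 2) ^ (p - d)) * (1 / 2) ^ d := by
          rw [mul_assoc, ← pow_add]
          congr 2; omega
      _ = (1 / 2) ^ d := by rw [← mul_pow]; norm_num
  have h5 : pr (fun t => max (g.1 t - 2 ^ (q + d)) 0) X ≤ (1 / 2) ^ d := by
    refine (pr_le_right h1 hX.bm hX.le).trans ?_
    calc (2 : ℝ) ^ q * ∫ t, max (g.1 t - 2 ^ (q + d)) 0 ∂mu ≤ 2 ^ q * (1 / 2) ^ (q + d) := by
          have := hg.trunc (q + d)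
          gcongr
      _ = (2 ^ q * (1 / 2) ^ q) * (1 / 2) ^ d := by
          rw [pow_add, mul_assoc]
      _ = (1 / 2) ^ d := by rw [← mul_pow]; norm_num
  linarith

/-- the functional `β_j ∑_{i<n} h_i` -/
noncomputable def nodeSt (j n : ℕ) (h : ℕ → St) : St :=
  ⟨fun t => β j * ∑ i ∈ Finset.range n, (h i).1 t, by
    have h1 : IsSt (fun _ : ℝ => β j) := by
      have := IsSt.const ((mm j : ℚ)⁻¹)
      push_cast at this
      exact this
    exact h1.mul (IsSt.sum _ _ fun i _ => (h i).2)⟩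

/-- Range of a node. -/
lemma nodeSt_rr {j n : ℕ} {h : ℕ → St} {w a b : ℕ → ℕ} (hn : 1 ≤ n) (hG : ∀ i < n, GG (w i) (h i))
    (hR : ∀ i < n, RR (a i) (b i) (h i).1) (hs : ∀ i l, i < l → l < n → b i < a l) :
    RR (a 0) (b (n - 1)) (nodeSt j n h).1 := by
  have hβ := β_pos j
  have hβ4 := β_le j
  have hh : ∀ i ∈ Finset.range n, BM (h i).1 := fun i hi => (hG i (Finset.mem_range.1 hi)).bm
  have hamono : ∀ i < n, a 0 ≤ a i := by
    intro i hi
    rcases Nat.eq_zero_or_pos i with h | h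
    · rw [h]
    · have := hs 0 i h hi; have := (hR 0 (by omega)).ab; omega
  have hbmono : ∀ i < n, b i ≤ b (n - 1) := by
    intro i hi
    rcases Nat.lt_or_ge i (n - 1) with h | h
    · have := hs i (n-1) h (by omega); have := (hR (n-1) (by omega)).ab; omega
    · have : i = n - 1 := by omega
      rw [this]
  have hinja : Set.InjOn a (Finset.range n) := by
    intro i hi l hl hil
    rw [Finset.mem_coe, Finset.mem_range] at hi hl
    rcases lt_trichotomy i l with h | h | h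
    · have := hs i l h hl; have := (hR i hi).ab; omega
    · exact h
    · have := hs l i h hi; have := (hR l hl).ab; omega
  have hinjb : Set.InjOn b (Finset.range n) := by
    intro i hi l hl hil
    rw [Finset.mem_coe, Finset.mem_range] at hi hl
    rcases lt_trichotomy i l with h | h | h
    · have := hs i l h hl; have := (hR l hl).ab; omega
    · exact h
    · have := hs l i h hi; have := (hR i hi).ab; omega
  refine ⟨(hR 0 (by omega)).ab.trans (hbmono 0 (by omega)), fun t => ?_, ?_⟩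
  · show β j * ∑ i ∈ Finset.range n, (h i).1 t ≤ _
    calc β j * ∑ i ∈ Finset.range n, (h i).1 t ≤ (1/4) * ∑ i ∈ Finset.range n, (2 : ℝ) ^ (b i) := by
          have h0 : 0 ≤ ∑ i ∈ Finset.range n, (h i).1 t :=
            Finset.sum_nonneg fun i hi => (hh i hi).nn t
          gcongr with i hi
          exact (hR i (Finset.mem_range.1 hi)).le t
      _ ≤ (1/4) * 2 ^ (b (n - 1) + 1) := by
          gcongr
          refine sum_two_pow_le _ b _ hinjb fun i hi => ?_
          have := hbmono i (Finset.mem_range.1 hi)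
          omega
      _ ≤ 2 ^ (b (n - 1)) := by
          rw [pow_succ]
          have : (0:ℝ) < 2 ^ (b (n - 1)) := by positivity
          linarith
  · show ∫ t, β j * ∑ i ∈ Finset.range n, (h i).1 t ∂mu ≤ _
    rw [integral_const_mul, integral_finsetSum _ fun i hi => (hh i hi).integrable]
    calc β j * ∑ i ∈ Finset.range n, ∫ t, (h i).1 t ∂mu ≤
        β j * ∑ i ∈ Finset.range n, (1 / 2) ^ (a i) := by
          gcongr with i hi
          exact (hR i (Finset.mem_range.1 hi)).int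
      _ ≤ β j * (2 * (1 / 2) ^ (a 0)) := by
          gcongr
          exact sum_half_pow_le _ a _ hinja fun i hi => hamono i (Finset.mem_range.1 hi)
      _ ≤ (1 / 2) ^ (a 0) := by
          have : (0:ℝ) < (1 / 2) ^ (a 0) := by positivity
          nlinarith

lemma nodeSt_pr {j n : ℕ} {h : ℕ → St} (hG : ∀ i < n, BM (h i).1) {X : ℝ → ℝ} (hX : BM X) :
    pr (nodeSt j n h).1 X = β j * ∑ i ∈ Finset.range n, pr (h i).1 X := by
  show pr (fun t => β j * ∑ i ∈ Finset.range n, (h i).1 t) X = _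
  rw [pr_const_mul_left, pr_sum_left _ _ (fun i hi => hG i (Finset.mem_range.1 hi)) hX]

lemma nodeSt_pr_ge {j n : ℕ} {h : ℕ → St} (hG : ∀ i < n, BM (h i).1) {X : ℝ → ℝ} (hX : BM X)
    {i : ℕ} (hi : i < n) : β j * pr (h i).1 X ≤ pr (nodeSt j n h).1 X := by
  rw [nodeSt_pr hG hX]
  have := (β_pos j).le
  gcongr
  exact Finset.single_le_sum (f := fun i => pr (h i).1 X)
    (fun i hi => pr_nonneg (hG i (Finset.mem_range.1 hi)) hX) (Finset.mem_range.2 hi)

/-- A node of even weight which is almost norming for the members of a sequence. -/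
lemma norming {j n : ℕ} (hj : 1 ≤ j) (hje : ¬ Odd j) (hn : n ≤ nn j) (hn1 : 1 ≤ n)
    {p q : ℕ → ℕ} {x : ℕ → ℝ → ℝ} (hx : ∀ k < n, RX (p k) (q k) (x k)) {d : ℕ}
    (sep : ∀ k l, k < l → l < n → q k + 2 * d < p l) (hd : ∀ k < n, d ≤ p k)
    {ε : ℝ} (hε : 4 * (1 / 2) ^ d ≤ ε)
    (hg : ∀ k < n, ∃ w g, GG w g ∧ ε ≤ pr g.1 (x k)) :
    ∃ φ, GG j φ ∧ RR (p 0 - d) (q (n - 1) + d) φ.1 ∧ ∀ k < n, β j * (ε / 2) ≤ pr φ.1 (x k) := by
  choose! w g hgw hgx using hg
  set h : ℕ → St := fun k => cut (p k - d) (q k + d) (g k) with hh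
  have hG : ∀ i < n, GG (w i) (h i) := fun i hi => (hgw i hi).cutg _ _
  have hR : ∀ i < n, RR (p i - d) (q i + d) (h i).1 := fun i hi =>
    (hgw i hi).rr_cut (by have := (hx i hi).pq; omega)
  have hs : ∀ i l, i < l → l < n → q i + d < p l - d := by
    intro i l hil hl
    have := sep i l hil hl
    omega
  have hGbm : ∀ i < n, BM (h i).1 := fun i hi => (hG i hi).bm
  refine ⟨nodeSt j n h, ?_, ?_, ?_⟩
  · refine GG.node j n h w (fun i => p i - d) (fun i => q i + d) (fun _ => 0) _ hj hn hG hR hs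
      (fun ho => absurd ho hje) (fun t => ?_) (fun t => le_rfl)
    exact mul_nonneg (β_pos j).le (Finset.sum_nonneg fun i hi =>
      (hGbm i (Finset.mem_range.1 hi)).nn t)
  · exact nodeSt_rr (a := fun i => p i - d) (b := fun i => q i + d) hn1 hG hR hs
  · intro k hk
    refine le_trans ?_ (nodeSt_pr_ge hGbm (hx k hk).bm hk)
    have h1 := cut_loss (hgw k hk) (hx k hk) (hd k hk)
    have h2 := hgx k hk
    have := (β_pos j).le
    gcongr
    show ε / 2 ≤ pr (cut (p k - d) (q k + d) (g k)).1 (x k)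
    linarith

/-- Averages of long sequences are rapidly increasing vectors. -/
lemma avg_rv {l p0 : ℕ} {K : ℝ} (hl : 1 ≤ l) (hlp : nn p0 ≤ l) (hK : 0 ≤ K)
    {p q : ℕ → ℕ} {x : ℕ → ℝ → ℝ} (hx : ∀ k < l, RX (p k) (q k) (x k))
    (sep : ∀ k l', k < l' → l' < l → q k < p l') (hp : ∀ k < l, p0 ≤ p k)
    (hN : ∀ k < l, NB (x k) K) :
    RV (2 * K + 2) p0 (q (l - 1)) (fun t => (1 / l : ℝ) * ∑ r ∈ Finset.range l, x r t) := by
  have hl0 : (0 : ℝ) < l := by exact_mod_cast hl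
  have hxb : ∀ r ∈ Finset.range l, BM (x r) := fun r hr => (hx r (Finset.mem_range.1 hr)).bm
  have hbm : BM (fun t => (1 / l : ℝ) * ∑ r ∈ Finset.range l, x r t) :=
    (BM.sum _ _ hxb).const_mul (by positivity)
  have hqmono : ∀ i < l, q i ≤ q (l - 1) := by
    intro i hi
    rcases Nat.lt_or_ge i (l - 1) with h | h
    · have := sep i (l-1) h (by omega); have := (hx (l-1) (by omega)).pq; omega
    · have : i = l - 1 := by omega
      rw [this]
  have hpr : ∀ w g, GG w g → pr g.1 (fun t => (1 / l : ℝ) * ∑ r ∈ Finset.range l, x r t) =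
      (1 / l : ℝ) * ∑ r ∈ Finset.range l, pr g.1 (x r) := by
    intro w g hg
    rw [pr_const_mul_right, pr_sum_right _ _ hxb hg.bm]
  refine ⟨⟨hbm.meas, hbm.nn, ?_, fun t => ?_, ?_⟩, ?_, ?_⟩
  · have h1 := hp (l - 1) (by omega)
    have h2 := (hx (l - 1) (by omega)).pq
    omega
  · calc (1 / l : ℝ) * ∑ r ∈ Finset.range l, x r t ≤
        (1 / l : ℝ) * ∑ r ∈ Finset.range l, (2 : ℝ) ^ (q (l - 1)) := by
          gcongr with r hr
          exact ((hx r (Finset.mem_range.1 hr)).le t).trans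
            (pow_le_pow_right₀ (by norm_num) (hqmono r (Finset.mem_range.1 hr)))
      _ = 2 ^ (q (l - 1)) := by
          rw [Finset.sum_const, Finset.card_range, nsmul_eq_mul]
          field_simp
  · rw [integral_const_mul, integral_finsetSum _ fun i hi => (hxb i hi).integrable]
    calc (1 / l : ℝ) * ∑ r ∈ Finset.range l, ∫ t, x r t ∂mu ≤
        (1 / l : ℝ) * ∑ r ∈ Finset.range l, (1 / 2 : ℝ) ^ p0 := by
          gcongr with r hr
          exact (hx r (Finset.mem_range.1 hr)).int.trans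
            (pow_le_pow_of_le_one (by norm_num) (by norm_num) (hp r (Finset.mem_range.1 hr)))
      _ = (1 / 2) ^ p0 := by
          rw [Finset.sum_const, Finset.card_range, nsmul_eq_mul]
          field_simp
  · intro w g hg
    rw [hpr w g hg]
    calc (1 / l : ℝ) * ∑ r ∈ Finset.range l, pr g.1 (x r) ≤
        (1 / l : ℝ) * ∑ r ∈ Finset.range l, K := by
          gcongr with r hr
          exact hN r (Finset.mem_range.1 hr) w g hg
      _ = K := by
          rw [Finset.sum_const, Finset.card_range, nsmul_eq_mul]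
          field_simp
      _ ≤ 2 * K + 2 := by linarith
  · intro w g hg hw1 hwp
    rw [hpr w g hg]
    have h1 := node_act hx sep (S := Finset.range l) (fun k hk => Finset.mem_range.1 hk) hg hw1 hK
      (fun k hk => hN k (Finset.mem_range.1 hk)) hK le_rfl (by
        intro S' hS' w' g' hg'
        calc ∑ k ∈ S', pr g'.1 (x k) ≤ ∑ k ∈ S', K := Finset.sum_le_sum fun k hk =>
              hN k (Finset.mem_range.1 (hS' hk)) w' g' hg'
          _ = K * (S'.card : ℝ) + 0 := by rw [Finset.sum_const, nsmul_eq_mul]; ring)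
    rw [Finset.card_range, add_zero] at h1
    have h2 : (nn w : ℝ) ≤ l := by exact_mod_cast (nn_mono hwp.le).trans hlp
    have hβ := (β_pos w).le
    calc (1 / l : ℝ) * ∑ r ∈ Finset.range l, pr g.1 (x r) ≤
        (1 / l : ℝ) * (β w * (K * (l : ℝ) + (nn w : ℝ) * (2 + K))) := by gcongr
      _ ≤ (1 / l : ℝ) * (β w * (K * (l : ℝ) + (l : ℝ) * (2 + K))) := by gcongr
      _ = _ := by field_simp; ring

/-- evaluation of finitely supported combinations -/
noncomputable def ev (Z : ℕ → ℝ → ℝ) : (ℕ →₀ ℝ) →ₗ[ℝ] (ℝ → ℝ) := Finsupp.linearCombination ℝ Z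

lemma ev_apply (Z : ℕ → ℝ → ℝ) (u : ℕ →₀ ℝ) (t : ℝ) : ev Z u t = ∑ n ∈ u.support, u n * Z n t := by
  unfold ev
  rw [Finsupp.linearCombination_apply, Finsupp.sum, Finset.sum_apply]
  rfl

lemma ev_single (Z : ℕ → ℝ → ℝ) (n : ℕ) : ev Z (Finsupp.single n 1) = Z n := by
  unfold ev
  rw [Finsupp.linearCombination_single, one_smul]

lemma ev_bm {Z : ℕ → ℝ → ℝ} (hZ : ∀ n, BM (Z n)) {u : ℕ →₀ ℝ} (hu : 0 ≤ u) : BM (ev Z u) := by
  have h : ev Z u = fun t => ∑ n ∈ u.support, u n * Z n t := funext (ev_apply Z u)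
  rw [h]
  exact BM.sum _ _ fun n _ => (hZ n).const_mul (hu n)

lemma ev_smul_sum (Z : ℕ → ℝ → ℝ) (c : ℝ) (l : ℕ) (u : ℕ → ℕ →₀ ℝ) :
    ev Z (c • ∑ r ∈ Finset.range l, u r) = fun t => c * ∑ r ∈ Finset.range l, ev Z (u r) t := by
  funext t
  rw [map_smul, map_sum, Pi.smul_apply, Finset.sum_apply, smul_eq_mul]

/-- The hypotheses on the pair of sequences. -/
structure Hyp (K δ : ℝ) (d : ℕ) (p q : ℕ → ℕ) (A : Set ℝ) (Y Z : ℕ → ℝ → ℝ) : Prop where
  hK : 1 ≤ K
  hδ : 0 < δ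
  mA : MeasurableSet A
  rxY : ∀ k, RX (p k) (q k) (Y k)
  rxZ : ∀ k, RX (p k) (q k) (Z k)
  sep : ∀ k l, k < l → q k + 2 * d < p l
  dp : ∀ k, d ≤ p k
  hd : 4 * (1 / 2) ^ d ≤ δ
  Yoff : ∀ n, ∀ t ∉ A, Y n t = 0
  Zoff : ∀ n, ∀ t ∈ A, Z n t = 0
  nbY : ∀ n, NB (Y n) 1
  low : ∀ n, ∃ w g, GG w g ∧ δ ≤ pr g.1 (Y n)
  domY : ∀ u : ℕ →₀ ℝ, 0 ≤ u → ∀ C, NB (ev Z u) C → NB (ev Y u) (K * C)
  domZ : ∀ u : ℕ →₀ ℝ, 0 ≤ u → ∀ C, NB (ev Y u) C → NB (ev Z u) (K * C)

variable {K δ : ℝ} {d : ℕ} {p q : ℕ → ℕ} {A : Set ℝ} {Y Z : ℕ → ℝ → ℝ}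

/-- block sequences -/
structure Blk (p0 : ℕ) (Y Z : ℕ → ℝ → ℝ) (P Q : ℕ → ℕ) (u : ℕ → ℕ →₀ ℝ) : Prop where
  nn : ∀ i, 0 ≤ u i
  rxY : ∀ i, RX (P i) (Q i) (ev Y (u i))
  rxZ : ∀ i, RX (P i) (Q i) (ev Z (u i))
  sep : ∀ k l, k < l → Q k < P l
  st : ∀ i, p0 ≤ P i

lemma Blk.shift {p0 : ℕ} {P Q : ℕ → ℕ} {u : ℕ → ℕ →₀ ℝ} (h : Blk p0 Y Z P Q u) (m : ℕ) :
    Blk p0 Y Z (fun i => P (m + i)) (fun i => Q (m + i)) (fun i => u (m + i)) :=
  ⟨fun i => h.nn _, fun i => h.rxY _, fun i => h.rxZ _, fun k l hkl => h.sep _ _ (by omega),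
    fun i => h.st _⟩

/-- range of scaled sums -/
lemma rx_avg {l : ℕ} (hl : 4 ≤ l) {P Q : ℕ → ℕ} {x : ℕ → ℝ → ℝ}
    (hx : ∀ k < l, RX (P k) (Q k) (x k)) (sep : ∀ k l', k < l' → l' < l → Q k < P l') {c : ℝ}
    (hc0 : 0 ≤ c) (hc : c ≤ 1 / 2) :
    RX (P 0) (Q (l - 1)) (fun t => c * ∑ r ∈ Finset.range l, x r t) := by
  have hxb : ∀ r ∈ Finset.range l, BM (x r) := fun r hr => (hx r (Finset.mem_range.1 hr)).bm
  have hbm : BM (fun t => c * ∑ r ∈ Finset.range l, x r t) := (BM.sum _ _ hxb).const_mul hc0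
  have hqmono : ∀ i < l, Q i ≤ Q (l - 1) := by
    intro i hi
    rcases Nat.lt_or_ge i (l - 1) with h | h
    · have := sep i (l-1) h (by omega); have := (hx (l-1) (by omega)).pq; omega
    · have : i = l - 1 := by omega
      rw [this]
  have hpmono : ∀ i < l, P 0 ≤ P i := by
    intro i hi
    rcases Nat.eq_zero_or_pos i with h | h
    · rw [h]
    · have := sep 0 i h hi; have := (hx 0 (by omega)).pq; omega
  have hinjp : Set.InjOn P (Finset.range l) := by
    intro i hi l' hl' hil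
    rw [Finset.mem_coe, Finset.mem_range] at hi hl'
    rcases lt_trichotomy i l' with h | h | h
    · have := sep i l' h hl'; have := (hx i hi).pq; omega
    · exact h
    · have := sep l' i h hi; have := (hx l' hl').pq; omega
  have hinjq : Set.InjOn Q (Finset.range l) := by
    intro i hi l' hl' hil
    rw [Finset.mem_coe, Finset.mem_range] at hi hl'
    rcases lt_trichotomy i l' with h | h | h
    · have := sep i l' h hl'; have := (hx l' hl').pq; omega
    · exact h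
    · have := sep l' i h hi; have := (hx i hi).pq; omega
  refine ⟨hbm.meas, hbm.nn, ((hx 0 (by omega)).pq).trans (hqmono 0 (by omega)), fun t => ?_, ?_⟩
  · calc c * ∑ r ∈ Finset.range l, x r t ≤ (1/2) * ∑ r ∈ Finset.range l, (2 : ℝ) ^ (Q r) := by
          have h0 : 0 ≤ ∑ r ∈ Finset.range l, x r t :=
            Finset.sum_nonneg fun i hi => (hxb i hi).nn t
          gcongr with r hr
          exact (hx r (Finset.mem_range.1 hr)).le t
      _ ≤ (1/2) * 2 ^ (Q (l - 1) + 1) := by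
          gcongr
          refine sum_two_pow_le _ Q _ hinjq fun i hi => ?_
          have := hqmono i (Finset.mem_range.1 hi)
          omega
      _ = 2 ^ (Q (l - 1)) := by rw [pow_succ]; ring
  · rw [integral_const_mul, integral_finsetSum _ fun i hi => (hxb i hi).integrable]
    calc c * ∑ r ∈ Finset.range l, ∫ t, x r t ∂mu ≤
        c * ∑ r ∈ Finset.range l, (1 / 2) ^ (P r) := by
          gcongr with r hr
          exact (hx r (Finset.mem_range.1 hr)).int
      _ ≤ c * (2 * (1 / 2) ^ (P 0)) := by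
          gcongr
          exact sum_half_pow_le _ P _ hinjp fun i hi => hpmono i (Finset.mem_range.1 hi)
      _ ≤ (1 / 2) ^ (P 0) := by
          have : (0:ℝ) < (1 / 2) ^ (P 0) := by positivity
          nlinarith

/-- The averaging operation. -/
noncomputable def avU (l : ℕ) (u : ℕ → ℕ →₀ ℝ) : ℕ → ℕ →₀ ℝ :=
  fun i => (2 / l : ℝ) • ∑ r ∈ Finset.range l, u (i * l + r)

lemma Blk.av {p0 : ℕ} {P Q : ℕ → ℕ} {u : ℕ → ℕ →₀ ℝ} (h : Blk p0 Y Z P Q u) {l : ℕ} (hl : 4 ≤ l) :
    Blk p0 Y Z (fun i => P (i * l)) (fun i => Q (i * l + (l - 1))) (avU l u) := by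
  have hl0 : (4 : ℝ) ≤ l := by exact_mod_cast hl
  have hc0 : (0 : ℝ) ≤ 2 / l := by positivity
  have hc : (2 / l : ℝ) ≤ 1 / 2 := by
    rw [div_le_div_iff₀ (by linarith) (by norm_num)]; linarith
  refine ⟨fun i => ?_, fun i => ?_, fun i => ?_, fun k l' hkl => ?_, fun i => h.st _⟩
  · exact smul_nonneg hc0 (Finset.sum_nonneg fun r _ => h.nn _)
  · unfold avU
    rw [ev_smul_sum]
    exact rx_avg (P := fun r => P (i * l + r)) (Q := fun r => Q (i * l + r)) hl
      (fun k _ => h.rxY _) (fun k l' hkl _ => h.sep _ _ (by omega)) hc0 hc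
  · unfold avU
    rw [ev_smul_sum]
    exact rx_avg (P := fun r => P (i * l + r)) (Q := fun r => Q (i * l + r)) hl
      (fun k _ => h.rxZ _) (fun k l' hkl _ => h.sep _ _ (by omega)) hc0 hc
  · refine h.sep _ _ ?_
    have : (k + 1) * l ≤ l' * l := Nat.mul_le_mul_right _ hkl
    rw [add_mul, one_mul] at this
    omega

end Pool.Agent.H13.BL
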