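import Pool.Agent.H13.BL.Space

/-! Completeness; multiplication operators. -/

set_option autoImplicit false

namespace Pool.Agent.H13.BL

open MeasureTheory Set Filter Topology

noncomputable section

lemma memLp_mul {g : ℝ → ℝ} (hg : BM g) (z : L2) : MemLp (fun t => g t * z t) 2 mu := by
  obtain ⟨C, hC⟩ := hg.bd
  refine (Lp.memLp z).of_le_mul (c := C) (hg.meas.mul (meas2 z)).aestronglyMeasurable
    (Eventually.of_forall fun t => ?_)
  rw [norm_mul, Real.norm_eq_abs, abs_of_nonneg (hg.nn t)]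
  exact mul_le_mul_of_nonneg_right (hC t) (norm_nonneg _)

/-- multiplication operators on the Hilbert space -/
def mulL (g : ℝ → ℝ) (hg : BM g) : L2 →L[ℝ] L2 :=
  LinearMap.mkContinuous
    { toFun := fun z => (memLp_mul hg z).toLp
      map_add' := by
        intro x y
        rw [← MemLp.toLp_add]
        refine MemLp.toLp_congr _ _ ?_
        filter_upwards [Lp.coeFn_add x y] with t ht
        rw [ht]
        simp only [Pi.add_apply]; ring
      map_smul' := by
        intro c x
        rw [RingHom.id_apply, ← MemLp.toLp_const_smul]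
        refine MemLp.toLp_congr _ _ ?_
        filter_upwards [Lp.coeFn_smul c x] with t ht
        rw [ht]
        simp only [Pi.smul_apply, smul_eq_mul]; ring } hg.bd.choose (by
    intro z
    refine Lp.norm_le_mul_norm_of_ae_le_mul ?_
    filter_upwards [MemLp.coeFn_toLp (memLp_mul hg z)] with t ht
    show ‖((memLp_mul hg z).toLp : L2) t‖ ≤ _
    rw [ht, norm_mul, Real.norm_eq_abs, abs_of_nonneg (hg.nn t)]
    exact mul_le_mul_of_nonneg_right (hg.bd.choose_spec t) (norm_nonneg _))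

lemma mulL_ae {g : ℝ → ℝ} (hg : BM g) (z : L2) : mulL g hg z =ᵐ[mu] fun t => g t * z t :=
  MemLp.coeFn_toLp (memLp_mul hg z)

lemma inner_eq (x y : L2) : inner ℝ x y = ∫ t, x t * y t ∂mu := by
  rw [L2.inner_def]
  congr 1; funext t
  simp [mul_comm]

lemma inner_mulL {g : ℝ → ℝ} (hg : BM g) (x y : L2) :
    inner ℝ (mulL g hg x) y = pr g (fun t => x t * y t) := by
  rw [inner_eq]
  refine integral_congr_ae ?_
  filter_upwards [mulL_ae hg x] with t ht
  simp only [ht]; ring

lemma pr_sqf_eq {g : ℝ → ℝ} (hg : BM g) (x : L2) : pr g (sqf x) = inner ℝ (mulL g hg x) x := by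
  rw [inner_mulL]
  congr 1; funext t; unfold sqf; ring

lemma continuous_pr_sqf {g : ℝ → ℝ} (hg : BM g) : Continuous (fun z : L2 => pr g (sqf z)) := by
  simp_rw [pr_sqf_eq hg]
  exact (mulL g hg).continuous.inner continuous_id

instance : CompleteSpace E := by
  refine Metric.complete_of_cauchySeq_tendsto fun u hu => ?_
  have h1 : CauchySeq (fun n => incl (u n)) := hu.map incl.uniformContinuous
  obtain ⟨y, hy⟩ := cauchySeq_tendsto_of_complete h1
  have key : ∀ ε > 0, ∃ N0, ∀ n ≥ N0, NB (sqf (y - (u n).v)) (ε ^ 2) := by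
    intro ε hε
    obtain ⟨N0, hN0⟩ := Metric.cauchySeq_iff.1 hu ε hε
    refine ⟨N0, fun n hn w g hg => ?_⟩
    have h2 : Tendsto (fun m => pr g.1 (sqf (incl (u m) - (u n).v))) atTop
        (𝓝 (pr g.1 (sqf (y - (u n).v)))) :=
      ((continuous_pr_sqf hg.bm).tendsto _).comp (hy.sub_const _)
    refine le_of_tendsto h2 ?_
    filter_upwards [eventually_ge_atTop N0] with m hm
    have h3 := hN0 m hm n hn
    rw [dist_eq_norm] at h3
    have h4 := E.nb (u m - u n) w g hg
    have h5 : ‖u m - u n‖ ^ 2 ≤ ε ^ 2 := by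
      have := norm_nonneg (u m - u n)
      gcongr
    exact h4.trans h5
  have hyE : y ∈ EE := by
    obtain ⟨N0, hN0⟩ := key 1 one_pos
    have h2 : y - (u N0).v ∈ EE := ⟨_, hN0 N0 le_rfl⟩
    have h3 := EE.add_mem h2 (u N0).v_mem
    rwa [sub_add_cancel] at h3
  refine ⟨E.mk y hyE, Metric.tendsto_atTop.2 fun ε hε => ?_⟩
  obtain ⟨N0, hN0⟩ := key (ε / 2) (by positivity)
  refine ⟨N0, fun n hn => ?_⟩
  rw [dist_comm, dist_eq_norm]
  have : ‖E.mk y hyE - u n‖ ≤ ε / 2 := E.norm_le (by positivity) (hN0 n hn)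
  linarith

/-- multiplication operators on our space -/
lemma mulL_mem {g : ℝ → ℝ} (hg : BM g) (hg1 : ∀ t, g t ≤ 1) (y : E) : mulL g hg y.v ∈ EE := by
  refine mem_EE_of_le (sqf_int y.v) (E.nb y) ?_
  filter_upwards [mulL_ae hg y.v] with t ht
  simp only [sqf, ht]
  have h1 := hg.nn t
  have h2 := hg1 t
  rw [mul_pow]
  calc g t ^ 2 * (y.v t) ^ 2 ≤ 1 * (y.v t) ^ 2 := by
        gcongr
        nlinarith
    _ = _ := one_mul _

lemma bm_ind {B : Set ℝ} (hB : MeasurableSet B) : BM (indicator B 1) := by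
  refine ⟨measurable_const.indicator hB, fun t => ?_, 1, fun t => ?_⟩
  · by_cases h : t ∈ B <;> simp [h]
  · by_cases h : t ∈ B <;> simp [h]

lemma ind_le_one (B : Set ℝ) (t : ℝ) : indicator B (1 : ℝ → ℝ) t ≤ 1 := by
  by_cases h : t ∈ B <;> simp [h]

/-- restriction to a measurable set -/
def res (B : Set ℝ) (hB : MeasurableSet B) (y : E) : E :=
  E.mk (mulL _ (bm_ind hB) y.v) (mulL_mem (bm_ind hB) (ind_le_one B) y)

lemma res_ae {B : Set ℝ} (hB : MeasurableSet B) (y : E) :
    (res B hB y).v =ᵐ[mu] fun t => indicator B 1 t * y.v t := mulL_ae (bm_ind hB) y.v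

lemma sqf_res {B : Set ℝ} (hB : MeasurableSet B) (y : E) :
    sqf (res B hB y).v =ᵐ[mu] fun t => indicator B 1 t * sqf y.v t := by
  filter_upwards [res_ae hB y] with t ht
  simp only [sqf, ht]
  by_cases h : t ∈ B <;> simp [h]

/-- order continuity -/
lemma order_cont {X : ℝ → ℝ} (hm : Measurable X) (h0 : ∀ t, 0 ≤ X t) (hi : Integrable X mu)
    {C : ℝ} (hC : NB X C) {ε : ℝ} (hε : 0 < ε) :
    ∃ M : ℕ, NB (fun t => indicator {t | (M : ℝ) < X t} X t) ε := by
  by_contra hcon
  push Not at hcon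
  have hms : ∀ M : ℕ, MeasurableSet {t | (M : ℝ) < X t} :=
    fun M => measurableSet_lt measurable_const hm
  have hlim : Tendsto (fun M : ℕ => ∫ t, indicator {t | (M : ℝ) < X t} X t ∂mu) atTop (𝓝 0) := by
    have h1 : ∫ _ : ℝ, (0 : ℝ) ∂mu = 0 := integral_zero _ _
    rw [← h1]
    refine tendsto_integral_of_dominated_convergence X
      (fun M => (hm.indicator (hms M)).aestronglyMeasurable) hi (fun M => ?_) ?_
    · refine Eventually.of_forall fun t => ?_
      by_cases h : t ∈ {t | (M : ℝ) < X t}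
      · rw [indicator_of_mem h, Real.norm_eq_abs, abs_of_nonneg (h0 t)]
      · rw [indicator_of_notMem h, norm_zero]; exact h0 t
    · refine Eventually.of_forall fun t => ?_
      obtain ⟨M0, hM0⟩ := exists_nat_gt (X t)
      refine tendsto_const_nhds.congr' ?_
      filter_upwards [eventually_ge_atTop M0] with M hM
      have : t ∉ {t | (M : ℝ) < X t} := by
        intro h
        have h2 : (M : ℝ) < X t := h
        have h3 : (M0 : ℝ) ≤ M := by exact_mod_cast hM
        linarith
      rw [indicator_of_notMem this]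
  -- the next functional
  have hnext : ∀ b : ℕ, ∃ s : St × ℕ × ℕ × ℕ, (GG s.2.1 s.1 ∧ RR s.2.2.1 s.2.2.2 s.1.1 ∧
      ε / 2 ≤ pr s.1.1 X) ∧ b < s.2.2.1 := by
    intro b
    have h2 : ∀ᶠ M : ℕ in atTop, ∫ t, indicator {t | (M : ℝ) < X t} X t ∂mu <
        ε / 2 / 2 ^ (b + 1) := hlim.eventually (gt_mem_nhds (by positivity))
    obtain ⟨M, hM⟩ := h2.exists
    have h3 := hcon M
    unfold NB at h3
    push Not at h3
    obtain ⟨w, g, hg, hgX⟩ := h3
    obtain ⟨c, hc⟩ := g.2.bdd
    set b' := max (b + 1) c with hb'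
    refine ⟨(cut (b + 1) b' g, w, b + 1, b'), ⟨hg.cutg _ _, hg.rr_cut (le_max_left _ _), ?_⟩,
      Nat.lt_succ_self b⟩
    have hXM : Integrable (fun t => indicator {t | (M : ℝ) < X t} X t) mu := hi.indicator (hms M)
    have h4 : pr g.1 (fun t => indicator {t | (M : ℝ) < X t} X t) ≤
        pr (cut (b + 1) b' g).1 X + 2 ^ (b + 1) * ∫ t, indicator {t | (M : ℝ) < X t} X t ∂mu := by
      unfold pr
      rw [← integral_const_mul, ← integral_add ((hg.cutg _ _).bm.mul_int hi)
        (hXM.const_mul _)]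
      refine integral_mono (hg.bm.mul_int hXM)
        (((hg.cutg _ _).bm.mul_int hi).add (hXM.const_mul _)) fun t => ?_
      have e1 : g.1 t ≤ (cut (b + 1) b' g).1 t + 2 ^ (b + 1) := by
        show g.1 t ≤ min (max (g.1 t - 2 ^ (b + 1)) 0) (2 ^ b') + 2 ^ (b + 1)
        have e2 : max (g.1 t - 2 ^ (b + 1)) 0 ≤ 2 ^ b' := by
          apply max_le
          · have e3 : (2 : ℝ) ^ c ≤ 2 ^ b' := pow_le_pow_right₀ (by norm_num) (le_max_right _ _)
            have e4 : (0 : ℝ) < 2 ^ (b + 1) := by positivity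
            linarith [hc t]
          · positivity
        rw [min_eq_left e2]
        linarith [le_max_left (g.1 t - 2 ^ (b + 1)) 0]
      have e5 : 0 ≤ (cut (b + 1) b' g).1 t := (hg.cutg (b + 1) b').nn t
      show g.1 t * indicator {t | (M : ℝ) < X t} X t ≤ (cut (b + 1) b' g).1 t * X t +
        2 ^ (b + 1) * indicator {t | (M : ℝ) < X t} X t
      by_cases h : t ∈ {t | (M : ℝ) < X t}
      · rw [indicator_of_mem h]
        have := mul_le_mul_of_nonneg_right e1 (h0 t)
        linarith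
      · rw [indicator_of_notMem h]
        have := mul_nonneg e5 (h0 t)
        linarith
    have h5 : (2 : ℝ) ^ (b + 1) * ∫ t, indicator {t | (M : ℝ) < X t} X t ∂mu ≤ ε / 2 := by
      calc _ ≤ (2 : ℝ) ^ (b + 1) * (ε / 2 / 2 ^ (b + 1)) := by gcongr
        _ = ε / 2 := by field_simp
    show ε / 2 ≤ pr (cut (b + 1) b' g).1 X
    linarith
  obtain ⟨s0, hs0, -⟩ := hnext 0
  choose nx hnx hnxb using hnext
  let f : ℕ → St × ℕ × ℕ × ℕ := fun k => Nat.rec s0 (fun _ s => nx s.2.2.2) k
  have hfg : ∀ k, GG (f k).2.1 (f k).1 ∧ RR (f k).2.2.1 (f k).2.2.2 (f k).1.1 ∧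
      ε / 2 ≤ pr (f k).1.1 X := by
    intro k
    cases k with
    | zero => exact hs0
    | succ k => exact hnx _
  have hstep : ∀ k, (f k).2.2.2 < (f (k + 1)).2.2.1 := fun k => hnxb _
  have hsep : ∀ k l, k < l → (f k).2.2.2 < (f l).2.2.1 := by
    intro k l hkl
    induction l with
    | zero => omega
    | succ l ih =>
      rcases Nat.lt_or_ge k l with h' | h'
      · have := ih h'; have := hstep l; have := (hfg l).2.1.ab; omega
      · have : k = l := by omega
        subst this; exact hstep k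
  obtain ⟨m, hm'⟩ := exists_nat_gt (2 * C / ε)
  set j := 2 * m + 2 with hj
  have hje : ¬ Odd j := by
    rw [Nat.not_odd_iff_even]; exact ⟨m + 1, by omega⟩
  have hbm : ∀ i < nn j, BM (f i).1.1 := fun i _ => (hfg i).1.bm
  set ψ : St := ⟨fun t => β j * ∑ i ∈ Finset.range (nn j), (f i).1.1 t, by
    have h1 : IsSt (fun _ : ℝ => β j) := by
      have := IsSt.const ((mm j : ℚ)⁻¹)
      push_cast at this
      exact this
    exact h1.mul (IsSt.sum _ _ fun i _ => (f i).1.2)⟩ with hψ
  have hβ := β_pos j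
  have hψG : GG j ψ := by
    refine GG.node j (nn j) (fun i => (f i).1) (fun i => (f i).2.1) (fun i => (f i).2.2.1)
      (fun i => (f i).2.2.2) (fun _ => 0) _ (by omega) le_rfl (fun i _ => (hfg i).1)
      (fun i _ => (hfg i).2.1) (fun i l hil _ => hsep i l hil) (fun ho => absurd ho hje)
      (fun t => ?_) (fun t => le_rfl)
    exact mul_nonneg hβ.le (Finset.sum_nonneg fun i hi => (hbm i (Finset.mem_range.1 hi)).nn t)
  have h1 : pr ψ.1 X = β j * ∑ i ∈ Finset.range (nn j), pr (f i).1.1 X := by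
    unfold pr
    rw [← integral_finsetSum _ fun i hi' => (hbm i (Finset.mem_range.1 hi')).mul_int hi,
      ← integral_const_mul]
    congr 1; funext t
    show (β j * ∑ i ∈ Finset.range (nn j), (f i).1.1 t) * X t = _
    rw [mul_assoc, Finset.sum_mul]
  have h2 := hC j ψ hψG
  rw [h1] at h2
  have h3 : (nn j : ℝ) * (ε / 2) ≤ ∑ i ∈ Finset.range (nn j), pr (f i).1.1 X := by
    calc (nn j : ℝ) * (ε / 2) = ∑ i ∈ Finset.range (nn j), (ε / 2) := by
          rw [Finset.sum_const, Finset.card_range, nsmul_eq_mul]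
      _ ≤ _ := Finset.sum_le_sum fun i _ => (hfg i).2.2
  have h4 : (j : ℝ) ≤ β j * (nn j : ℝ) := by
    have e1 := one_le_β_sq_nn j
    have e2 := β_lt_inv j
    have e3 := β_nn_pos j
    have e4 : β j * (j : ℝ) ≤ β j * (β j * (nn j : ℝ)) := by
      calc β j * (j : ℝ) ≤ 1 := e2
        _ ≤ β j ^ 2 * nn j := e1
        _ = _ := by ring
    exact le_of_mul_le_mul_left e4 hβ
  have h5 : (m : ℝ) ≤ j := by exact_mod_cast (by omega : m ≤ j)
  have h6 : 2 * C < m * ε := by
    rwa [div_lt_iff₀ hε] at hm'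
  have h7 : β j * ((nn j : ℝ) * (ε / 2)) ≤ C :=
    (mul_le_mul_of_nonneg_left h3 hβ.le).trans h2
  nlinarith [mul_le_mul_of_nonneg_right (h5.trans h4) hε.le]

end

end Pool.Agent.H13.BL
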