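import Pool.Agent.H13.BL.Dep

/-! The contradiction for pairs of sequences. -/

set_option autoImplicit false

namespace Pool.Agent.H13.BL

open MeasureTheory Set

lemma ev_comp (Y : ℕ → ℝ → ℝ) (φ : ℕ → ℕ) (u : ℕ →₀ ℝ) :
    ev (fun k => Y (φ k)) u = ev Y (u.mapDomain φ) := by
  unfold ev
  rw [Finsupp.linearCombination_mapDomain]
  rfl

theorem core {K δ : ℝ} (hK : 1 ≤ K) (hδ : 0 < δ) {A : Set ℝ} (mA : MeasurableSet A)
    {Y Z : ℕ → ℝ → ℝ} (bmY : ∀ n, BM (Y n)) (bmZ : ∀ n, BM (Z n))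
    (Yoff : ∀ n, ∀ t ∉ A, Y n t = 0) (Zoff : ∀ n, ∀ t ∈ A, Z n t = 0)
    (nbY : ∀ n, NB (Y n) 1) (low : ∀ n, ∃ w g, GG w g ∧ δ ≤ pr g.1 (Y n))
    (domY : ∀ u : ℕ →₀ ℝ, 0 ≤ u → ∀ C, NB (ev Z u) C → NB (ev Y u) (K * C))
    (domZ : ∀ u : ℕ →₀ ℝ, 0 ≤ u → ∀ C, NB (ev Y u) C → NB (ev Z u) (K * C))
    (small : ∀ P : ℕ, ∃ n, ∫ t, Y n t ∂mu ≤ (1 / 2) ^ P ∧ ∫ t, Z n t ∂mu ≤ (1 / 2) ^ P) : False := by
  obtain ⟨d, hd⟩ := exists_pow_lt_of_lt_one (show (0 : ℝ) < δ / 4 by positivity)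
    (by norm_num : (1 / 2 : ℝ) < 1)
  have hnext : ∀ P : ℕ, ∃ s : ℕ × ℕ × ℕ, s.2.1 = P ∧ RX s.2.1 s.2.2 (Y s.1) ∧
      RX s.2.1 s.2.2 (Z s.1) := by
    intro P
    obtain ⟨n, hn1, hn2⟩ := small P
    obtain ⟨C, hC⟩ := (bmY n).bd
    obtain ⟨D, hD⟩ := (bmZ n).bd
    obtain ⟨c, hc⟩ := pow_unbounded_of_one_lt (max C D) (by norm_num : (1 : ℝ) < 2)
    have h1 : (2 : ℝ) ^ c ≤ 2 ^ (max P c) := pow_le_pow_right₀ (by norm_num) (le_max_right _ _)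
    refine ⟨(n, P, max P c), rfl, ⟨(bmY n).meas, (bmY n).nn, le_max_left _ _, fun t => ?_, hn1⟩,
      ⟨(bmZ n).meas, (bmZ n).nn, le_max_left _ _, fun t => ?_, hn2⟩⟩
    · exact (hC t).trans ((le_max_left C D).trans (hc.le.trans h1))
    · exact (hD t).trans ((le_max_right C D).trans (hc.le.trans h1))
  obtain ⟨s0, hs0, hs0Y, hs0Z⟩ := hnext d
  obtain ⟨f, -, hfg, hfs⟩ := exists_chain (σ := ℕ × ℕ × ℕ)
    (fun s => RX s.2.1 s.2.2 (Y s.1) ∧ RX s.2.1 s.2.2 (Z s.1) ∧ d ≤ s.2.1)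
    (fun s s' => s.2.2 + 2 * d < s'.2.1) s0 ⟨hs0Y, hs0Z, hs0.ge⟩ (by
      intro s hs
      obtain ⟨s', h1, h2, h3⟩ := hnext (s.2.2 + 2 * d + 1)
      exact ⟨s', ⟨h2, h3, by omega⟩, by omega⟩)
  have H : Hyp K δ d (fun k => (f k).2.1) (fun k => (f k).2.2) A (fun k => Y (f k).1)
      (fun k => Z (f k).1) := by
    refine ⟨hK, hδ, mA, fun k => (hfg k).1, fun k => (hfg k).2.1, ?_, fun k => (hfg k).2.2,
      by linarith, fun n => Yoff _, fun n => Zoff _, fun n => nbY _, fun n => low _, ?_, ?_⟩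
    · exact sep_of_step (fun k => (hfg k).1.pq) hfs
    · intro u hu C hC
      rw [ev_comp Z (fun k => (f k).1)] at hC
      rw [ev_comp Y (fun k => (f k).1)]
      exact domY _ (Finsupp.mapDomain_nonneg hu) C hC
    · intro u hu C hC
      rw [ev_comp Y (fun k => (f k).1)] at hC
      rw [ev_comp Z (fun k => (f k).1)]
      exact domZ _ (Finsupp.mapDomain_nonneg hu) C hC
  exact H.contra

end Pool.Agent.H13.BL
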