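import Pool.Agent.H13.BL.Exact

/-! Dependent sequences and the main contradiction. -/

set_option autoImplicit false

namespace Pool.Agent.H13.BL

open MeasureTheory Set

variable {K δ : ℝ} {d : ℕ} {p q : ℕ → ℕ} {A : Set ℝ} {Y Z : ℕ → ℝ → ℝ}

lemma Ex.mono {C : ℝ} {v : ℕ} {ε : ℝ} {A0 A1 : ℕ} {u : ℕ →₀ ℝ} {φ : St} {a b q : ℕ}
    (h : Ex C Y Z v ε A0 u φ a b q) (hA : A1 ≤ A0) : Ex C Y Z v ε A1 u φ a b q :=
  { h with ha := hA.trans h.ha }

/-- states in the construction of the dependent sequence -/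
structure DS where
  L : List (St × ℕ)
  u : ℕ →₀ ℝ
  φ : St
  c : ℕ
  a : ℕ
  b : ℕ
  q : ℕ

/-- the weight attached to a list -/
noncomputable def wgt (j : ℕ) (L : List (St × ℕ)) : ℕ := 2 * (Lam j + code L)

lemma wgt_even (j : ℕ) (L : List (St × ℕ)) : ¬ Odd (wgt j L) := by
  rw [Nat.not_odd_iff_even]
  exact ⟨Lam j + code L, by unfold wgt; ring⟩

lemma Lam_le_wgt (j : ℕ) (L : List (St × ℕ)) : Lam j ≤ wgt j L := by
  unfold wgt; omega

lemma Lam_pos (j : ℕ) : 1 ≤ Lam j := by
  unfold Lam
  have := nn_pos j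
  exact Nat.one_le_pow _ _ this

lemma nn_le_Lam (j : ℕ) : nn j ≤ Lam j := by
  unfold Lam
  rw [pow_two]
  exact Nat.le_mul_of_pos_left _ (nn_pos j)

lemma exists_c (j : ℕ) (L : List (St × ℕ)) (φ : St) (q : ℕ) :
    ∃ c, q < wgt j (L ++ [(φ, c)]) := by
  have hinj : Function.Injective (fun c : ℕ => code (L ++ [(φ, c)])) := by
    intro c c' h
    have h1 := code_inj h
    have h2 := List.append_cancel_left h1
    simpa using h2
  have h3 := hinj.nat_tendsto_atTop
  obtain ⟨c, hc⟩ := (h3.eventually (Filter.eventually_ge_atTop (q + 1))).exists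
  refine ⟨c, ?_⟩
  unfold wgt
  have : q + 1 ≤ code (L ++ [(φ, c)]) := hc
  omega

/-- existence of dependent sequences -/
lemma Hyp.dep (H : Hyp K δ d p q A Y Z) (j : ℕ) :
    ∃ f : ℕ → DS,
      (∀ k, Ex (2 * K + 2) Y Z (wgt j (f k).L) (1 / nn j) 0 (f k).u (f k).φ (f k).a (f k).b (f k).q) ∧
      (∀ k, (f k).q < wgt j (f (k + 1)).L) ∧
      (∀ k, (f k).L = (List.range k).map fun l => ((f l).φ, (f l).c)) ∧
      (∀ k, (f k).b < (f (k + 1)).a) := by
  have hn0 : (0 : ℝ) < 1 / nn j := by
    have : (0 : ℝ) < nn j := by exact_mod_cast nn_pos j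
    positivity
  have hnext : ∀ (L : List (St × ℕ)) (A0 : ℕ), ∃ s : DS, s.L = L ∧
      Ex (2 * K + 2) Y Z (wgt j s.L) (1 / nn j) A0 s.u s.φ s.a s.b s.q ∧
      s.q < wgt j (s.L ++ [(s.φ, s.c)]) := by
    intro L A0
    obtain ⟨u, φ, a, b, q0, h⟩ := H.exact (wgt j L)
      ((Lam_pos j).trans (Lam_le_wgt j L)) (wgt_even j L) (1 / nn j) hn0 A0
    obtain ⟨c, hc⟩ := exists_c j L φ q0
    exact ⟨⟨L, u, φ, c, a, b, q0⟩, rfl, h, hc⟩
  obtain ⟨s0, hs0L, hs0, hs0c⟩ := hnext [] 0
  obtain ⟨f, hf0, hfg, hfs⟩ := exists_chain (σ := DS)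
    (fun s => Ex (2 * K + 2) Y Z (wgt j s.L) (1 / nn j) 0 s.u s.φ s.a s.b s.q ∧
      s.q < wgt j (s.L ++ [(s.φ, s.c)]))
    (fun s s' => s'.L = s.L ++ [(s.φ, s.c)] ∧ s.b < s'.a) s0 ⟨hs0, hs0c⟩ (by
      intro s hs
      obtain ⟨s', h1, h2, h3⟩ := hnext (s.L ++ [(s.φ, s.c)]) (s.b + 1)
      exact ⟨s', ⟨h2.mono (Nat.zero_le _), h3⟩, h1, h2.ha⟩)
  refine ⟨f, fun k => (hfg k).1, fun k => ?_, fun k => ?_, fun k => (hfs k).2⟩
  · rw [(hfs k).1]; exact (hfg k).2
  · induction k with
    | zero => rw [hf0, hs0L]; rfl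
    | succ k ih =>
      rw [(hfs k).1, ih, List.range_succ, List.map_append]
      rfl

/-- Functionals of large weight different from all the weights act badly. -/
lemma tiny {C : ℝ} (hC : 1 ≤ C) {j : ℕ} {v q : ℕ → ℕ} {x : ℕ → ℝ → ℝ}
    (hR : RSeq (9 * C) (nn j) v q x)
    (hhi : ∀ k < nn j, ∀ w g, GG w g → v k < w → pr g.1 (x k) ≤ 3 * C * β (v k))
    (hv : ∀ k, Lam j ≤ v k) {w : ℕ} {g : St} (hg : GG w g) (hw : Lam j ≤ w)
    {T : Finset ℕ} (hT : ∀ k ∈ T, k < nn j) (hne : ∀ k ∈ T, v k ≠ w) :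
    ∑ k ∈ T, pr g.1 (x k) ≤ 13 * C / nn j := by
  have hn0 : (0 : ℝ) < nn j := by exact_mod_cast nn_pos j
  have hβ := β_pos w
  have hw1 : 1 ≤ w := (Lam_pos j).trans hw
  have hsplit : ∑ k ∈ T, pr g.1 (x k) = ∑ k ∈ T.filter (fun k => q k < w), pr g.1 (x k) +
      (∑ k ∈ T.filter (fun k => ¬ q k < w ∧ w < v k), pr g.1 (x k) +
       ∑ k ∈ T.filter (fun k => ¬ q k < w ∧ ¬ w < v k), pr g.1 (x k)) := by
    rw [← Finset.sum_filter_add_sum_filter_not T (fun k => q k < w)]
    congr 1
    rw [← Finset.sum_filter_add_sum_filter_not (T.filter (fun k => ¬ q k < w))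
      (fun k => w < v k)]
    rw [Finset.filter_filter, Finset.filter_filter]
  have b1 : ∑ k ∈ T.filter (fun k => q k < w), pr g.1 (x k) ≤ 1 / nn j := by
    calc ∑ k ∈ T.filter (fun k => q k < w), pr g.1 (x k) ≤
        ∑ k ∈ T.filter (fun k => q k < w), (2 : ℝ) ^ (q k) * (2 * β w) :=
          Finset.sum_le_sum fun k hk => by
            rw [Finset.mem_filter] at hk
            have hr := (hR.rv k (hT k hk.1)).rx
            refine (pr_le_right hg.bm hr.bm hr.le).trans ?_
            have := hg.int_le_beta hw1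
            gcongr
      _ = (∑ k ∈ T.filter (fun k => q k < w), (2 : ℝ) ^ (q k)) * (2 * β w) := by
          rw [Finset.sum_mul]
      _ ≤ 2 ^ w * (2 * β w) := by
          gcongr
          refine sum_two_pow_le _ q w ?_ ?_
          · intro i hi l hl hil
            rw [Finset.mem_coe, Finset.mem_filter] at hi hl
            rcases lt_trichotomy i l with h' | h' | h'
            · have := hR.sep i l h' (hT l hl.1); have := (hR.rv l (hT l hl.1)).rx.pq; omega
            · exact h'
            · have := hR.sep l i h' (hT i hi.1); have := (hR.rv i (hT i hi.1)).rx.pq; omega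
          · intro i hi
            rw [Finset.mem_filter] at hi
            exact hi.2
      _ = 2 * 2 ^ w * β w := by ring
      _ ≤ 1 / nn j := by
          rw [le_div_iff₀ hn0]
          refine le_trans ?_ (two_pow_beta w)
          have h1 : (nn j : ℝ) ≤ w + 1 := by
            have : nn j ≤ w + 1 := by have := nn_le_Lam j; omega
            exact_mod_cast this
          gcongr
  have b2 : ∑ k ∈ T.filter (fun k => ¬ q k < w ∧ w < v k), pr g.1 (x k) ≤ 9 * C / nn j := by
    calc _ ≤ ∑ k ∈ T.filter (fun k => ¬ q k < w ∧ w < v k), 9 * C * β w :=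
          Finset.sum_le_sum fun k hk => by
            rw [Finset.mem_filter] at hk
            exact (hR.rv k (hT k hk.1)).low w g hg hw1 hk.2.2
      _ = ((T.filter (fun k => ¬ q k < w ∧ w < v k)).card : ℝ) * (9 * C * β w) := by
          rw [Finset.sum_const, nsmul_eq_mul]
      _ ≤ (nn j : ℝ) * (9 * C * β w) := by
          gcongr
          calc (T.filter (fun k => ¬ q k < w ∧ w < v k)).card ≤ (Finset.range (nn j)).card :=
                Finset.card_le_card fun k hk =>
                  Finset.mem_range.2 (hT k (Finset.mem_filter.1 hk).1)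
            _ = nn j := Finset.card_range _
      _ ≤ 9 * C / nn j := by
          rw [le_div_iff₀ hn0]
          have h1 : β w * (w : ℝ) ≤ 1 := β_lt_inv w
          have h2 : ((nn j : ℝ)) ^ 2 ≤ w := by
            have : nn j ^ 2 ≤ w := hw
            exact_mod_cast this
          have h3 : β w * (nn j : ℝ) ^ 2 ≤ 1 := (mul_le_mul_of_nonneg_left h2 hβ.le).trans h1
          nlinarith
  have b3 : ∑ k ∈ T.filter (fun k => ¬ q k < w ∧ ¬ w < v k), pr g.1 (x k) ≤ 3 * C / nn j := by
    refine sum_le_of_card_le_one _ ?_ _ (by positivity) ?_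
    · rw [Finset.card_le_one]
      intro i hi l hl
      rw [Finset.mem_filter] at hi hl
      rcases lt_trichotomy i l with h' | h' | h'
      · have := hR.sep i l h' (hT l hl.1); omega
      · exact h'
      · have := hR.sep l i h' (hT i hi.1); omega
    · intro k hk
      rw [Finset.mem_filter] at hk
      have hlt : v k < w := lt_of_le_of_ne (not_lt.1 hk.2.2) (hne k hk.1)
      refine (hhi k (hT k hk.1) w g hg hlt).trans ?_
      rw [le_div_iff₀ hn0]
      have h1 : β (v k) * (v k : ℝ) ≤ 1 := β_lt_inv (v k)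
      have h2 : (nn j : ℝ) ≤ v k := by
        exact_mod_cast (nn_le_Lam j).trans (hv k)
      have h3 : β (v k) * (nn j : ℝ) ≤ 1 :=
        (mul_le_mul_of_nonneg_left h2 (β_pos _).le).trans h1
      nlinarith
  rw [hsplit]
  have h5 : 1 / (nn j : ℝ) + (9 * C / nn j + 3 * C / nn j) ≤ 13 * C / nn j := by
    rw [← add_div, ← add_div]
    gcongr
    linarith
  linarith

/-- Special functionals act badly on the second components. -/
lemma special_act {C : ℝ} (hC : 1 ≤ C) {j : ℕ} (hjo : Odd j) {v q : ℕ → ℕ} {x : ℕ → ℝ → ℝ}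
    (hR : RSeq (9 * C) (nn j) v q x)
    (hhi : ∀ k < nn j, ∀ w g, GG w g → v k < w → pr g.1 (x k) ≤ 3 * C * β (v k))
    {φ : ℕ → St} {c : ℕ → ℕ}
    (hv : ∀ k, v k = wgt j ((List.range k).map fun l => (φ l, c l)))
    (hsm : ∀ k < nn j, pr (φ k).1 (x k) ≤ 1 / nn j)
    {T : Finset ℕ} (hT : ∀ k ∈ T, k < nn j) {g : St} (hg : GG j g) :
    ∑ k ∈ T, pr g.1 (x k) ≤ 23 * C := by
  have hn0 : (0 : ℝ) < nn j := by exact_mod_cast nn_pos j
  have hj1 : 1 ≤ j := by obtain ⟨m, hm⟩ := hjo; omega
  have hgbm := hg.bm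
  cases hg with
  | base a g h0 h1 h2 => omega
  | node j n h w a b c' g hj hn hG hR' hs hsp h0 h1 =>
    have hh : ∀ i ∈ Finset.range n, BM (h i).1 := fun i hi => (hG i (Finset.mem_range.1 hi)).bm
    have hβ := (β_pos j).le
    have hβ1 := β_le_one j
    have hw : ∀ i < n, w i = wgt j ((List.range i).map fun l => (h l, c' l)) :=
      fun i hi => hsp hjo i hi
    have hvL : ∀ k, Lam j ≤ v k := fun k => by rw [hv]; exact Lam_le_wgt _ _
    -- equality of weights
    have heq : ∀ i < n, ∀ k, w i = v k → i = k ∧ ∀ l < i, h l = φ l := by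
      intro i hi k hik
      rw [hw i hi, hv k] at hik
      have h2 : code ((List.range i).map fun l => (h l, c' l)) =
          code ((List.range k).map fun l => (φ l, c l)) := by
        unfold wgt at hik; omega
      have h3 := code_inj h2
      have h4 : i = k := by
        have := congrArg List.length h3
        simpa using this
      subst h4
      refine ⟨rfl, fun l hl => ?_⟩
      rw [List.map_inj_left] at h3
      have := h3 l (List.mem_range.2 hl)
      exact (Prod.mk.inj this).1
    have e1 : ∀ k ∈ T, pr g.1 (x k) ≤ β j * ∑ i ∈ Finset.range n, pr (h i).1 (x k) := by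
      intro k hk
      have hxk := (hR.rv k (hT k hk)).rx.bm
      rw [← pr_sum_left _ _ hh hxk, ← pr_const_mul_left]
      exact pr_mono hgbm ((BM.sum _ _ hh).const_mul hβ) hxk hxk h1 (fun t => le_rfl)
    -- the diagonal terms
    set D : ℕ → ℝ := fun i => if i ∈ T ∧ w i = v i then pr (h i).1 (x i) else 0 with hD
    have e2 : ∀ i < n, ∑ k ∈ T, pr (h i).1 (x k) ≤ 13 * C / nn j + D i := by
      intro i hi
      rw [← Finset.sum_filter_add_sum_filter_not T (fun k => v k ≠ w i)]
      have t1 : ∑ k ∈ T.filter (fun k => v k ≠ w i), pr (h i).1 (x k) ≤ 13 * C / nn j := by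
        refine tiny hC hR hhi hvL (hG i hi) ?_ (fun k hk => hT k (Finset.mem_filter.1 hk).1)
          (fun k hk => (Finset.mem_filter.1 hk).2)
        rw [hw i hi]; exact Lam_le_wgt _ _
      have t2 : ∑ k ∈ T.filter (fun k => ¬ v k ≠ w i), pr (h i).1 (x k) ≤ D i := by
        by_cases hiT : i ∈ T ∧ w i = v i
        · have : T.filter (fun k => ¬ v k ≠ w i) = {i} := by
            ext k
            rw [Finset.mem_filter, Finset.mem_singleton, not_not]
            constructor
            · rintro ⟨_, hk⟩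
              exact ((heq i hi k hk.symm).1).symm
            · rintro rfl
              exact ⟨hiT.1, hiT.2.symm⟩
          rw [this, Finset.sum_singleton, hD]
          simp only [if_pos hiT]
          exact le_rfl
        · have : T.filter (fun k => ¬ v k ≠ w i) = ∅ := by
            ext k
            rw [Finset.mem_filter, not_not]
            constructor
            · rintro ⟨hkT, hk⟩
              have := (heq i hi k hk.symm).1
              subst this
              exact absurd ⟨hkT, hk.symm⟩ hiT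
            · intro h; simp at h
          rw [this, Finset.sum_empty, hD]
          simp only [if_neg hiT]
          exact le_rfl
      linarith
    have e3 : ∑ i ∈ Finset.range n, D i ≤ 9 * C + 1 := by
      set I := (Finset.range n).filter (fun i => i ∈ T ∧ w i = v i) with hI
      have hDI : ∑ i ∈ Finset.range n, D i = ∑ i ∈ I, pr (h i).1 (x i) := by
        rw [hI, Finset.sum_filter]
      rw [hDI]
      rcases I.eq_empty_or_nonempty with hIe | hIn
      · rw [hIe, Finset.sum_empty]; linarith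
      · set m := I.max' hIn with hm
        have hmI : m ∈ I := Finset.max'_mem _ _
        rw [← Finset.add_sum_erase _ _ hmI]
        have hmn : m < n := Finset.mem_range.1 (Finset.mem_filter.1 hmI).1
        have hmT := (Finset.mem_filter.1 hmI).2.1
        have hmv := (Finset.mem_filter.1 hmI).2.2
        have t1 : pr (h m).1 (x m) ≤ 9 * C := (hR.rv m (hT m hmT)).nb _ _ (hG m hmn)
        have t2 : ∑ i ∈ I.erase m, pr (h i).1 (x i) ≤ 1 := by
          calc ∑ i ∈ I.erase m, pr (h i).1 (x i) ≤ ∑ i ∈ I.erase m, 1 / (nn j : ℝ) :=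
                Finset.sum_le_sum fun i hi => by
                  have hiI := Finset.mem_of_mem_erase hi
                  have hne := Finset.ne_of_mem_erase hi
                  have hle : i ≤ m := Finset.le_max' _ _ hiI
                  have hlt : i < m := lt_of_le_of_ne hle hne
                  rw [(heq m hmn m hmv).2 i hlt]
                  exact hsm i (hT i (Finset.mem_filter.1 hiI).2.1)
            _ = ((I.erase m).card : ℝ) * (1 / (nn j : ℝ)) := by
                rw [Finset.sum_const, nsmul_eq_mul]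
            _ ≤ (nn j : ℝ) * (1 / (nn j : ℝ)) := by
                gcongr
                calc (I.erase m).card ≤ (Finset.range n).card :=
                      Finset.card_le_card ((Finset.erase_subset _ _).trans
                        (Finset.filter_subset _ _))
                  _ = n := Finset.card_range _
                  _ ≤ nn j := hn
            _ = 1 := by field_simp
        linarith
    calc ∑ k ∈ T, pr g.1 (x k) ≤ ∑ k ∈ T, β j * ∑ i ∈ Finset.range n, pr (h i).1 (x k) :=
          Finset.sum_le_sum e1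
      _ = β j * ∑ i ∈ Finset.range n, ∑ k ∈ T, pr (h i).1 (x k) := by
          rw [← Finset.mul_sum, Finset.sum_comm]
      _ ≤ β j * ∑ i ∈ Finset.range n, (13 * C / nn j + D i) := by
          refine mul_le_mul_of_nonneg_left (Finset.sum_le_sum fun i hi => ?_) hβ
          exact e2 i (Finset.mem_range.1 hi)
      _ = β j * ((n : ℝ) * (13 * C / nn j) + ∑ i ∈ Finset.range n, D i) := by
          rw [Finset.sum_add_distrib, Finset.sum_const, Finset.card_range, nsmul_eq_mul]
      _ ≤ β j * ((nn j : ℝ) * (13 * C / nn j) + (9 * C + 1)) := by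
          have hn' : (n : ℝ) ≤ nn j := by exact_mod_cast hn
          gcongr
      _ = β j * (22 * C + 1) := by field_simp; ring
      _ ≤ 1 * (22 * C + 1) := by gcongr
      _ ≤ 23 * C := by linarith

/-- The main contradiction. -/
theorem Hyp.contra (H : Hyp K δ d p q A Y Z) : False := by
  have hK := H.hK
  set C := 2 * K + 2 with hC
  have hC1 : 1 ≤ C := by linarith
  obtain ⟨m, hm⟩ := exists_nat_gt (72 * K * (23 * C))
  set j := 2 * m + 1 with hj
  have hjo : Odd j := ⟨m, rfl⟩
  have hjr : 72 * K * (23 * C) < (j : ℝ) := by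
    have : (m : ℝ) ≤ j := by exact_mod_cast (by omega : m ≤ j)
    linarith
  obtain ⟨f, hf, hfq, hfL, hfb⟩ := H.dep j
  have hn0 : (0 : ℝ) < nn j := by exact_mod_cast nn_pos j
  have hβ := β_pos j
  set v : ℕ → ℕ := fun k => wgt j (f k).L with hv
  set Q : ℕ → ℕ := fun k => (f k).q with hQ
  have hvQ : ∀ k, v k ≤ Q k := fun k => (hf k).rvY.rx.pq
  have hsep : ∀ k l, k < l → Q k + 0 < v l := sep_of_step hvQ (fun k => hfq k)
  have hRY : RSeq (9 * C) (nn j) v Q (fun k => ev Y (f k).u) :=
    ⟨fun k _ => (hf k).rvY, fun k l hkl _ => hsep k l hkl⟩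
  have hRZ : RSeq (9 * C) (nn j) v Q (fun k => ev Z (f k).u) :=
    ⟨fun k _ => (hf k).rvZ, fun k l hkl _ => hsep k l hkl⟩
  have hvl : ∀ k, v k = wgt j ((List.range k).map fun l => ((f l).φ, (f l).c)) := by
    intro k
    rw [hv]
    simp only
    rw [hfL k]
  -- upper estimate for the second components
  have hup := hRZ.upper' (by linarith) (S := Finset.range (nn j))
    (fun k hk => Finset.mem_range.1 hk) (C1 := 23 * C) (by linarith) (j := j) (by omega)
    (by rw [Finset.card_range]) (by
      intro S' hS' g hg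
      exact special_act hC1 hjo hRZ (fun k _ => (hf k).hiZ) (φ := fun l => (f l).φ)
        (c := fun l => (f l).c) hvl (fun k _ => (hf k).smZ)
        (fun k hk => Finset.mem_range.1 (hS' hk)) hg)
  set U : ℕ →₀ ℝ := ∑ k ∈ Finset.range (nn j), (f k).u with hU
  have hU0 : 0 ≤ U := Finset.sum_nonneg fun k _ => (hf k).nn
  have hprU : ∀ (X : ℕ → ℝ → ℝ), (∀ k, BM (X k)) → ∀ w g, GG w g →
      pr g.1 (ev X U) = ∑ k ∈ Finset.range (nn j), pr g.1 (ev X (f k).u) := by
    intro X hX w g hg
    have h1 := pr_smul_sum hg hX 1 (nn j) (fun k => (f k).u) (fun r _ => (hf r).nn)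
    rw [one_smul, one_mul] at h1
    exact h1
  have hNZ : NB (ev Z U) (9 * (23 * C) * β j ^ 2 * (nn j : ℝ)) := by
    intro w g hg
    rw [hprU Z H.bmZ w g hg]
    exact hup w g hg
  have hNY := H.domY U hU0 _ hNZ
  -- the special functional
  have hab : ∀ k, (f k).a ≤ (f k).b := fun k => (hf k).rr.ab
  have hsepab : ∀ k l, k < l → (f k).b + 0 < (f l).a := sep_of_step hab (fun k => hfb k)
  have hbm : ∀ i < nn j, BM ((f i).φ).1 := fun i _ => (hf i).gg.bm
  have hψ : GG j (nodeSt j (nn j) (fun k => (f k).φ)) := by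
    refine GG.node j (nn j) (fun k => (f k).φ) v (fun k => (f k).a) (fun k => (f k).b)
      (fun k => (f k).c) _ (by omega) le_rfl (fun i _ => (hf i).gg) (fun i _ => (hf i).rr)
      (fun i l hil _ => hsepab i l hil) (fun _ i _ => hvl i) (fun t => ?_) (fun t => le_rfl)
    exact mul_nonneg hβ.le (Finset.sum_nonneg fun i hi => (hbm i (Finset.mem_range.1 hi)).nn t)
  have h1 := hNY _ _ hψ
  rw [hprU Y H.bmY _ _ hψ] at h1
  have h2 : (nn j : ℝ) * (β j * (1 / 8)) ≤
      ∑ k ∈ Finset.range (nn j), pr (nodeSt j (nn j) (fun k => (f k).φ)).1 (ev Y (f k).u) := by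
    calc (nn j : ℝ) * (β j * (1 / 8)) = ∑ k ∈ Finset.range (nn j), β j * (1 / 8) := by
          rw [Finset.sum_const, Finset.card_range, nsmul_eq_mul]
      _ ≤ _ := by
          refine Finset.sum_le_sum fun k hk => ?_
          refine le_trans ?_ (nodeSt_pr_ge hbm (ev_bm H.bmY (hf k).nn) (Finset.mem_range.1 hk))
          have := (hf k).lowY
          gcongr
  have h3 : β j * (j : ℝ) ≤ 1 := β_lt_inv j
  have h4 : β j * (72 * K * (23 * C)) < 1 := lt_of_lt_of_le (mul_lt_mul_of_pos_left hjr hβ) h3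
  have h5 : 0 < (nn j : ℝ) * β j := by positivity
  nlinarith [mul_lt_mul_of_pos_left h4 h5]

end Pool.Agent.H13.BL
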