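import Pool.Agent.H13.BL.Complete

/-! Absolute continuity and small pairings. -/

set_option autoImplicit false

namespace Pool.Agent.H13.BL

open MeasureTheory Set Filter Topology

noncomputable section

lemma GG.bm_trunc {w : ℕ} {g : St} (h : GG w g) (c : ℕ) : BM (fun t => max (g.1 t - 2 ^ c) 0) := by
  refine h.bm.of_le ((h.bm.meas.sub_const _).max measurable_const)
    (fun t => le_max_right _ _) (fun t => max_le ?_ (h.nn t))
  have : (0 : ℝ) < 2 ^ c := by positivity
  linarith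

lemma GG.trunc_le {w : ℕ} {g : St} (h : GG w g) (c : ℕ) (t : ℝ) :
    max (g.1 t - 2 ^ c) 0 ≤ g.1 t := by
  refine max_le ?_ (h.nn t)
  have : (0 : ℝ) < 2 ^ c := by positivity
  linarith

lemma integral_ind {B : Set ℝ} (hB : MeasurableSet B) (M : ℝ) :
    ∫ t, M * indicator B 1 t ∂mu = M * mu.real B := by
  rw [integral_const_mul]
  congr 1
  rw [integral_indicator hB]
  simp

/-- The norm of indicators. -/
lemma nb_ind {B : Set ℝ} (hB : MeasurableSet B) (c : ℕ) :
    NB (indicator B 1) ((1 / 2) ^ c + 2 ^ c * mu.real B) := by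
  intro w g hg
  have h1 : pr g.1 (indicator B 1) ≤
      ∫ t, (max (g.1 t - 2 ^ c) 0 + 2 ^ c * indicator B 1 t) ∂mu := by
    refine integral_mono (hg.bm.mul (bm_ind hB)).integrable
      ((hg.bm_trunc c).integrable.add ((bm_ind hB).integrable.const_mul _)) fun t => ?_
    show g.1 t * indicator B 1 t ≤ max (g.1 t - 2 ^ c) 0 + 2 ^ c * indicator B 1 t
    have e1 := le_max_left (g.1 t - 2 ^ c) 0
    have e2 := le_max_right (g.1 t - 2 ^ c) 0
    by_cases h : t ∈ B
    · simp only [indicator_of_mem h, Pi.one_apply, mul_one]; linarith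
    · simp only [indicator_of_notMem h, mul_zero, add_zero]; exact e2
  rw [integral_add (hg.bm_trunc c).integrable ((bm_ind hB).integrable.const_mul _),
    integral_ind hB] at h1
  have h2 := hg.trunc c
  linarith

/-- Absolute continuity of the norm. -/
lemma abs_cont {X : ℝ → ℝ} (hm : Measurable X) (h0 : ∀ t, 0 ≤ X t) (hi : Integrable X mu)
    {C : ℝ} (hC : NB X C) {ε : ℝ} (hε : 0 < ε) :
    ∃ η > 0, ∀ B : Set ℝ, MeasurableSet B → mu.real B ≤ η →
      NB (fun t => indicator B 1 t * X t) ε := by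
  obtain ⟨M, hM⟩ := order_cont hm h0 hi hC (half_pos hε)
  obtain ⟨c, hc⟩ := exists_pow_lt_of_lt_one (show (0 : ℝ) < ε / (4 * (M + 1)) by positivity)
    (by norm_num : (1 / 2 : ℝ) < 1)
  refine ⟨ε / (4 * (M + 1)) / 2 ^ c, by positivity, fun B hB hμ w g hg => ?_⟩
  have hms : MeasurableSet {t | (M : ℝ) < X t} := measurableSet_lt measurable_const hm
  have hXM : Integrable (fun t => indicator {t | (M : ℝ) < X t} X t) mu := hi.indicator hms
  have hXB : Integrable (fun t => (M : ℝ) * indicator B 1 t) mu :=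
    (bm_ind hB).integrable.const_mul _
  have h1 : pr g.1 (fun t => indicator B 1 t * X t) ≤
      pr g.1 (fun t => indicator {t | (M : ℝ) < X t} X t + (M : ℝ) * indicator B 1 t) := by
    refine pr_mono_ae hg.bm ((bm_ind hB).mul_int hi) (hXM.add hXB)
      (Eventually.of_forall fun t => ?_)
    show indicator B 1 t * X t ≤ indicator {t | (M : ℝ) < X t} X t + (M : ℝ) * indicator B 1 t
    have hMn : (0 : ℝ) ≤ M := Nat.cast_nonneg _
    by_cases hB' : t ∈ B
    · simp only [indicator_of_mem hB', Pi.one_apply, one_mul, mul_one]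
      by_cases h : t ∈ {t | (M : ℝ) < X t}
      · rw [indicator_of_mem h]; linarith
      · rw [indicator_of_notMem h]
        have : ¬ (M : ℝ) < X t := h
        linarith
    · simp only [indicator_of_notMem hB', zero_mul, mul_zero, add_zero]
      by_cases h : t ∈ {t | (M : ℝ) < X t}
      · rw [indicator_of_mem h]; exact h0 t
      · rw [indicator_of_notMem h]
  rw [pr_add' hg.bm hXM hXB, pr_const_mul_right] at h1
  have h2 := hM w g hg
  have h3 := nb_ind hB c w g hg
  have h4 : (M : ℝ) * pr g.1 (indicator B 1) ≤ ε / 2 := by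
    calc (M : ℝ) * pr g.1 (indicator B 1) ≤ (M + 1) * ((1 / 2) ^ c + 2 ^ c * mu.real B) := by
          have : (0 : ℝ) ≤ pr g.1 (indicator B 1) := pr_nonneg hg.bm (bm_ind hB)
          gcongr
          linarith
      _ ≤ (M + 1) * (ε / (4 * (M + 1)) + 2 ^ c * (ε / (4 * (M + 1)) / 2 ^ c)) := by
          gcongr
      _ = ε / 2 := by field_simp; ring
  linarith

/-- pairing with one -/
lemma NB.integral_le {X : ℝ → ℝ} {C : ℝ} (h : NB X C) : ∫ t, X t ∂mu ≤ C := by
  have h1 := h _ _ GG.one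
  have h2 : pr (fun _ => (1 : ℝ)) X = ∫ t, X t ∂mu := by unfold pr; simp
  rw [← h2]; exact h1

/-- The integral over small sets. -/
lemma small_set {X : ℝ → ℝ} (hm : Measurable X) (h0 : ∀ t, 0 ≤ X t) (hi : Integrable X mu)
    {C : ℝ} (hC : NB X C) (a : ℕ) {A : Set ℝ} (hA : MeasurableSet A)
    (hμ : mu.real A < (1 / 4) ^ a) : ∫ t, indicator A 1 t * X t ∂mu ≤ (1 / 2) ^ a * C := by
  refine le_of_forall_pos_le_add fun ε hε => ?_
  obtain ⟨η, hη, hη'⟩ := abs_cont hm h0 hi hC hε
  obtain ⟨B, hBst, hBm, hBA, hAB⟩ := exists_stset hA (ε := min η ((1 / 4) ^ a - mu.real A))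
    (lt_min hη (by linarith))
  have h1 : mu.real B ≤ (1 / 4) ^ a := by
    have e1 : B ⊆ A ∪ (B \ A) := fun t ht => by
      by_cases h : t ∈ A
      · exact Or.inl h
      · exact Or.inr ⟨ht, h⟩
    have e2 : mu.real B ≤ mu.real A + mu.real (B \ A) :=
      (measureReal_mono e1 (measure_ne_top _ _)).trans (measureReal_union_le _ _)
    have e3 := hBA.le.trans (min_le_right _ _)
    linarith
  -- the functional
  have hst : IsSt (fun t => (2 : ℝ) ^ a * indicator B 1 t) := by
    have h1 : IsSt (fun _ : ℝ => (2 : ℝ) ^ a) := by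
      have := IsSt.const (2 ^ a); push_cast at this; exact this
    exact h1.mul hBst
  have hG : GG 0 ⟨_, hst⟩ := by
    refine GG.base a _ (fun t => ?_) (fun t => ?_) ?_
    · exact mul_nonneg (by positivity) ((bm_ind hBm).nn t)
    · show (2 : ℝ) ^ a * indicator B 1 t ≤ 2 ^ a
      have := ind_le_one B t
      have h2 : (0 : ℝ) < 2 ^ a := by positivity
      nlinarith
    · refine le_trans (measureReal_mono ?_ (measure_ne_top _ _)) h1
      intro t ht
      by_contra h
      apply ht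
      show (2 : ℝ) ^ a * indicator B 1 t = 0
      rw [indicator_of_notMem h, mul_zero]
  have h2 := hC _ _ hG
  have h3 : pr (fun t => (2 : ℝ) ^ a * indicator B 1 t) X =
      2 ^ a * ∫ t, indicator B 1 t * X t ∂mu := pr_const_mul_left _
  have h2' : 2 ^ a * ∫ t, indicator B 1 t * X t ∂mu ≤ C := by rw [← h3]; exact h2
  have h4 : ∫ t, indicator B 1 t * X t ∂mu ≤ (1 / 2) ^ a * C := by
    calc ∫ t, indicator B 1 t * X t ∂mu =
        (1 / 2) ^ a * (2 ^ a * ∫ t, indicator B 1 t * X t ∂mu) := by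
          rw [← mul_assoc, ← mul_pow]; norm_num
      _ ≤ _ := by gcongr
  have h5 := (hη' (A \ B) (hA.diff hBm) (hAB.le.trans (min_le_left _ _))).integral_le
  have h6 : ∫ t, indicator A 1 t * X t ∂mu ≤
      ∫ t, (indicator B 1 t * X t + indicator (A \ B) 1 t * X t) ∂mu := by
    refine integral_mono ((bm_ind hA).mul_int hi)
      (((bm_ind hBm).mul_int hi).add ((bm_ind (hA.diff hBm)).mul_int hi)) fun t => ?_
    show indicator A 1 t * X t ≤ indicator B 1 t * X t + indicator (A \ B) 1 t * X t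
    have h0t := h0 t
    by_cases hA' : t ∈ A <;> by_cases hB' : t ∈ B <;> simp [hA', hB', h0t]
  rw [integral_add ((bm_ind hBm).mul_int hi) ((bm_ind (hA.diff hBm)).mul_int hi)] at h6
  linarith

lemma norm_sq_v (y : E) : ∫ t, sqf y.v t ∂mu = ‖y.v‖ ^ 2 := (norm_sq_L2 y.v).symm

/-- bounded parts act badly on vectors which are small in mean -/
lemma small_pair_bdd {R ε D : ℝ} (hR : 0 ≤ R) (hε : 0 < ε) (hD : 0 ≤ D) :
    ∃ η > 0, ∀ y : E, ‖y‖ ≤ R → ‖y.v‖ ≤ η → ∀ w g, GG w g →
      D * pr g.1 (fun t => |y.v t|) ≤ ε := by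
  set l : ℝ := ε / (4 * (D + 1) * (R ^ 2 + 1)) with hl
  have hl0 : 0 < l := by positivity
  obtain ⟨c, hc⟩ := exists_pow_lt_of_lt_one (show (0 : ℝ) < ε * l / (D + 1) by positivity)
    (by norm_num : (1 / 2 : ℝ) < 1)
  refine ⟨ε / (8 * (D + 1) * 2 ^ c), by positivity, fun y hy hyv w g hg => ?_⟩
  set η := ε / (8 * (D + 1) * 2 ^ c) with hη
  have hη0 : 0 < η := by positivity
  have hyi : Integrable (fun t => |y.v t|) mu := by
    have := int_sq y.v
    exact ((Lp.memLp y.v).integrable (by norm_num)).abs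
  have hsq := sqf_int y.v
  -- pointwise estimate
  have hpt : ∀ t, g.1 t * |y.v t| ≤ (2 ^ c / η) * sqf y.v t + (2 ^ c * η / 4) +
      (l * (g.1 t * sqf y.v t) + (1 / (4 * l)) * max (g.1 t - 2 ^ c) 0) := by
    intro t
    have a0 := abs_nonneg (y.v t)
    have a1 : sqf y.v t = |y.v t| ^ 2 := by unfold sqf; rw [sq_abs]
    have b0 := le_max_right (g.1 t - 2 ^ c) 0
    have b1 := le_max_left (g.1 t - 2 ^ c) 0
    have b2 := hg.trunc_le c t
    set a := |y.v t| with ha
    set T := max (g.1 t - 2 ^ c) 0 with hT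
    have c1 : 2 ^ c * a ≤ (2 ^ c / η) * a ^ 2 + (2 ^ c * η / 4) := by
      have e1 : (2 ^ c / η) * a ^ 2 + (2 ^ c * η / 4) - 2 ^ c * a =
          (2 ^ c / η) * (a - η / 2) ^ 2 := by field_simp; ring
      have e2 : 0 ≤ (2 ^ c / η) * (a - η / 2) ^ 2 := by positivity
      linarith
    have c2 : T * a ≤ l * (T * a ^ 2) + (1 / (4 * l)) * T := by
      have e1 : l * (T * a ^ 2) + (1 / (4 * l)) * T - T * a = T * (l * (a - 1 / (2 * l)) ^ 2) := by
        field_simp; ring
      have e2 : 0 ≤ T * (l * (a - 1 / (2 * l)) ^ 2) := by positivity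
      linarith
    have c3 : l * (T * a ^ 2) ≤ l * (g.1 t * a ^ 2) := by gcongr
    have c4 : g.1 t * a ≤ (2 ^ c + T) * a := by
      gcongr; linarith
    rw [a1]
    nlinarith
  have hI1 : Integrable (fun t => (2 ^ c / η) * sqf y.v t + (2 ^ c * η / 4)) mu :=
    (hsq.const_mul _).add (integrable_const _)
  have hI2 : Integrable (fun t => l * (g.1 t * sqf y.v t) +
      (1 / (4 * l)) * max (g.1 t - 2 ^ c) 0) mu :=
    ((hg.bm.mul_int hsq).const_mul _).add ((hg.bm_trunc c).integrable.const_mul _)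
  have h1 : pr g.1 (fun t => |y.v t|) ≤ ∫ t, ((2 ^ c / η) * sqf y.v t + (2 ^ c * η / 4) +
      (l * (g.1 t * sqf y.v t) + (1 / (4 * l)) * max (g.1 t - 2 ^ c) 0)) ∂mu :=
    integral_mono (hg.bm.mul_int hyi) (hI1.add hI2) hpt
  rw [integral_add hI1 hI2, integral_add (hsq.const_mul _) (integrable_const _),
    integral_add ((hg.bm.mul_int hsq).const_mul _) ((hg.bm_trunc c).integrable.const_mul _),
    integral_const_mul, integral_const_mul, integral_const_mul, norm_sq_v, integral_const] at h1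
  rw [probReal_univ, one_smul] at h1
  have h2 : ∫ t, g.1 t * sqf y.v t ∂mu ≤ R ^ 2 :=
    (E.nb y w g hg).trans (by have := norm_nonneg y; gcongr)
  have h3 := hg.trunc c
  have h4 : (2 ^ c / η) * ‖y.v‖ ^ 2 ≤ 2 ^ c * η := by
    calc (2 ^ c / η) * ‖y.v‖ ^ 2 ≤ (2 ^ c / η) * η ^ 2 := by gcongr
      _ = 2 ^ c * η := by field_simp
  have h5 : l * ∫ t, g.1 t * sqf y.v t ∂mu ≤ l * R ^ 2 := by gcongr
  have h6 : (1 / (4 * l)) * ∫ t, max (g.1 t - 2 ^ c) 0 ∂mu ≤ (1 / (4 * l)) * (ε * l / (D + 1)) := by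
    gcongr
    exact h3.trans hc.le
  have h7 : pr g.1 (fun t => |y.v t|) ≤ 2 * (2 ^ c * η) + (l * R ^ 2 +
      (1 / (4 * l)) * (ε * l / (D + 1))) := by
    have : 0 < 2 ^ c * η := by positivity
    linarith
  have e1 : (D + 1) * (2 * (2 ^ c * η)) = ε / 4 := by rw [hη]; field_simp; norm_num
  have e2 : (D + 1) * (l * R ^ 2) ≤ ε / 4 := by
    calc (D + 1) * (l * R ^ 2) ≤ (D + 1) * (l * (R ^ 2 + 1)) := by gcongr; linarith
      _ = ε / 4 := by rw [hl]; field_simp
  have e3 : (D + 1) * ((1 / (4 * l)) * (ε * l / (D + 1))) = ε / 4 := by field_simp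
  have h8 : 0 ≤ pr g.1 (fun t => |y.v t|) :=
    integral_nonneg fun t => mul_nonneg (hg.nn t) (abs_nonneg _)
  calc D * pr g.1 (fun t => |y.v t|) ≤ (D + 1) * pr g.1 (fun t => |y.v t|) := by
        gcongr; linarith
    _ ≤ (D + 1) * (2 * (2 ^ c * η) + (l * R ^ 2 + (1 / (4 * l)) * (ε * l / (D + 1)))) := by gcongr
    _ = (D + 1) * (2 * (2 ^ c * η)) + ((D + 1) * (l * R ^ 2) +
          (D + 1) * ((1 / (4 * l)) * (ε * l / (D + 1)))) := by ring
    _ ≤ ε := by rw [e1, e3]; linarith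

/-- Vectors which are small in mean pair badly with a fixed vector. -/
lemma small_pair (s : E) {R ε : ℝ} (hR : 0 ≤ R) (hε : 0 < ε) :
    ∃ η > 0, ∀ y : E, ‖y‖ ≤ R → ‖y.v‖ ≤ η → ∀ w g, GG w g →
      pr g.1 (fun t => s.v t * y.v t) ≤ ε := by
  have hm : Measurable (sqf s.v) := (meas2 s.v).pow_const 2
  obtain ⟨M, hM⟩ := order_cont hm (sqf_nn s.v) (sqf_int s.v) (E.nb s)
    (show 0 < (ε / (2 * (R + 1))) ^ 2 by positivity)
  obtain ⟨η, hη, hη'⟩ := small_pair_bdd (D := M + 1) hR (half_pos hε) (by positivity)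
  refine ⟨η, hη, fun y hy hyv w g hg => ?_⟩
  set B := {t | (M : ℝ) < sqf s.v t} with hB
  have hBm : MeasurableSet B := measurableSet_lt measurable_const hm
  have hres : ‖res B hBm s‖ ≤ ε / (2 * (R + 1)) := by
    refine E.norm_le (by positivity) ?_
    refine NB.congr ?_ hM
    filter_upwards [sqf_res hBm s] with t ht
    rw [ht]
    by_cases h : t ∈ B <;> simp [h]
  have h1 := (abs_le.1 (E.pr_mul_le (res B hBm s) y hg)).2
  have h2 := hη' y hy hyv w g hg
  have hyi : Integrable (fun t => |y.v t|) mu :=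
    ((Lp.memLp y.v).integrable (by norm_num)).abs
  have hI : Integrable (fun t => ((M : ℝ) + 1) * |y.v t|) mu := hyi.const_mul _
  have h3 : pr g.1 (fun t => s.v t * y.v t) ≤
      pr g.1 (fun t => (res B hBm s).v t * y.v t + ((M : ℝ) + 1) * |y.v t|) := by
    refine pr_mono_ae hg.bm (int_mul _ _) ((int_mul _ _).add hI) ?_
    filter_upwards [res_ae hBm s] with t ht
    show s.v t * y.v t ≤ (res B hBm s).v t * y.v t + ((M : ℝ) + 1) * |y.v t|
    rw [ht]
    by_cases h : t ∈ B
    · simp only [indicator_of_mem h, Pi.one_apply, one_mul]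
      have := abs_nonneg (y.v t)
      have : (0 : ℝ) ≤ M := Nat.cast_nonneg _
      nlinarith
    · simp only [indicator_of_notMem h, zero_mul, zero_add]
      have h4 : sqf s.v t ≤ M := not_lt.1 h
      have h5 : |s.v t| ≤ (M : ℝ) + 1 := by
        unfold sqf at h4
        have : (0 : ℝ) ≤ M := Nat.cast_nonneg _
        apply abs_le_of_sq_le_sq _ (by positivity)
        nlinarith
      calc s.v t * y.v t ≤ |s.v t * y.v t| := le_abs_self _
        _ = |s.v t| * |y.v t| := abs_mul _ _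
        _ ≤ _ := by gcongr
  rw [pr_add' hg.bm (int_mul _ _) hI, pr_const_mul_right] at h3
  have h6 : ‖res B hBm s‖ * ‖y‖ ≤ ε / 2 := by
    calc ‖res B hBm s‖ * ‖y‖ ≤ ε / (2 * (R + 1)) * (R + 1) := by
          have := norm_nonneg y
          gcongr
          linarith
      _ = ε / 2 := by field_simp
  linarith

end

end Pool.Agent.H13.BL
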