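import Pool.Agent.H13.BL.Blocks

/-! Existence of averages and exact vectors. -/

set_option autoImplicit false

namespace Pool.Agent.H13.BL

open MeasureTheory Set

variable {K δ : ℝ} {d : ℕ} {p q : ℕ → ℕ} {A : Set ℝ} {Y Z : ℕ → ℝ → ℝ}

lemma sep_of_step {p q : ℕ → ℕ} {c : ℕ} (hpq : ∀ k, p k ≤ q k) (h : ∀ k, q k + c < p (k + 1)) :
    ∀ k l, k < l → q k + c < p l := by
  intro k l hkl
  induction l with
  | zero => omega
  | succ l ih =>
    rcases Nat.lt_or_ge k l with h' | h'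
    · have := ih h'; have := h l; have := hpq l; omega
    · have : k = l := by omega
      subst this; exact h k

lemma pow_le_nn (l d j : ℕ) (hl : 1 ≤ l) (hj : l ^ (d + 1) ≤ j) :
    l ^ (2 ^ (j + 2) + d) ≤ nn (j + 1) := by
  rw [nn]
  have h1 : l ^ (d + 1) ≤ nn j + 1 := by have := le_nn j; omega
  set T := 2 ^ (j + 2) with hT
  calc l ^ (T + d) ≤ l ^ ((d + 1) * (T + 1)) := Nat.pow_le_pow_right hl (by nlinarith)
    _ = (l ^ (d + 1)) ^ (T + 1) := by rw [pow_mul]
    _ ≤ (nn j + 1) ^ (T + 1) := Nat.pow_le_pow_left h1 _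
    _ ≤ mm (j + 1) ^ 2 * (nn j + 1) ^ (T + 1) :=
      Nat.le_mul_of_pos_left _ (by have := mm_pos (j + 1); positivity)

lemma two_pow_mul_beta (j : ℕ) : (2 : ℝ) ^ (2 ^ (j + 1)) * β j = 1 := by
  unfold β mm
  have h : (4 : ℝ) ^ (2 ^ j) = 2 ^ (2 ^ (j + 1)) := by
    rw [show (4 : ℝ) = 2 ^ 2 by norm_num, ← pow_mul, pow_succ, mul_comm]
  push_cast
  rw [h]
  exact mul_inv_cancel₀ (by positivity)

/-- the levels in the construction of averages -/
noncomputable def lev (l k0 : ℕ) : ℕ → ℕ → ℕ →₀ ℝ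
  | 0 => fun i => Finsupp.single (k0 + i) 1
  | (s + 1) => avU l (lev l k0 s)

lemma Hyp.le_p (H : Hyp K δ d p q A Y Z) (k : ℕ) : k ≤ p k := by
  induction k with
  | zero => exact Nat.zero_le _
  | succ k ih =>
    have := H.sep k (k + 1) (Nat.lt_succ_self k)
    have := (H.rxY k).pq
    omega

lemma Hyp.bmY (H : Hyp K δ d p q A Y Z) (k : ℕ) : BM (Y k) := (H.rxY k).bm
lemma Hyp.bmZ (H : Hyp K δ d p q A Y Z) (k : ℕ) : BM (Z k) := (H.rxZ k).bm

lemma pr_smul_sum {g : St} {w : ℕ} (hg : GG w g) (hY : ∀ k, BM (Y k)) (c : ℝ) (l : ℕ)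
    (u : ℕ → ℕ →₀ ℝ) (hu : ∀ r < l, 0 ≤ u r) :
    pr g.1 (ev Y (c • ∑ r ∈ Finset.range l, u r)) =
      c * ∑ r ∈ Finset.range l, pr g.1 (ev Y (u r)) := by
  rw [ev_smul_sum, pr_const_mul_right,
    pr_sum_right _ _ (fun r hr => ev_bm hY (hu r (Finset.mem_range.1 hr))) hg.bm]

/-- The main step in the existence of averages. -/
lemma Hyp.exists_blk (H : Hyp K δ d p q A Y Z) (p0 l : ℕ) (hl : 4 ≤ l) :
    ∃ P Q u, Blk p0 Y Z P Q u ∧ (∀ i, NB (ev Y (u i)) 1) ∧ ∃ w g, GG w g ∧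
      1 / 2 < pr g.1 (ev Y ((1 / l : ℝ) • ∑ r ∈ Finset.range l, u r)) := by
  by_contra hcon
  push Not at hcon
  have hl0 : (4 : ℝ) ≤ l := by exact_mod_cast hl
  have hlev : ∀ s, ∃ P Q, Blk p0 Y Z P Q (lev l p0 s) ∧ ∀ i, NB (ev Y (lev l p0 s i)) 1 := by
    intro s
    induction s with
    | zero =>
      refine ⟨fun i => p (p0 + i), fun i => q (p0 + i), ⟨fun i => ?_, fun i => ?_, fun i => ?_,
        fun k l' hkl => ?_, fun i => ?_⟩, fun i => ?_⟩
      · show 0 ≤ Finsupp.single (p0 + i) (1 : ℝ)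
        simp
      · show RX _ _ (ev Y (Finsupp.single (p0 + i) 1))
        rw [ev_single]; exact H.rxY _
      · show RX _ _ (ev Z (Finsupp.single (p0 + i) 1))
        rw [ev_single]; exact H.rxZ _
      · have := H.sep (p0 + k) (p0 + l') (by omega)
        show q (p0 + k) < p (p0 + l')
        omega
      · exact le_trans (Nat.le_add_right _ _) (H.le_p _)
      · show NB (ev Y (Finsupp.single (p0 + i) 1)) 1
        rw [ev_single]; exact H.nbY _
    | succ s ih =>
      obtain ⟨P, Q, hB, hN⟩ := ih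
      refine ⟨_, _, hB.av hl, fun i w g hg => ?_⟩
      have h1 := hcon _ _ _ (hB.shift (i * l)) (fun r => hN _) w g hg
      rw [pr_smul_sum hg H.bmY _ _ _ (fun r _ => hB.nn _)] at h1
      show pr g.1 (ev Y (avU l (lev l p0 s) i)) ≤ 1
      unfold avU
      rw [pr_smul_sum hg H.bmY _ _ _ (fun r _ => hB.nn _)]
      have h2 : (2 / l : ℝ) = 2 * (1 / l) := by ring
      rw [h2, mul_assoc]
      linarith
  set j' := 2 * l ^ (d + 1) + 1 with hj'
  set j := j' + 1 with hj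
  set t := 2 ^ (j' + 2) + d with ht
  have hnj : l ^ t ≤ nn j := pow_le_nn l d j' (by omega) (by omega)
  have hn1 : 1 ≤ l ^ t := Nat.one_le_pow _ _ (by omega)
  have hje : ¬ Odd j := by
    rw [Nat.not_odd_iff_even, hj, hj']
    exact ⟨l ^ (d + 1) + 1, by ring⟩
  obtain ⟨φ, hφ, -, hφY⟩ := norming (j := j) (by omega) hje hnj hn1 (p := fun k => p (p0 + k))
    (q := fun k => q (p0 + k)) (x := fun k => Y (p0 + k)) (d := d) (fun k _ => H.rxY _)
    (fun k l' hkl _ => H.sep _ _ (by omega)) (fun k _ => H.dp _) H.hd (fun k _ => H.low _)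
  have hβ := β_pos j
  have hδ := H.hδ
  have claim : ∀ s i, (i + 1) * l ^ s ≤ l ^ t →
      2 ^ s * (β j * (δ / 2)) ≤ pr φ.1 (ev Y (lev l p0 s i)) := by
    intro s
    induction s with
    | zero =>
      intro i hi
      show _ ≤ pr φ.1 (ev Y (Finsupp.single (p0 + i) 1))
      rw [ev_single, pow_zero, one_mul]
      exact hφY i (by rw [pow_zero, mul_one] at hi; omega)
    | succ s ih =>
      intro i hi
      obtain ⟨P, Q, hB, hN⟩ := hlev s
      show _ ≤ pr φ.1 (ev Y (avU l (lev l p0 s) i))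
      unfold avU
      rw [pr_smul_sum hφ H.bmY _ _ _ (fun r _ => hB.nn _)]
      calc (2 : ℝ) ^ (s + 1) * (β j * (δ / 2)) =
          2 / l * ∑ r ∈ Finset.range l, (2 ^ s * (β j * (δ / 2))) := by
            rw [Finset.sum_const, Finset.card_range, nsmul_eq_mul, pow_succ]
            field_simp
        _ ≤ _ := by
            gcongr with r hr
            refine ih _ (le_trans ?_ hi)
            rw [Finset.mem_range] at hr
            rw [pow_succ]
            calc (i * l + r + 1) * l ^ s ≤ (i * l + l) * l ^ s := by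
                  apply Nat.mul_le_mul_right; omega
              _ = (i + 1) * (l ^ s * l) := by ring
  have h1 := claim t 0 (by simp)
  obtain ⟨P, Q, hB, hN⟩ := hlev t
  have h2 := hN 0 _ _ hφ
  have h3 : (2 : ℝ) ^ t * (β j * (δ / 2)) = 2 ^ d * (δ / 2) := by
    rw [ht, pow_add]
    have := two_pow_mul_beta j
    rw [hj] at this ⊢
    rw [show j' + 1 + 1 = j' + 2 from rfl] at this
    linear_combination (2 ^ d * (δ / 2)) * this
  have h4 : (2 : ℝ) ≤ 2 ^ d * (δ / 2) := by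
    have h5 := H.hd
    have h6 : (2 : ℝ) ^ d * (1 / 2) ^ d = 1 := by rw [← mul_pow]; norm_num
    have h7 : (0 : ℝ) < 2 ^ d := by positivity
    nlinarith
  linarith

/-- Existence of averages. -/
lemma Hyp.avg (H : Hyp K δ d p q A Y Z) (p0 : ℕ) :
    ∃ (z : ℕ →₀ ℝ) (q0 : ℕ), 0 ≤ z ∧ RV (2 * K + 2) p0 q0 (ev Y z) ∧
      RV (2 * K + 2) p0 q0 (ev Z z) ∧ ∃ w g, GG w g ∧ 1 / 2 ≤ pr g.1 (ev Y z) := by
  have hK := H.hK
  set l := nn p0 with hl
  have hl16 : 16 ≤ l := nn_mono (Nat.zero_le p0)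
  obtain ⟨P, Q, u, hB, hN, w, g, hg, hgz⟩ := H.exists_blk p0 l (by omega)
  refine ⟨(1 / l : ℝ) • ∑ r ∈ Finset.range l, u r, Q (l - 1), ?_, ?_, ?_, w, g, hg, hgz.le⟩
  · exact smul_nonneg (by positivity) (Finset.sum_nonneg fun r _ => hB.nn _)
  · rw [ev_smul_sum]
    exact avg_rv (by omega) le_rfl (by linarith) (fun k _ => hB.rxY k)
      (fun k l' hkl _ => hB.sep _ _ hkl) (fun k _ => hB.st k) (fun k _ => (hN k).mono hK)
  · rw [ev_smul_sum]
    refine avg_rv (by omega) le_rfl (by linarith) (fun k _ => hB.rxZ k)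
      (fun k l' hkl _ => hB.sep _ _ hkl) (fun k _ => hB.st k) (fun k _ => ?_)
    have := H.domZ (u k) (hB.nn k) 1 (hN k)
    rwa [mul_one] at this

/-- exact vectors with their functionals -/
structure Ex (C : ℝ) (Y Z : ℕ → ℝ → ℝ) (v : ℕ) (ε : ℝ) (A0 : ℕ) (u : ℕ →₀ ℝ) (φ : St)
    (a b q : ℕ) : Prop where
  nn : 0 ≤ u
  rvY : RV (9 * C) v q (ev Y u)
  rvZ : RV (9 * C) v q (ev Z u)
  hiZ : ∀ w g, GG w g → v < w → pr g.1 (ev Z u) ≤ 3 * C * β v
  gg : GG v φ
  rr : RR a b φ.1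
  ha : A0 ≤ a
  lowY : 1 / 8 ≤ pr φ.1 (ev Y u)
  smZ : pr φ.1 (ev Z u) ≤ ε

/-- scaled sums of rapidly increasing sequences -/
lemma exact_rv {C : ℝ} (hC : 1 ≤ C) {v : ℕ} (hv : 1 ≤ v) {p q : ℕ → ℕ} {x : ℕ → ℝ → ℝ}
    (h : RSeq C (nn v) p q x) (hp : v ≤ p 0) :
    RV (9 * C) v (q (nn v - 1))
      (fun t => ((mm v : ℝ) / nn v) * ∑ r ∈ Finset.range (nn v), x r t) ∧
    ∀ w g, GG w g → v < w →
      pr g.1 (fun t => ((mm v : ℝ) / nn v) * ∑ r ∈ Finset.range (nn v), x r t) ≤ 3 * C * β v := by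
  have hn0 : (0 : ℝ) < nn v := by exact_mod_cast nn_pos v
  have hm0 : (0 : ℝ) < mm v := by exact_mod_cast mm_pos v
  have hn4 : 4 ≤ nn v := by have := nn_mono (Nat.zero_le v); have : nn 0 = 16 := rfl; omega
  have hβ := β_pos v
  have hmn := mm_div_nn_le v
  have hc0 : (0 : ℝ) ≤ (mm v : ℝ) / nn v := by positivity
  have hc : (mm v : ℝ) / nn v ≤ 1 / 2 := hmn.trans ((β_le v).trans (by norm_num))
  have hmβ : (mm v : ℝ) * β v = 1 := by rw [mul_comm]; exact β_mm v
  have hxb : ∀ r ∈ Finset.range (nn v), BM (x r) :=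
    fun r hr => (h.rv r (Finset.mem_range.1 hr)).rx.bm
  have hrx := rx_avg hn4 (fun k hk => (h.rv k hk).rx) h.sep hc0 hc
  have hpr : ∀ w g, GG w g → pr g.1 (fun t => ((mm v : ℝ) / nn v) *
      ∑ r ∈ Finset.range (nn v), x r t) =
      ((mm v : ℝ) / nn v) * ∑ r ∈ Finset.range (nn v), pr g.1 (x r) := by
    intro w g hg
    rw [pr_const_mul_right, pr_sum_right _ _ hxb hg.bm]
  obtain ⟨hu1, hu2⟩ := h.upper hC (S := Finset.range (nn v))
    (fun k hk => Finset.mem_range.1 hk) (j := v) (by omega) (by rw [Finset.card_range])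
  refine ⟨⟨⟨hrx.meas, hrx.nn, hp.trans hrx.pq, hrx.le, hrx.int.trans ?_⟩, ?_, ?_⟩, ?_⟩
  · exact pow_le_pow_of_le_one (by norm_num) (by norm_num) hp
  · intro w g hg
    rw [hpr w g hg]
    calc ((mm v : ℝ) / nn v) * ∑ r ∈ Finset.range (nn v), pr g.1 (x r) ≤
        ((mm v : ℝ) / nn v) * (9 * C * β v * (nn v : ℝ)) := by
          gcongr; exact hu1 w g hg
      _ = 9 * C * (mm v * β v) := by field_simp
      _ = 9 * C := by rw [hmβ, mul_one]
  · intro w g hg hw1 hwv
    rw [hpr w g hg]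
    calc ((mm v : ℝ) / nn v) * ∑ r ∈ Finset.range (nn v), pr g.1 (x r) ≤
        ((mm v : ℝ) / nn v) * (9 * C * β v * β w * (nn v : ℝ)) := by
          gcongr; exact hu2 w g hg hw1 hwv
      _ = 9 * C * (mm v * β v) * β w := by field_simp
      _ = 9 * C * β w := by rw [hmβ, mul_one]
  · intro w g hg hvw
    rw [hpr w g hg]
    have h1 := h.high (by linarith) (S := Finset.range (nn v))
      (fun k hk => Finset.mem_range.1 hk) hg (by omega)
    rw [Finset.card_range] at h1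
    have h2 : β w ≤ β v ^ 2 := by rw [← β_succ]; exact β_anti hvw
    have h3 : mm v * β w ≤ β v := by
      calc mm v * β w ≤ mm v * β v ^ 2 := by gcongr
        _ = (mm v * β v) * β v := by ring
        _ = β v := by rw [hmβ, one_mul]
    calc ((mm v : ℝ) / nn v) * ∑ r ∈ Finset.range (nn v), pr g.1 (x r) ≤
        ((mm v : ℝ) / nn v) * (1 + C + C * β w * (nn v : ℝ)) := by gcongr
      _ = ((mm v : ℝ) / nn v) * (1 + C) + C * (mm v * β w) := by field_simp
      _ ≤ β v * (1 + C) + C * β v := by gcongr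
      _ ≤ 3 * C * β v := by nlinarith

/-- Existence of exact vectors. -/
lemma Hyp.exact (H : Hyp K δ d p q A Y Z) (v : ℕ) (hv : 1 ≤ v) (hve : ¬ Odd v) (ε : ℝ)
    (hε : 0 < ε) (A0 : ℕ) :
    ∃ u φ a b q0, Ex (2 * K + 2) Y Z v ε A0 u φ a b q0 := by
  set C := 2 * K + 2 with hCdef
  have hC : 1 ≤ C := by have := H.hK; rw [hCdef]; linarith
  obtain ⟨z0, q0, hz0, hz0Y, hz0Z, hz0g⟩ := H.avg (max v (A0 + 3))
  obtain ⟨f, hf0, hfg, hfs⟩ := exists_chain (σ := (ℕ →₀ ℝ) × ℕ × ℕ)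
    (fun s => 0 ≤ s.1 ∧ RV C s.2.1 s.2.2 (ev Y s.1) ∧ RV C s.2.1 s.2.2 (ev Z s.1) ∧
      ∃ w g, GG w g ∧ 1 / 2 ≤ pr g.1 (ev Y s.1))
    (fun s s' => s.2.2 + 2 * 3 < s'.2.1) (z0, max v (A0 + 3), q0) ⟨hz0, hz0Y, hz0Z, hz0g⟩ (by
      intro s hs
      obtain ⟨z, q1, hz, hzY, hzZ, hzg⟩ := H.avg (s.2.2 + 2 * 3 + 1)
      exact ⟨(z, s.2.2 + 2 * 3 + 1, q1), ⟨hz, hzY, hzZ, hzg⟩, Nat.lt_succ_self _⟩)
  set z : ℕ → ℕ →₀ ℝ := fun k => (f k).1 with hz
  set P : ℕ → ℕ := fun k => (f k).2.1 with hP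
  set Q : ℕ → ℕ := fun k => (f k).2.2 with hQ
  have hP0 : P 0 = max v (A0 + 3) := by rw [hP]; simp only [hf0]
  have hPQ : ∀ k, P k ≤ Q k := fun k => (hfg k).2.1.rx.pq
  have hsep : ∀ k l, k < l → Q k + 2 * 3 < P l := sep_of_step hPQ hfs
  have hP0le : ∀ k, P 0 ≤ P k := by
    intro k
    rcases Nat.eq_zero_or_pos k with h | h
    · rw [h]
    · have := hsep 0 k h; have := hPQ 0; omega
  have hn1 : 1 ≤ nn v := nn_pos v
  have hRY : RSeq C (nn v) P Q (fun k => ev Y (z k)) :=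
    ⟨fun k _ => (hfg k).2.1, fun k l hkl _ => by have := hsep k l hkl; omega⟩
  have hRZ : RSeq C (nn v) P Q (fun k => ev Z (z k)) :=
    ⟨fun k _ => (hfg k).2.2.1, fun k l hkl _ => by have := hsep k l hkl; omega⟩
  set u : ℕ →₀ ℝ := ((mm v : ℝ) / nn v) • ∑ r ∈ Finset.range (nn v), z r with hu
  have hunn : 0 ≤ u := smul_nonneg (by positivity) (Finset.sum_nonneg fun r _ => (hfg r).1)
  have hvP : v ≤ P 0 := by rw [hP0]; exact le_max_left _ _
  have hYe := exact_rv hC hv hRY hvP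
  have hZe := exact_rv hC hv hRZ hvP
  rw [← ev_smul_sum] at hYe hZe
  -- the functional
  obtain ⟨φ0, hφ0, hφR, hφ0Y⟩ := norming (j := v) hv hve le_rfl hn1 (p := P) (q := Q)
    (x := fun k => ev Y (z k)) (d := 3) (fun k hk => (hRY.rv k hk).rx)
    (fun k l hkl _ => hsep k l hkl)
    (fun k _ => by have := hP0le k; have : A0 + 3 ≤ P 0 := by rw [hP0]; exact le_max_right _ _
                   omega)
    (ε := 1 / 2) (by norm_num) (fun k _ => (hfg k).2.2.2)
  have hφ0u : 1 / 4 ≤ pr φ0.1 (ev Y u) := by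
    rw [hu, pr_smul_sum hφ0 H.bmY _ _ _ (fun r _ => (hfg r).1)]
    calc (1 / 4 : ℝ) = ((mm v : ℝ) / nn v) * ∑ r ∈ Finset.range (nn v), (β v * (1 / 2 / 2)) := by
          rw [Finset.sum_const, Finset.card_range, nsmul_eq_mul]
          have h1 := β_mm v
          have hn0 : (nn v : ℝ) ≠ 0 := by exact_mod_cast (nn_pos v).ne'
          field_simp
          linear_combination (-4) * h1
      _ ≤ _ := by
          gcongr with r hr
          exact hφ0Y r (Finset.mem_range.1 hr)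
  -- restriction
  have hYbm := ev_bm H.bmY hunn
  have hZbm := ev_bm H.bmZ hunn
  have hYoff : ∀ t ∉ A, ev Y u t = 0 := by
    intro t ht
    rw [ev_apply]
    exact Finset.sum_eq_zero fun n _ => by rw [H.Yoff n t ht, mul_zero]
  have hZoff : ∀ t ∈ A, ev Z u t = 0 := by
    intro t ht
    rw [ev_apply]
    exact Finset.sum_eq_zero fun n _ => by rw [H.Zoff n t ht, mul_zero]
  set b := Q (nn v - 1) with hb
  set M : ℝ := 2 ^ (b + 3) * 2 ^ b with hM
  have hM0 : 0 < M := by positivity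
  obtain ⟨B, hBst, hBm, hBA, hAB⟩ := exists_stset H.mA (ε := min ε (1/8) / M) (by positivity)
  set φ : St := ⟨fun t => φ0.1 t * indicator B 1 t, φ0.2.mul hBst⟩ with hφ
  have hind0 : ∀ t, (0 : ℝ) ≤ indicator B 1 t := fun t => by
    by_cases h : t ∈ B <;> simp [h]
  have hind1 : ∀ t, indicator B (1 : ℝ → ℝ) t ≤ 1 := fun t => by
    by_cases h : t ∈ B <;> simp [h]
  have hφle : ∀ t, φ.1 t ≤ φ0.1 t := fun t => by
    show φ0.1 t * indicator B 1 t ≤ φ0.1 t
    calc _ ≤ φ0.1 t * 1 := mul_le_mul_of_nonneg_left (hind1 t) (hφ0.nn t)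
      _ = _ := mul_one _
  have hφnn : ∀ t, 0 ≤ φ.1 t := fun t => mul_nonneg (hφ0.nn t) (hind0 t)
  have hφG : GG v φ := hφ0.solid hφnn hφle
  refine ⟨u, φ, P 0 - 3, b + 3, b, ⟨hunn, hYe.1, hZe.1, hZe.2, hφG, ?_, ?_, ?_, ?_⟩⟩
  · exact ⟨hφR.ab, fun t => (hφle t).trans (hφR.le t),
      (integral_mono hφG.bm.integrable hφ0.bm.integrable hφle).trans hφR.int⟩
  · have : A0 + 3 ≤ P 0 := by rw [hP0]; exact le_max_right _ _
    omega
  · -- lower estimate
    have h1 : pr φ0.1 (ev Y u) ≤ pr φ.1 (ev Y u) + M * mu.real (A \ B) := by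
      have e1 : Integrable (fun t => indicator (A \ B) (fun _ => M) t) mu :=
        (integrable_const _).indicator (H.mA.diff hBm)
      have e2 : ∫ t, indicator (A \ B) (fun _ => M) t ∂mu = M * mu.real (A \ B) := by
        rw [integral_indicator (H.mA.diff hBm), integral_const, smul_eq_mul]
        simp [mul_comm]
      rw [← e2]
      unfold pr
      rw [← integral_add (hφG.bm.mul hYbm).integrable e1]
      refine integral_mono (hφ0.bm.mul hYbm).integrable
        ((hφG.bm.mul hYbm).integrable.add e1) fun t => ?_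
      show φ0.1 t * ev Y u t ≤ φ0.1 t * indicator B 1 t * ev Y u t + indicator (A \ B) (fun _ => M) t
      by_cases hA : t ∈ A
      · by_cases hB : t ∈ B
        · have : t ∉ A \ B := fun h => h.2 hB
          simp [hB, this]
        · have : t ∈ A \ B := ⟨hA, hB⟩
          simp only [indicator_of_notMem hB, mul_zero, zero_mul, zero_add, indicator_of_mem this]
          exact mul_le_mul (hφR.le t) (hYe.1.rx.le t) (hYbm.nn t) (by positivity)
      · rw [hYoff t hA]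
        have : t ∉ A \ B := fun h => hA h.1
        simp [this]
    have h2 : M * mu.real (A \ B) ≤ 1 / 8 := by
      calc M * mu.real (A \ B) ≤ M * (min ε (1/8) / M) := by gcongr
        _ = min ε (1/8) := by field_simp
        _ ≤ 1 / 8 := min_le_right _ _
    linarith
  · have h1 : pr φ.1 (ev Z u) ≤ M * mu.real (B \ A) := by
      have e1 : Integrable (fun t => indicator (B \ A) (fun _ => M) t) mu :=
        (integrable_const _).indicator (hBm.diff H.mA)
      have e2 : ∫ t, indicator (B \ A) (fun _ => M) t ∂mu = M * mu.real (B \ A) := by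
        rw [integral_indicator (hBm.diff H.mA), integral_const, smul_eq_mul]
        simp [mul_comm]
      rw [← e2]
      unfold pr
      refine integral_mono (hφG.bm.mul hZbm).integrable e1 fun t => ?_
      show φ0.1 t * indicator B 1 t * ev Z u t ≤ indicator (B \ A) (fun _ => M) t
      by_cases hA : t ∈ A
      · rw [hZoff t hA]
        have : t ∉ B \ A := fun h => h.2 hA
        simp [this]
      · by_cases hB : t ∈ B
        · have : t ∈ B \ A := ⟨hB, hA⟩
          simp only [indicator_of_mem hB, Pi.one_apply, mul_one, indicator_of_mem this]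
          exact mul_le_mul (hφR.le t) (hZe.1.rx.le t) (hZbm.nn t) (by positivity)
        · have : t ∉ B \ A := fun h => hB h.1
          simp [hB, this]
    calc pr φ.1 (ev Z u) ≤ M * mu.real (B \ A) := h1
      _ ≤ M * (min ε (1/8) / M) := by gcongr
      _ = min ε (1/8) := by field_simp
      _ ≤ ε := min_le_left _ _

end Pool.Agent.H13.BL
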