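import Pool.Agent.H13.BL.Step

/-! The norming set. -/

set_option autoImplicit false

namespace Pool.Agent.H13.BL

open MeasureTheory Set

/-- range condition on functionals -/
structure RR (a b : ℕ) (f : ℝ → ℝ) : Prop where
  ab : a ≤ b
  le : ∀ t, f t ≤ 2 ^ b
  int : ∫ t, f t ∂mu ≤ (1 / 2) ^ a

/-- The norming set: `GG w g` says that `g` is a functional of weight `w` (`0` for the basic
functionals). -/
inductive GG : ℕ → St → Prop
  | base (a : ℕ) (g : St) (h0 : ∀ t, 0 ≤ g.1 t) (h1 : ∀ t, g.1 t ≤ 2 ^ a)
      (h2 : mu.real {t | g.1 t ≠ 0} ≤ (1 / 4) ^ a) : GG 0 g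
  | node (j n : ℕ) (h : ℕ → St) (w a b c : ℕ → ℕ) (g : St)
      (hj : 1 ≤ j) (hn : n ≤ nn j) (hG : ∀ i < n, GG (w i) (h i))
      (hR : ∀ i < n, RR (a i) (b i) (h i).1)
      (hs : ∀ i l, i < l → l < n → b i < a l)
      (hsp : Odd j → ∀ i < n, w i = 2 * (Lam j + code ((List.range i).map fun l => (h l, c l))))
      (h0 : ∀ t, 0 ≤ g.1 t) (h1 : ∀ t, g.1 t ≤ β j * ∑ i ∈ Finset.range n, (h i).1 t) : GG j g

lemma GG.nn {w : ℕ} {g : St} (h : GG w g) : ∀ t, 0 ≤ g.1 t := by
  cases h with
  | base a g h0 h1 h2 => exact h0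
  | node j n h w a b c g hj hn hG hR hs hsp h0 h1 => exact h0

lemma GG.bm {w : ℕ} {g : St} (h : GG w g) : BM g.1 := g.2.bm h.nn

lemma GG.solid {w : ℕ} {g g' : St} (h : GG w g) (h0 : ∀ t, 0 ≤ g'.1 t)
    (hle : ∀ t, g'.1 t ≤ g.1 t) : GG w g' := by
  cases h with
  | base a g h0' h1 h2 =>
    refine GG.base a g' h0 (fun t => (hle t).trans (h1 t)) (le_trans ?_ h2)
    refine measureReal_mono ?_ (measure_ne_top _ _)
    intro t ht hg
    exact ht (le_antisymm (by rw [← hg]; exact hle t) (h0 t))
  | node j n h w a b c g hj hn hG hR hs hsp h0' h1 =>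
    exact GG.node _ n h w a b c g' hj hn hG hR hs hsp h0 (fun t => (hle t).trans (h1 t))

/-- truncation -/
def cut (a b : ℕ) (g : St) : St :=
  ⟨fun t => min (max (g.1 t - 2 ^ a) 0) (2 ^ b), by
    have h1 : IsSt (fun _ : ℝ => (2 : ℝ) ^ a) := by
      have := IsSt.const (2 ^ a); push_cast at this; exact this
    have h2 : IsSt (fun _ : ℝ => (2 : ℝ) ^ b) := by
      have := IsSt.const (2 ^ b); push_cast at this; exact this
    have h3 : IsSt (fun _ : ℝ => (0 : ℝ)) := by
      have := IsSt.const 0; push_cast at this; exact this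
    exact (((g.2.sub h1).max h3).min h2)⟩

/-- the upper truncation is small in mean -/
lemma GG.trunc {w : ℕ} {g : St} (h : GG w g) (c : ℕ) :
    ∫ t, max (g.1 t - 2 ^ c) 0 ∂mu ≤ (1 / 2) ^ c := by
  induction h with
  | base a g h0 h1 h2 =>
    by_cases hac : a ≤ c
    · have h3 : ∀ t, max (g.1 t - 2 ^ c) 0 = 0 := by
        intro t
        apply max_eq_right
        have : (2 : ℝ) ^ a ≤ 2 ^ c := pow_le_pow_right₀ (by norm_num) hac
        linarith [h1 t]
      simp only [h3, integral_zero]
      positivity
    · push Not at hac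
      have hg : BM g.1 := g.2.bm h0
      have hmeas : MeasurableSet {t | g.1 t ≠ 0} :=
        (hg.meas (measurableSet_singleton (0 : ℝ))).compl
      calc ∫ t, max (g.1 t - 2 ^ c) 0 ∂mu ≤
          ∫ t, indicator {t | g.1 t ≠ 0} (fun _ => (2 : ℝ) ^ a) t ∂mu := by
            refine integral_mono_of_nonneg (Filter.Eventually.of_forall fun t => le_max_right _ _)
              ((integrable_const _).indicator hmeas) (Filter.Eventually.of_forall fun t => ?_)
            by_cases ht : g.1 t = 0
            · simp [ht]
            · have : t ∈ {t | g.1 t ≠ 0} := ht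
              rw [indicator_of_mem this]
              apply max_le
              · have : (0 : ℝ) < 2 ^ c := by positivity
                linarith [h1 t]
              · positivity
        _ = mu.real {t | g.1 t ≠ 0} * 2 ^ a := by
            rw [integral_indicator hmeas, integral_const, smul_eq_mul]
            simp
        _ ≤ (1 / 4) ^ a * 2 ^ a := by gcongr
        _ = (1 / 2) ^ a := by rw [← mul_pow]; norm_num
        _ ≤ (1 / 2) ^ c := pow_le_pow_of_le_one (by norm_num) (by norm_num) hac.le
  | node j n h w a b c' g hj hn hG hR hs hsp h0 h1 ih =>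
    have hβ := β_pos j
    have hβ4 := β_le j
    have hh : ∀ i < n, BM (h i).1 := fun i hi => (hG i hi).bm
    have hinja : ∀ i < n, ∀ l < n, a i = a l → i = l := by
      intro i hi l hl hil
      rcases lt_trichotomy i l with h | h | h
      · have := hs i l h hl; have := (hR i hi).ab; omega
      · exact h
      · have := hs l i h hi; have := (hR l hl).ab; omega
    have hinjb : ∀ i < n, ∀ l < n, b i = b l → i = l := by
      intro i hi l hl hil
      rcases lt_trichotomy i l with h | h | h
      · have := hs i l h hl; have := (hR l hl).ab; omega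
      · exact h
      · have := hs l i h hi; have := (hR i hi).ab; omega
    set L := (Finset.range n).filter (fun i => b i < c) with hL
    set M := (Finset.range n).filter (fun i => ¬ b i < c ∧ a i < c) with hM
    set H := (Finset.range n).filter (fun i => ¬ b i < c ∧ ¬ a i < c) with hH
    have hsplit : ∀ f : ℕ → ℝ, ∑ i ∈ Finset.range n, f i =
        ∑ i ∈ L, f i + (∑ i ∈ M, f i + ∑ i ∈ H, f i) := by
      intro f
      rw [← Finset.sum_filter_add_sum_filter_not (Finset.range n) (fun i => b i < c)]
      congr 1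
      rw [← Finset.sum_filter_add_sum_filter_not ((Finset.range n).filter (fun i => ¬ b i < c))
        (fun i => a i < c)]
      rw [Finset.filter_filter, Finset.filter_filter]
    have hLb : ∀ t, ∑ i ∈ L, (h i).1 t ≤ 2 ^ c := by
      intro t
      calc ∑ i ∈ L, (h i).1 t ≤ ∑ i ∈ L, (2 : ℝ) ^ (b i) := Finset.sum_le_sum fun i hi => by
            rw [hL, Finset.mem_filter, Finset.mem_range] at hi
            exact (hR i hi.1).le t
        _ ≤ 2 ^ c := by
            refine sum_two_pow_le L b c ?_ ?_
            · intro i hi l hl hil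
              rw [Finset.mem_coe, hL, Finset.mem_filter, Finset.mem_range] at hi hl
              exact hinjb i hi.1 l hl.1 hil
            · intro i hi
              rw [hL, Finset.mem_filter, Finset.mem_range] at hi
              exact hi.2
    have hMc : M.card ≤ 1 := by
      rw [Finset.card_le_one]
      intro i hi l hl
      rw [hM, Finset.mem_filter, Finset.mem_range] at hi hl
      rcases lt_trichotomy i l with h | h | h
      · have := hs i l h hl.1; omega
      · exact h
      · have := hs l i h hi.1; omega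
    have hMb : ∀ t, ∑ i ∈ M, (h i).1 t ≤ ∑ i ∈ M, max ((h i).1 t - 2 ^ c) 0 + 2 ^ c := by
      intro t
      have : ∑ i ∈ M, (h i).1 t ≤ ∑ i ∈ M, (max ((h i).1 t - 2 ^ c) 0 + 2 ^ c) :=
        Finset.sum_le_sum fun i _ => by linarith [le_max_left ((h i).1 t - 2 ^ c) 0]
      refine this.trans ?_
      rw [Finset.sum_add_distrib, Finset.sum_const, nsmul_eq_mul]
      have h1 : (M.card : ℝ) ≤ 1 := by exact_mod_cast hMc
      have h2 : (0 : ℝ) ≤ 2 ^ c := by positivity
      nlinarith
    have hpt : ∀ t, max (g.1 t - 2 ^ c) 0 ≤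
        β j * (∑ i ∈ M, max ((h i).1 t - 2 ^ c) 0 + ∑ i ∈ H, (h i).1 t) := by
      intro t
      apply max_le
      · have e1 := h1 t
        rw [hsplit] at e1
        have e2 := hLb t
        have e3 := hMb t
        have e4 : (0 : ℝ) < 2 ^ c := by positivity
        have e5 : β j * (∑ i ∈ L, (h i).1 t + (∑ i ∈ M, (h i).1 t + ∑ i ∈ H, (h i).1 t)) ≤
            β j * (2 ^ c + ((∑ i ∈ M, max ((h i).1 t - 2 ^ c) 0 + 2 ^ c) +
              ∑ i ∈ H, (h i).1 t)) := by gcongr
        nlinarith
      · have e1 : 0 ≤ ∑ i ∈ M, max ((h i).1 t - 2 ^ c) 0 :=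
          Finset.sum_nonneg fun i _ => le_max_right _ _
        have e2 : 0 ≤ ∑ i ∈ H, (h i).1 t := Finset.sum_nonneg fun i hi => by
          rw [hH, Finset.mem_filter, Finset.mem_range] at hi
          exact (hh i hi.1).nn t
        positivity
    have hMbm : ∀ i ∈ M, BM (fun t => max ((h i).1 t - 2 ^ c) 0) := by
      intro i hi
      rw [hM, Finset.mem_filter, Finset.mem_range] at hi
      refine (hh i hi.1).of_le (((hh i hi.1).meas.sub_const _).max measurable_const)
        (fun t => le_max_right _ _) (fun t => max_le ?_ ((hh i hi.1).nn t))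
      have e4 : (0 : ℝ) < 2 ^ c := by positivity
      linarith
    have hHbm : ∀ i ∈ H, BM (h i).1 := by
      intro i hi
      rw [hH, Finset.mem_filter, Finset.mem_range] at hi
      exact hh i hi.1
    calc ∫ t, max (g.1 t - 2 ^ c) 0 ∂mu ≤
        ∫ t, β j * (∑ i ∈ M, max ((h i).1 t - 2 ^ c) 0 + ∑ i ∈ H, (h i).1 t) ∂mu := by
          refine integral_mono_of_nonneg (Filter.Eventually.of_forall fun t => le_max_right _ _)
            ?_ (Filter.Eventually.of_forall hpt)
          exact (((BM.sum M _ hMbm).add (BM.sum H _ hHbm)).const_mul hβ.le).integrable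
      _ = β j * (∑ i ∈ M, ∫ t, max ((h i).1 t - 2 ^ c) 0 ∂mu + ∑ i ∈ H, ∫ t, (h i).1 t ∂mu) := by
          rw [integral_const_mul, integral_add (BM.sum M _ hMbm).integrable
            (BM.sum H _ hHbm).integrable, integral_finsetSum M fun i hi => (hMbm i hi).integrable,
            integral_finsetSum H fun i hi => (hHbm i hi).integrable]
      _ ≤ β j * ((1 / 2) ^ c + 2 * (1 / 2) ^ c) := by
          gcongr
          · calc ∑ i ∈ M, ∫ t, max ((h i).1 t - 2 ^ c) 0 ∂mu ≤ ∑ i ∈ M, (1 / 2 : ℝ) ^ c :=
                Finset.sum_le_sum fun i hi => by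
                  rw [hM, Finset.mem_filter, Finset.mem_range] at hi
                  exact ih i hi.1
              _ = (M.card : ℝ) * (1 / 2) ^ c := by rw [Finset.sum_const, nsmul_eq_mul]
              _ ≤ 1 * (1 / 2) ^ c := by
                gcongr
                exact_mod_cast hMc
              _ = _ := one_mul _
          · calc ∑ i ∈ H, ∫ t, (h i).1 t ∂mu ≤ ∑ i ∈ H, (1 / 2 : ℝ) ^ (a i) :=
                Finset.sum_le_sum fun i hi => by
                  rw [hH, Finset.mem_filter, Finset.mem_range] at hi
                  exact (hR i hi.1).int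
              _ ≤ _ := by
                refine sum_half_pow_le H a c ?_ ?_
                · intro i hi l hl hil
                  rw [Finset.mem_coe, hH, Finset.mem_filter, Finset.mem_range] at hi hl
                  exact hinja i hi.1 l hl.1 hil
                · intro i hi
                  rw [hH, Finset.mem_filter, Finset.mem_range] at hi
                  omega
      _ ≤ (1 / 2) ^ c := by
          have : (0 : ℝ) < (1 / 2) ^ c := by positivity
          nlinarith

lemma GG.cutg {w : ℕ} {g : St} (h : GG w g) (a b : ℕ) : GG w (cut a b g) := by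
  refine h.solid (fun t => ?_) (fun t => ?_)
  · exact le_min (le_max_right _ _) (by positivity)
  · refine (min_le_left _ _).trans (max_le ?_ (h.nn t))
    have : (0 : ℝ) < 2 ^ a := by positivity
    linarith

lemma GG.rr_cut {w : ℕ} {g : St} (h : GG w g) {a b : ℕ} (hab : a ≤ b) : RR a b (cut a b g).1 := by
  refine ⟨hab, fun t => min_le_right _ _, le_trans ?_ (h.trunc a)⟩
  refine integral_mono (h.cutg a b).bm.integrable ?_ fun t => min_le_left _ _
  refine (h.bm.of_le ((h.bm.meas.sub_const _).max measurable_const)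
    (fun t => le_max_right _ _) (fun t => max_le ?_ (h.nn t))).integrable
  have : (0 : ℝ) < 2 ^ a := by positivity
  linarith

/-- integrals of functionals -/
lemma GG.int_le {w : ℕ} {g : St} (h : GG w g) : ∫ t, g.1 t ∂mu ≤ 2 := by
  have h1 := h.trunc 0
  have h2 : ∫ t, g.1 t ∂mu ≤ ∫ t, (max (g.1 t - 2 ^ 0) 0 + 1) ∂mu := by
    refine integral_mono h.bm.integrable ?_ fun t => ?_
    · refine Integrable.add ?_ (integrable_const _)
      refine (h.bm.of_le ((h.bm.meas.sub_const _).max measurable_const)
        (fun t => le_max_right _ _) (fun t => max_le ?_ (h.nn t))).integrable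
      simp
    · simp only [pow_zero]
      linarith [le_max_left (g.1 t - 1) 0]
  rw [integral_add, integral_const] at h2
  · simp at h2 h1; linarith
  · refine (h.bm.of_le ((h.bm.meas.sub_const _).max measurable_const)
        (fun t => le_max_right _ _) (fun t => max_le ?_ (h.nn t))).integrable
    simp
  · exact integrable_const _

/-- the constant functional -/
lemma GG.one : GG 0 ⟨fun _ => 1, by exact_mod_cast IsSt.const 1⟩ := by
  refine GG.base 0 _ (fun t => by norm_num) (fun t => by norm_num) ?_
  simp

/-- The functional of a node has small mean. -/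
lemma GG.int_le_beta {w : ℕ} {g : St} (h : GG w g) (hw : 1 ≤ w) : ∫ t, g.1 t ∂mu ≤ 2 * β w := by
  cases h with
  | base a g h0 h1 h2 => omega
  | node j n h v a b c g hj hn hG hR hs hsp h0 h1 =>
    have hh : ∀ i ∈ Finset.range n, BM (h i).1 := fun i hi => (hG i (Finset.mem_range.1 hi)).bm
    have hβ := (β_pos w).le
    calc ∫ t, g.1 t ∂mu ≤ ∫ t, β w * ∑ i ∈ Finset.range n, (h i).1 t ∂mu :=
          integral_mono (g.2.bm h0).integrable ((BM.sum _ _ hh).const_mul hβ).integrable h1
      _ = β w * ∑ i ∈ Finset.range n, ∫ t, (h i).1 t ∂mu := by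
          rw [integral_const_mul, integral_finsetSum _ fun i hi => (hh i hi).integrable]
      _ ≤ β w * ∑ i ∈ Finset.range n, (1 / 2) ^ (a i) := by
          gcongr with i hi
          exact (hR i (Finset.mem_range.1 hi)).int
      _ ≤ β w * (2 * (1 / 2) ^ 0) := by
          refine mul_le_mul_of_nonneg_left ?_ hβ
          refine sum_half_pow_le _ a 0 ?_ (fun _ _ => Nat.zero_le _)
          intro i hi l hl hil
          rw [Finset.mem_coe, Finset.mem_range] at hi hl
          rcases lt_trichotomy i l with h | h | h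
          · have := hs i l h hl; have := (hR i hi).ab; omega
          · exact h
          · have := hs l i h hi; have := (hR l hl).ab; omega
      _ = _ := by ring

/-- the norm predicate: `NB X C` says that the norm of `X` is at most `C` -/
def NB (X : ℝ → ℝ) (C : ℝ) : Prop := ∀ w g, GG w g → pr g.1 X ≤ C

lemma NB.nonneg {X : ℝ → ℝ} {C : ℝ} (hX : BM X) (h : NB X C) : 0 ≤ C :=
  (pr_nonneg (GG.one).bm hX).trans (h _ _ GG.one)

lemma NB.mono {X : ℝ → ℝ} {C D : ℝ} (h : NB X C) (hCD : C ≤ D) : NB X D :=
  fun w g hg => (h w g hg).trans hCD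

end Pool.Agent.H13.BL
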