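import Mathlib

/-! Parameters of the construction: weights `β j = 4^(-2^j)` and lengths `nn j`. -/

set_option autoImplicit false

namespace Pool.Agent.H13.BL

/-- `mm j = 4^(2^j)`, the inverse weights -/
def mm (j : ℕ) : ℕ := 4 ^ (2 ^ j)

/-- the lengths -/
def nn : ℕ → ℕ
  | 0 => 16
  | (j + 1) => (mm (j + 1)) ^ 2 * (nn j + 1) ^ (2 ^ (j + 2) + 1)

/-- the weights -/
noncomputable def β (j : ℕ) : ℝ := ((mm j : ℕ) : ℝ)⁻¹

lemma mm_pos (j : ℕ) : 0 < mm j := by unfold mm; positivity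

lemma mm_succ (j : ℕ) : mm (j + 1) = mm j ^ 2 := by
  unfold mm; rw [← pow_mul, pow_succ]

lemma four_le_mm (j : ℕ) : 4 ≤ mm j := by
  unfold mm
  calc 4 = 4 ^ 1 := by norm_num
    _ ≤ 4 ^ (2 ^ j) := Nat.pow_le_pow_right (by norm_num) Nat.one_le_two_pow

lemma lt_mm (j : ℕ) : j < mm j := by
  unfold mm
  calc j < 2 ^ j := Nat.lt_two_pow_self
    _ < 4 ^ (2 ^ j) := Nat.lt_pow_self (by norm_num)

lemma mm_mono : Monotone mm := by
  intro a b h
  unfold mm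
  exact Nat.pow_le_pow_right (by norm_num) (Nat.pow_le_pow_right (by norm_num) h)

lemma β_pos (j : ℕ) : 0 < β j := by
  unfold β; have := mm_pos j; positivity

lemma β_le (j : ℕ) : β j ≤ 1 / 4 := by
  unfold β
  rw [one_div]
  apply inv_anti₀ (by norm_num)
  exact_mod_cast four_le_mm j

lemma β_le_one (j : ℕ) : β j ≤ 1 := (β_le j).trans (by norm_num)

lemma β_anti : Antitone β := by
  intro a b h
  unfold β
  apply inv_anti₀ (by exact_mod_cast mm_pos a)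
  exact_mod_cast mm_mono h

lemma β_succ (j : ℕ) : β (j + 1) = β j ^ 2 := by
  unfold β; rw [mm_succ]; push_cast; rw [inv_pow]

lemma β_sq_eq (j : ℕ) : β j ^ 2 = (1 / 4 : ℝ) ^ (2 ^ (j + 1)) := by
  rw [← β_succ]; unfold β mm; push_cast; rw [one_div, inv_pow]

lemma β_lt_inv (j : ℕ) : β j * (j : ℝ) ≤ 1 := by
  unfold β
  have h : (0 : ℝ) < mm j := by exact_mod_cast mm_pos j
  rw [inv_mul_le_iff₀ h, mul_one]
  exact_mod_cast (lt_mm j).le

lemma β_mm (j : ℕ) : β j * (mm j : ℝ) = 1 := by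
  unfold β
  have h : (mm j : ℝ) ≠ 0 := by exact_mod_cast (mm_pos j).ne'
  field_simp

lemma nn_pos (j : ℕ) : 0 < nn j := by
  cases j with
  | zero => norm_num [nn]
  | succ j => unfold nn; have := mm_pos (j+1); positivity

lemma mm_sq_le_nn (j : ℕ) : mm j ^ 2 ≤ nn j := by
  cases j with
  | zero => norm_num [nn, mm]
  | succ j =>
    rw [nn]
    exact Nat.le_mul_of_pos_right _ (by positivity)

lemma nn_succ_ge (j : ℕ) : nn j ≤ nn (j + 1) := by
  rw [nn]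
  calc nn j ≤ (nn j + 1) := Nat.le_succ _
    _ = (nn j + 1) ^ 1 := (pow_one _).symm
    _ ≤ (nn j + 1) ^ (2 ^ (j + 2) + 1) := Nat.pow_le_pow_right (Nat.succ_pos _) (Nat.le_add_left 1 _)
    _ ≤ _ := Nat.le_mul_of_pos_left _ (by have := mm_pos (j+1); positivity)

lemma nn_mono : Monotone nn := monotone_nat_of_le_succ nn_succ_ge

lemma two_le_nn (j : ℕ) : 2 ≤ nn j := by
  have := nn_mono (Nat.zero_le j)
  have h : nn 0 = 16 := rfl
  omega

lemma le_nn (j : ℕ) : j ≤ nn j := by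
  have h1 := (lt_mm j).le
  have h2 := mm_sq_le_nn j
  have h3 : mm j ≤ mm j ^ 2 := by
    rw [pow_two]; exact Nat.le_mul_of_pos_left _ (mm_pos j)
  omega

/-- `β_j² n_j = (n_{j-1}+1)^(t_j+1)` -/
lemma β_sq_nn (j : ℕ) : β (j + 1) ^ 2 * (nn (j + 1) : ℝ) = ((nn j : ℝ) + 1) ^ (2 ^ (j + 2) + 1) := by
  have h : (mm (j+1) : ℝ) ≠ 0 := by exact_mod_cast (mm_pos (j+1)).ne'
  rw [nn, β]
  push_cast
  field_simp

/-- `m_j / n_j ≤ β_j` -/
lemma one_le_β_sq_nn (j : ℕ) : 1 ≤ β j ^ 2 * (nn j : ℝ) := by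
  have h : (0:ℝ) < (mm j : ℝ) := by exact_mod_cast (mm_pos j)
  have h2 : ((mm j : ℝ)) ^ 2 ≤ nn j := by exact_mod_cast mm_sq_le_nn j
  rw [β, inv_pow]
  rw [inv_mul_eq_div, le_div_iff₀ (by positivity), one_mul]
  exact h2

lemma β_nn_pos (j : ℕ) : 0 < β j * (nn j : ℝ) := by
  have := β_pos j
  have h : (0:ℝ) < nn j := by exact_mod_cast nn_pos j
  positivity

/-- `m_j / n_j ≤ β_j` -/
lemma mm_div_nn_le (j : ℕ) : (mm j : ℝ) / (nn j : ℝ) ≤ β j := by
  have h1 := one_le_β_sq_nn j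
  have h : (0:ℝ) < nn j := by exact_mod_cast nn_pos j
  have h2 : (0:ℝ) < mm j := by exact_mod_cast mm_pos j
  rw [div_le_iff₀ h]
  have h3 := β_mm j
  have h4 := β_pos j
  calc (mm j : ℝ) = mm j * 1 := (mul_one _).symm
    _ ≤ mm j * (β j ^ 2 * nn j) := by gcongr
    _ = (β j * mm j) * (β j * nn j) := by ring
    _ = _ := by rw [h3, one_mul]

/-- the lower bound for the weights in the children of odd weight `j` -/
def Lam (j : ℕ) : ℕ := nn j ^ 2

lemma two_pow_beta (w : ℕ) : 2 * 2 ^ w * β w * (w + 1 : ℝ) ≤ 1 := by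
  have h1 : (w : ℕ) + 1 ≤ 2 ^ w := Nat.lt_two_pow_self
  have h2 : 2 * 2 ^ w * (w + 1) ≤ mm w := by
    unfold mm
    have e1 : (4 : ℕ) ^ (2 ^ w) = 2 ^ (2 ^ w) * 2 ^ (2 ^ w) := by
      rw [← mul_pow]; norm_num
    rw [e1]
    have e2 : 2 * 2 ^ w ≤ 2 ^ (2 ^ w) := by
      rw [← pow_succ']
      exact Nat.pow_le_pow_right (by norm_num) h1
    have e3 : w + 1 ≤ 2 ^ (2 ^ w) := by
      have : w + 1 ≤ 2 * 2 ^ w := by omega
      omega
    exact Nat.mul_le_mul e2 e3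
  unfold β
  have h : (0 : ℝ) < mm w := by exact_mod_cast mm_pos w
  have h3 : (2 * 2 ^ w * (w + 1) : ℝ) ≤ mm w := by exact_mod_cast h2
  calc 2 * 2 ^ w * ((mm w : ℕ) : ℝ)⁻¹ * (w + 1 : ℝ) = (2 * 2 ^ w * (w + 1)) / mm w := by
        field_simp
    _ ≤ 1 := by rw [div_le_one h]; exact h3

lemma two_pow_beta' (w : ℕ) : 2 * 2 ^ w * β w ≤ 1 := by
  have h := two_pow_beta w
  have h1 : 0 ≤ 2 * 2 ^ w * β w := by have := β_pos w; positivity
  have h2 : 2 * 2 ^ w * β w * 1 ≤ 2 * 2 ^ w * β w * (w + 1 : ℝ) := by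
    gcongr
    have : (0:ℝ) ≤ w := Nat.cast_nonneg _
    linarith
  linarith

/-- sums of distinct powers of two -/
lemma sum_two_pow_le {ι : Type*} (s : Finset ι) (f : ι → ℕ) (c : ℕ)
    (hf : Set.InjOn f s) (hc : ∀ i ∈ s, f i < c) : ∑ i ∈ s, (2 : ℝ) ^ f i ≤ 2 ^ c := by
  classical
  have h1 : ∑ i ∈ s, (2 : ℝ) ^ f i = ∑ m ∈ s.image f, (2 : ℝ) ^ m := by
    rw [Finset.sum_image hf]
  rw [h1]
  have h2 : s.image f ⊆ Finset.range c := by
    intro m hm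
    rw [Finset.mem_image] at hm
    obtain ⟨i, hi, rfl⟩ := hm
    exact Finset.mem_range.2 (hc i hi)
  calc ∑ m ∈ s.image f, (2 : ℝ) ^ m ≤ ∑ m ∈ Finset.range c, (2 : ℝ) ^ m :=
        Finset.sum_le_sum_of_subset_of_nonneg h2 (fun _ _ _ => by positivity)
    _ = 2 ^ c - 1 := by
        rw [geom_sum_eq (by norm_num)]; norm_num
    _ ≤ 2 ^ c := by linarith

lemma sum_half_pow_le {ι : Type*} (s : Finset ι) (f : ι → ℕ) (c : ℕ)
    (hf : Set.InjOn f s) (hc : ∀ i ∈ s, c ≤ f i) :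
    ∑ i ∈ s, (1 / 2 : ℝ) ^ f i ≤ 2 * (1 / 2) ^ c := by
  classical
  have h1 : ∑ i ∈ s, (1 / 2 : ℝ) ^ f i = ∑ m ∈ s.image f, (1 / 2 : ℝ) ^ m := by
    rw [Finset.sum_image hf]
  rw [h1]
  have hsum : Summable (fun m : ℕ => (1 / 2 : ℝ) ^ (m + c)) := by
    simp_rw [pow_add]
    exact summable_geometric_two.mul_right _
  have h3 : s.image f = (s.image (fun i => f i - c)).image (fun m => m + c) := by
    rw [Finset.image_image]
    apply Finset.image_congr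
    intro i hi
    have := hc i hi
    simp only [Function.comp]
    omega
  rw [h3, Finset.sum_image (fun a _ b _ h => by simpa using h)]
  calc _ ≤ ∑' m : ℕ, (1 / 2 : ℝ) ^ (m + c) := hsum.sum_le_tsum _ (fun _ _ => by positivity)
    _ = 2 * (1 / 2) ^ c := by
      simp_rw [pow_add]
      rw [tsum_mul_right, tsum_geometric_two]

end Pool.Agent.H13.BL
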