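import Pool.Agent.H13.BL.Estim

/-! Reflexivity. -/

set_option autoImplicit false

namespace Pool.Agent.H13.BL

open MeasureTheory Set Filter Topology

noncomputable section

lemma norm_add_sq_le (s y : E) {δ : ℝ} (h : ∀ w g, GG w g → pr g.1 (fun t => s.v t * y.v t) ≤ δ) :
    ‖s + y‖ ^ 2 ≤ ‖s‖ ^ 2 + (2 * δ + ‖y‖ ^ 2) := by
  refine E.norm_sq_le fun w g hg => ?_
  rw [E.v_add, pr_sqf_add hg.bm]
  have h1 := E.nb s w g hg
  have h2 := E.nb y w g hg
  have h3 := h w g hg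
  linarith

/-- A bounded functional is almost bounded in the Hilbert norm. -/
lemma dagger (f : E →L[ℝ] ℝ) {ε : ℝ} (hε : 0 < ε) :
    ∃ M : ℝ, 0 ≤ M ∧ ∀ y : E, f y ≤ M * ‖y.v‖ + ε * ‖y‖ := by
  by_contra hcon
  push Not at hcon
  have claim : ∀ m : ℕ, ∃ S : E, ‖S‖ ^ 2 ≤ 2 * m ∧ m * ε ≤ f S := by
    intro m
    induction m with
    | zero => exact ⟨0, by simp, by simp⟩
    | succ m ih =>
      obtain ⟨S, hS1, hS2⟩ := ih
      obtain ⟨η, hη, hη'⟩ := small_pair S (R := 1) (ε := 1 / 2) (by norm_num) (by norm_num)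
      obtain ⟨y, hy⟩ := hcon ((‖f‖ + 1) / η) (by positivity)
      have hfy : f y ≤ ‖f‖ * ‖y‖ := (le_abs_self _).trans (f.le_opNorm y)
      have hy0 : 0 < ‖y‖ := by
        rcases (norm_nonneg y).eq_or_lt with h | h
        · rw [← h] at hfy hy
          have : 0 ≤ (‖f‖ + 1) / η * ‖y.v‖ := by positivity
          linarith
        · exact h
      set y' : E := ‖y‖⁻¹ • y with hy'
      have hn1 : ‖y'‖ = 1 := by
        rw [hy', norm_smul, norm_inv, norm_norm, inv_mul_cancel₀ hy0.ne']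
      have hnv : ‖y'.v‖ ≤ η := by
        rw [hy', E.v_smul, norm_smul, norm_inv, norm_norm, inv_mul_le_iff₀ hy0]
        have h1 : (‖f‖ + 1) / η * ‖y.v‖ < ‖f‖ * ‖y‖ := by
          have : 0 ≤ ε * ‖y‖ := by positivity
          linarith
        rw [div_mul_eq_mul_div, div_lt_iff₀ hη] at h1
        have h2 := norm_nonneg f
        have h3 := norm_nonneg y.v
        by_contra h4
        push Not at h4
        nlinarith [mul_lt_mul_of_pos_left h4 (by linarith : 0 < ‖f‖ + 1), mul_pos hy0 hη]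
      have hf1 : ε ≤ f y' := by
        rw [hy', map_smul, smul_eq_mul, le_inv_mul_iff₀ hy0]
        have : 0 ≤ (‖f‖ + 1) / η * ‖y.v‖ := by positivity
        linarith
      refine ⟨S + y', ?_, ?_⟩
      · have := norm_add_sq_le S y' (δ := 1 / 2) (hη' y' hn1.le hnv)
        rw [hn1] at this
        push_cast
        linarith
      · rw [map_add]; push_cast; linarith
  obtain ⟨m, hm⟩ := exists_nat_gt (2 * ‖f‖ ^ 2 / ε ^ 2)
  obtain ⟨S, hS1, hS2⟩ := claim m
  have h1 : f S ≤ ‖f‖ * ‖S‖ := (le_abs_self _).trans (f.le_opNorm S)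
  rw [div_lt_iff₀ (by positivity)] at hm
  have hm0 : (0 : ℝ) < m := by
    by_contra h
    push Not at h
    have : (m : ℝ) * ε ^ 2 ≤ 0 := mul_nonpos_of_nonpos_of_nonneg h (by positivity)
    have : 0 ≤ 2 * ‖f‖ ^ 2 := by positivity
    linarith
  have h2 : (m * ε) ^ 2 ≤ (‖f‖ * ‖S‖) ^ 2 := by
    have : 0 ≤ (m : ℝ) * ε := by positivity
    exact pow_le_pow_left₀ this (hS2.trans h1) 2
  have h3 : (‖f‖ * ‖S‖) ^ 2 ≤ ‖f‖ ^ 2 * (2 * m) := by
    rw [mul_pow]; gcongr
  have h4 : (m : ℝ) * (m * ε ^ 2) ≤ m * (2 * ‖f‖ ^ 2) := by nlinarith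
  have h5 := le_of_mul_le_mul_left h4 hm0
  linarith

/-- Approximation of functionals by the ones from the Hilbert space. -/
lemma approx (f : E →L[ℝ] ℝ) {ε : ℝ} (hε : 0 < ε) :
    ∃ k : L2 →L[ℝ] ℝ, ∀ y : E, |f y - k y.v| ≤ ε * ‖y‖ := by
  obtain ⟨M, hM, hf⟩ := dagger f hε
  set G : E →ₗ[ℝ] L2 × E := (incl.toLinearMap).prod LinearMap.id with hG
  set pm : (L2 × E) →ₗ.[ℝ] ℝ := ⟨LinearMap.range G,
    (f.toLinearMap ∘ₗ LinearMap.snd ℝ L2 E).domRestrict (LinearMap.range G)⟩ with hpm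
  obtain ⟨F, hF1, hF2⟩ := exists_extension_of_le_sublinear pm
    (fun z => M * ‖z.1‖ + ε * ‖z.2‖) (by
      intro c hc z
      simp only [Prod.smul_fst, Prod.smul_snd, norm_smul, Real.norm_eq_abs, abs_of_pos hc]
      ring) (by
      intro x y
      have h1 := norm_add_le x.1 y.1
      have h2 := norm_add_le x.2 y.2
      show M * ‖x.1 + y.1‖ + ε * ‖x.2 + y.2‖ ≤ _
      have h3 : M * ‖x.1 + y.1‖ ≤ M * (‖x.1‖ + ‖y.1‖) := by gcongr
      have h4 : ε * ‖x.2 + y.2‖ ≤ ε * (‖x.2‖ + ‖y.2‖) := by gcongr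
      linarith) (by
      rintro ⟨z, y, rfl⟩
      exact hf y)
  have hbd : ∀ u : L2, |F (u, 0)| ≤ M * ‖u‖ := by
    intro u
    rw [abs_le]
    constructor
    · have h1 := hF2 (-u, 0)
      have h2 : F (-u, 0) = - F (u, 0) := by
        rw [← map_neg]; simp
      simp only [norm_neg, norm_zero, mul_zero, add_zero] at h1
      linarith
    · have h1 := hF2 (u, 0)
      simp only [norm_zero, mul_zero, add_zero] at h1
      exact h1
  refine ⟨(F ∘ₗ LinearMap.inl ℝ L2 E).mkContinuous M (fun u => hbd u), fun y => ?_⟩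
  have h1 : f y = F (y.v, 0) + F (0, y) := by
    rw [← map_add]
    have := hF1 ⟨G y, y, rfl⟩
    simp only [Prod.mk_add_mk, add_zero, zero_add]
    exact this.symm
  have h2 : (F ∘ₗ LinearMap.inl ℝ L2 E).mkContinuous M (fun u => hbd u) y.v = F (y.v, 0) := rfl
  rw [h2, h1, add_sub_cancel_left, abs_le]
  constructor
  · have h1 := hF2 (0, -y)
    have h2 : F (0, -y) = - F (0, y) := by
      rw [← map_neg]; simp
    simp only [norm_neg, norm_zero, mul_zero, zero_add] at h1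
    linarith
  · have h1 := hF2 (0, y)
    simp only [norm_zero, mul_zero, zero_add] at h1
    exact h1

/-- pull-back of a functional on the dual -/
def pullb (Φ : StrongDual ℝ (StrongDual ℝ E)) : L2 →L[ℝ] ℝ :=
  LinearMap.mkContinuous
    { toFun := fun u => Φ ((innerSL ℝ u).comp incl)
      map_add' := by
        intro u v
        rw [map_add, ContinuousLinearMap.add_comp, map_add]
      map_smul' := by
        intro c u
        rw [map_smul, ContinuousLinearMap.smul_comp, map_smul]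
        rfl } (‖Φ‖ * ‖incl‖) (by
    intro u
    calc ‖Φ ((innerSL ℝ u).comp incl)‖ ≤ ‖Φ‖ * ‖(innerSL ℝ u).comp incl‖ := Φ.le_opNorm _
      _ ≤ ‖Φ‖ * (‖innerSL ℝ u‖ * ‖incl‖) := by
          gcongr
          exact ContinuousLinearMap.opNorm_comp_le _ _
      _ = ‖Φ‖ * ‖incl‖ * ‖u‖ := by rw [innerSL_apply_norm]; ring)

lemma pullb_apply (Φ : StrongDual ℝ (StrongDual ℝ E)) (u : L2) :
    pullb Φ u = Φ ((innerSL ℝ u).comp incl) := rfl

theorem reflexive : Function.Surjective (NormedSpace.inclusionInDoubleDual ℝ E) := by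
  intro Φ
  set y0 : L2 := (InnerProductSpace.toDual ℝ L2).symm (pullb Φ) with hy0
  have hy0u : ∀ u, inner ℝ y0 u = pullb Φ u := fun u => InnerProductSpace.toDual_symm_apply
  have hmem : y0 ∈ EE := by
    refine ⟨‖Φ‖ ^ 2, fun w g hg => ?_⟩
    set D := pr g.1 (sqf y0) with hD
    have hD0 : 0 ≤ D := pr_sqf_nonneg hg.bm y0
    have h1 : D = Φ ((innerSL ℝ (mulL g.1 hg.bm y0)).comp incl) := by
      rw [← pullb_apply, ← hy0u, real_inner_comm, ← pr_sqf_eq hg.bm y0]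
    have h2 : ‖(innerSL ℝ (mulL g.1 hg.bm y0)).comp incl‖ ≤ √D := by
      refine ContinuousLinearMap.opNorm_le_bound _ (Real.sqrt_nonneg _) fun y => ?_
      show ‖inner ℝ (mulL g.1 hg.bm y0) y.v‖ ≤ _
      rw [inner_mulL, Real.norm_eq_abs]
      refine abs_le_of_sq_le_sq ?_ (by positivity)
      refine (pr_cs hg.bm y0 y.v).trans ?_
      rw [mul_pow, Real.sq_sqrt hD0]
      exact mul_le_mul_of_nonneg_left (E.nb y w g hg) hD0
    have h3 : D ≤ ‖Φ‖ * √D := by
      calc D = Φ ((innerSL ℝ (mulL g.1 hg.bm y0)).comp incl) := h1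
        _ ≤ ‖Φ ((innerSL ℝ (mulL g.1 hg.bm y0)).comp incl)‖ := Real.le_norm_self _
        _ ≤ ‖Φ‖ * ‖(innerSL ℝ (mulL g.1 hg.bm y0)).comp incl‖ := Φ.le_opNorm _
        _ ≤ ‖Φ‖ * √D := by gcongr
    have h4 : √D ^ 2 = D := Real.sq_sqrt hD0
    have h5 : 0 ≤ √D := Real.sqrt_nonneg _
    have h6 : √D ≤ ‖Φ‖ := by
      by_contra h
      push Not at h
      have h7 : 0 < √D := lt_of_le_of_lt (norm_nonneg Φ) h
      nlinarith
    nlinarith [norm_nonneg Φ]
  refine ⟨E.mk y0 hmem, ?_⟩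
  ext f
  rw [NormedSpace.dual_def]
  set y := E.mk y0 hmem with hy
  have key : ∀ ε > 0, |Φ f - f y| ≤ ε * (‖Φ‖ + ‖y‖) := by
    intro ε hε
    obtain ⟨k, hk⟩ := approx f hε
    set u : L2 := (InnerProductSpace.toDual ℝ L2).symm k with hu
    have hku : innerSL ℝ u = k := by
      ext z
      rw [innerSL_apply_apply]
      exact InnerProductSpace.toDual_symm_apply
    set f2 : StrongDual ℝ E := f - k.comp incl with hf2
    have hf2n : ‖f2‖ ≤ ε := ContinuousLinearMap.opNorm_le_bound _ hε.le fun z => hk z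
    have h1 : Φ (k.comp incl) = (k.comp incl) y := by
      rw [← hku, ← pullb_apply, ← hy0u]
      show inner ℝ y0 u = inner ℝ u y0
      exact real_inner_comm _ _
    have h2 : Φ f - f y = Φ f2 - f2 y := by
      rw [hf2, map_sub, h1]
      simp
    rw [h2]
    calc |Φ f2 - f2 y| ≤ |Φ f2| + |f2 y| := abs_sub _ _
      _ ≤ ‖Φ‖ * ‖f2‖ + ‖f2‖ * ‖y‖ := add_le_add (Φ.le_opNorm f2) (f2.le_opNorm y)
      _ ≤ ‖Φ‖ * ε + ε * ‖y‖ := by gcongr
      _ = _ := by ring
  have h0 : |Φ f - f y| ≤ 0 := by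
    refine le_of_forall_pos_le_add fun ε hε => ?_
    have hpos : 0 < ‖Φ‖ + ‖y‖ + 1 := by positivity
    have := key (ε / (‖Φ‖ + ‖y‖ + 1)) (by positivity)
    rw [zero_add]
    refine this.trans ?_
    rw [div_mul_eq_mul_div, div_le_iff₀ hpos]
    nlinarith
  have h1 : Φ f - f y = 0 := abs_eq_zero.1 (le_antisymm h0 (abs_nonneg _))
  linarith

end

end Pool.Agent.H13.BL
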