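import Pool.Agent.H13.BL.Split
import Pool.Agent.H13.BL.Core
import Pool.Agent.H13.BL.Reflexive

/-! No complemented disjoint sequences. -/

set_option autoImplicit false

namespace Pool.Agent.H13.BL

open MeasureTheory Set Filter Topology

noncomputable section

lemma disj_ae {a b : E} (h : |a| ⊓ |b| = 0) : ∀ᵐ t ∂mu, a.v t * b.v t = 0 := by
  have h1 : |a.v| ⊓ |b.v| = 0 := by
    have := congrArg E.v h
    rwa [E.v_inf, E.v_abs, E.v_abs, E.v_zero] at this
  have h2 : (|a.v| ⊓ |b.v| : L2) =ᵐ[mu] fun _ => 0 := by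
    rw [h1]; exact Lp.coeFn_zero ℝ 2 mu
  filter_upwards [h2, Lp.coeFn_inf |a.v| |b.v|, Lp.coeFn_abs a.v, Lp.coeFn_abs b.v]
    with t h3 h4 h5 h6
  rw [h4, Pi.inf_apply, h5, h6] at h3
  rcases le_total |a.v t| |b.v t| with h | h
  · rw [inf_eq_left.2 h] at h3
    rw [abs_eq_zero.1 h3, zero_mul]
  · rw [inf_eq_right.2 h] at h3
    rw [abs_eq_zero.1 h3, mul_zero]

lemma setInt_eq {B : Set ℝ} (hB : MeasurableSet B) (f : ℝ → ℝ) :
    ∫ t in B, f t ∂mu = pr (indicator B 1) f := by
  rw [← integral_indicator hB]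
  unfold pr
  congr 1; funext t
  by_cases h : t ∈ B <;> simp [h]

/-- A property stable under closed spans. -/
lemma ae_of_closure {x : ℕ → E} {z : E} {κ : E →L[ℝ] ℝ}
    (hx : ∀ n, (fun t => z.v t * (x n).v t) =ᵐ[mu] fun t => κ (x n) * sqf z.v t) :
    ∀ w ∈ (Submodule.span ℝ (Set.range x)).topologicalClosure,
      (fun t => z.v t * w.v t) =ᵐ[mu] fun t => κ w * sqf z.v t := by
  intro w hw
  have hB : ∀ B : Set ℝ, MeasurableSet B →
      pr (indicator B 1) (fun t => z.v t * w.v t) = κ w * pr (indicator B 1) (sqf z.v) := by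
    intro B hB
    set φ : E →L[ℝ] ℝ := (innerSL ℝ (mulL _ (bm_ind hB) z.v)).comp incl -
      (pr (indicator B 1) (sqf z.v)) • κ with hφ
    have hφa : ∀ y : E, φ y = pr (indicator B 1) (fun t => z.v t * y.v t) -
        pr (indicator B 1) (sqf z.v) * κ y := by
      intro y
      show inner ℝ (mulL _ (bm_ind hB) z.v) y.v - _ = _
      rw [inner_mulL]
      rfl
    have hle : (Submodule.span ℝ (Set.range x)).topologicalClosure ≤ LinearMap.ker φ.toLinearMap := by
      refine Submodule.topologicalClosure_minimal _ ?_ φ.isClosed_ker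
      rw [Submodule.span_le]
      rintro _ ⟨n, rfl⟩
      show φ (x n) = 0
      rw [hφa, pr_congr (hx n), pr_const_mul_right]
      ring
    have h1 : φ w = 0 := hle hw
    rw [hφa] at h1
    linarith
  refine Integrable.ae_eq_of_forall_setIntegral_eq _ _ (int_mul _ _)
    ((sqf_int z.v).const_mul _) fun B hBm _ => ?_
  rw [setInt_eq hBm, setInt_eq hBm, hB B hBm, pr_const_mul_right]

/-- The domination step. -/
lemma dom_step (P : E →L[ℝ] E) (z y : ℕ → E)
    (hκ : ∀ m w g, GG w g → (1 / 4) * pr g.1 (sqf (z m).v) ≤ pr g.1 (sqf (P (y m)).v))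
    (hyd : ∀ n m, n ≠ m → ∀ᵐ t ∂mu, (y n).v t * (y m).v t = 0)
    (F : Finset ℕ) (α : ℕ → ℝ) (hα : ∀ m, 0 ≤ α m) {C : ℝ}
    (hC : NB (fun t => ∑ m ∈ F, α m * sqf (y m).v t) C) :
    NB (fun t => ∑ m ∈ F, α m * sqf (z m).v t) (4 * ‖P‖ ^ 2 * C) := by
  intro w g hg
  obtain ⟨e, he, hle⟩ := signs hg.bm F (fun m => √(α m) • (P (y m)).v)
  set V : E := ∑ m ∈ F, (e m * √(α m)) • y m with hV
  have hPV : (P V).v = ∑ m ∈ F, e m • (√(α m) • (P (y m)).v) := by
    rw [hV, map_sum, ← incl_apply, map_sum]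
    refine Finset.sum_congr rfl fun m _ => ?_
    rw [map_smul, map_smul, incl_apply, mul_smul]
  have hVC : ‖V‖ ^ 2 ≤ C := by
    refine E.norm_sq_le (NB.congr ?_ hC)
    filter_upwards [sqf_sum_disj F y hyd (fun m => e m * √(α m))] with t ht
    rw [hV, ht]
    refine Finset.sum_congr rfl fun m _ => ?_
    rw [mul_pow, he m, Real.sq_sqrt (hα m), one_mul]
  have hPVn : ‖P V‖ ^ 2 ≤ ‖P‖ ^ 2 * C := by
    calc ‖P V‖ ^ 2 ≤ (‖P‖ * ‖V‖) ^ 2 := by
          have := P.le_opNorm V
          have h0 := norm_nonneg (P V)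
          gcongr
      _ = ‖P‖ ^ 2 * ‖V‖ ^ 2 := by rw [mul_pow]
      _ ≤ _ := by gcongr
  have h1 := E.nb (P V) w g hg
  rw [hPV] at h1
  have h2 : ∑ m ∈ F, α m * ((1 / 4) * pr g.1 (sqf (z m).v)) ≤
      ∑ m ∈ F, pr g.1 (sqf (√(α m) • (P (y m)).v)) := by
    refine Finset.sum_le_sum fun m _ => ?_
    rw [pr_sqf_smul, Real.sq_sqrt (hα m)]
    exact mul_le_mul_of_nonneg_left (hκ m w g hg) (hα m)
  have h3 : pr g.1 (fun t => ∑ m ∈ F, α m * sqf (z m).v t) =
      ∑ m ∈ F, α m * pr g.1 (sqf (z m).v) := by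
    rw [pr_sum' F hg.bm (fun m t => α m * sqf (z m).v t) fun m _ => (sqf_int _).const_mul _]
    exact Finset.sum_congr rfl fun m _ => pr_const_mul_right _
  have h4 : ∑ m ∈ F, α m * ((1 / 4) * pr g.1 (sqf (z m).v)) =
      (1 / 4) * ∑ m ∈ F, α m * pr g.1 (sqf (z m).v) := by
    rw [Finset.mul_sum]
    exact Finset.sum_congr rfl fun m _ => by ring
  rw [h3]
  linarith

lemma nsq_eq_one {z : E} (h : ‖z‖ = 1) : nsq z = 1 := by rw [← E.norm_sq, h, one_pow]

/-- No disjoint sequence spans a complemented subspace. -/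
theorem no_compl (x : ℕ → E) (hx0 : ∀ n, x n ≠ 0) (hd : ∀ n m, n ≠ m → |x n| ⊓ |x m| = 0)
    (hS : (Submodule.span ℝ (Set.range x)).topologicalClosure.ClosedComplemented) : False := by
  classical
  set S : Submodule ℝ E := (Submodule.span ℝ (Set.range x)).topologicalClosure with hSdef
  obtain ⟨P0, hP0⟩ := hS
  set P : E →L[ℝ] E := S.subtypeL.comp P0 with hP
  have hPmem : ∀ y, P y ∈ S := fun y => (P0 y).2
  have hPid : ∀ y ∈ S, P y = y := fun y hy => by
    show ((P0 y : S) : E) = y
    rw [hP0 ⟨y, hy⟩]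
  set z : ℕ → E := fun n => ‖x n‖⁻¹ • x n with hz
  have hx0' : ∀ n, 0 < ‖x n‖ := fun n => norm_pos_iff.2 (hx0 n)
  have hz1 : ∀ n, ‖z n‖ = 1 := fun n => by
    rw [hz]; simp only
    rw [norm_smul, norm_inv, norm_norm, inv_mul_cancel₀ (hx0' n).ne']
  have hxS : ∀ n, x n ∈ S := fun n =>
    (Submodule.le_topologicalClosure _) (Submodule.subset_span ⟨n, rfl⟩)
  have hzS : ∀ n, z n ∈ S := fun n => S.smul_mem _ (hxS n)
  have hxd : ∀ n m, n ≠ m → ∀ᵐ t ∂mu, (x n).v t * (x m).v t = 0 := fun n m h => disj_ae (hd n m h)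
  have hzae : ∀ n, (z n).v =ᵐ[mu] fun t => ‖x n‖⁻¹ * (x n).v t := fun n => by
    filter_upwards [Lp.coeFn_smul ‖x n‖⁻¹ (x n).v] with t ht
    exact ht
  have hzxd : ∀ n m, n ≠ m → ∀ᵐ t ∂mu, (z n).v t * (x m).v t = 0 := fun n m h => by
    filter_upwards [hzae n, hxd n m h] with t h1 h2
    rw [h1, mul_assoc, h2, mul_zero]
  have hzd : ∀ n m, n ≠ m → ∀ᵐ t ∂mu, (z n).v t * (z m).v t = 0 := fun n m h => by
    filter_upwards [hzae m, hzxd n m h] with t h1 h2
    rw [h1]
    calc (z n).v t * (‖x m‖⁻¹ * (x m).v t) = ‖x m‖⁻¹ * ((z n).v t * (x m).v t) := by ring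
      _ = 0 := by rw [h2, mul_zero]
  have hzv : ∀ n, (z n).v ≠ 0 := fun n h => by
    have h1 : z n = 0 := E.v_inj h
    have h2 := hz1 n
    rw [h1, norm_zero] at h2
    exact zero_ne_one h2
  have hzvn : ∀ n, 0 < ‖(z n).v‖ ^ 2 := fun n => by
    have := norm_pos_iff.2 (hzv n)
    positivity
  -- the coefficient functionals
  set κ : ℕ → E →L[ℝ] ℝ := fun m =>
    (‖(z m).v‖ ^ 2)⁻¹ • ((innerSL ℝ (z m).v).comp incl) with hκ
  have hκa : ∀ m y, κ m y = (‖(z m).v‖ ^ 2)⁻¹ * inner ℝ (z m).v y.v := fun m y => rfl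
  have hκz : ∀ m, κ m (z m) = 1 := fun m => by
    rw [hκa, real_inner_self_eq_norm_sq, inv_mul_cancel₀ (hzvn m).ne']
  have hκS : ∀ m, ∀ w ∈ S, (fun t => (z m).v t * w.v t) =ᵐ[mu] fun t => κ m w * sqf (z m).v t := by
    intro m
    refine ae_of_closure fun n => ?_
    by_cases h : m = n
    · subst h
      have h1 : κ m (x m) = ‖x m‖ := by
        have h2 : x m = ‖x m‖ • z m := by
          rw [hz]; simp only
          rw [smul_smul, mul_inv_cancel₀ (hx0' m).ne', one_smul]
        rw [h2, map_smul, hκz, smul_eq_mul, mul_one, ← h2]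
      rw [h1]
      filter_upwards [hzae m] with t ht
      unfold sqf
      have h3 : (x m).v t = ‖x m‖ * (z m).v t := by
        rw [ht, ← mul_assoc, mul_inv_cancel₀ (hx0' m).ne', one_mul]
      rw [h3]; ring
    · have h1 : κ m (x n) = 0 := by
        rw [hκa, inner_eq, integral_congr_ae (hzxd m n h), integral_zero, mul_zero]
      rw [h1]
      filter_upwards [hzxd m n h] with t ht
      rw [ht, zero_mul]
  -- members of `S` dominate
  have hSdom : ∀ m, ∀ v ∈ S, ∀ w g, GG w g →
      κ m v ^ 2 * pr g.1 (sqf (z m).v) ≤ pr g.1 (sqf v.v) := by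
    intro m v hv w g hg
    rw [← pr_const_mul_right]
    refine pr_mono_ae hg.bm ((sqf_int _).const_mul _) (sqf_int _) ?_
    filter_upwards [hκS m v hv] with t ht
    unfold sqf at ht ⊢
    by_cases h : (z m).v t = 0
    · rw [h]; nlinarith [sq_nonneg (v.v t)]
    · have h1 : v.v t = κ m v * (z m).v t := by
        apply mul_left_cancel₀ h
        rw [ht]; ring
      rw [h1]; exact le_of_eq (by ring)
  -- splitting
  have hsplit : ∀ m, ∃ t : ℝ, κ m (P (res (Iic t) measurableSet_Iic (z m))) = 1 / 2 :=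
    fun m => exists_split (z m) (κ m) P (by rw [hPid _ (hzS m), hκz])
  choose τ hτ using hsplit
  set y : ℕ → E := fun m => res (Iic (τ m)) measurableSet_Iic (z m) with hy
  set y' : ℕ → E := fun m => z m - y m with hy'
  have hyκ : ∀ m, κ m (P (y m)) = 1 / 2 := hτ
  have hy'κ : ∀ m, κ m (P (y' m)) = 1 / 2 := fun m => by
    rw [hy']; simp only
    rw [map_sub, map_sub, hyκ, hPid _ (hzS m), hκz]; norm_num
  have hyae : ∀ m, (y m).v =ᵐ[mu] fun t => indicator (Iic (τ m)) 1 t * (z m).v t :=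
    fun m => res_ae _ _
  have hy'ae : ∀ m, (y' m).v =ᵐ[mu] fun t => indicator (Ioi (τ m)) 1 t * (z m).v t := fun m => by
    filter_upwards [hyae m, Lp.coeFn_sub (z m).v (y m).v] with t h1 h2
    rw [hy']; simp only
    rw [E.v_sub, h2, Pi.sub_apply, h1]
    by_cases h : t ≤ τ m
    · have h3 : ¬ τ m < t := not_lt.2 h
      simp [indicator, h, h3]
    · have h3 : τ m < t := not_le.1 h
      simp [indicator, h, h3]
  have hyd : ∀ n m, n ≠ m → ∀ᵐ t ∂mu, (y n).v t * (y m).v t = 0 := fun n m h => by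
    filter_upwards [hyae n, hyae m, hzd n m h] with t h1 h2 h3
    rw [h1, h2]
    calc _ = indicator (Iic (τ n)) 1 t * indicator (Iic (τ m)) 1 t *
          ((z n).v t * (z m).v t) := by ring
      _ = 0 := by rw [h3, mul_zero]
  have hy'd : ∀ n m, n ≠ m → ∀ᵐ t ∂mu, (y' n).v t * (y' m).v t = 0 := fun n m h => by
    filter_upwards [hy'ae n, hy'ae m, hzd n m h] with t h1 h2 h3
    rw [h1, h2]
    calc _ = indicator (Ioi (τ n)) 1 t * indicator (Ioi (τ m)) 1 t *
          ((z n).v t * (z m).v t) := by ring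
      _ = 0 := by rw [h3, mul_zero]
  have hquart : ∀ (u : ℕ → E), (∀ m, κ m (P (u m)) = 1 / 2) → ∀ m w g, GG w g →
      (1 / 4) * pr g.1 (sqf (z m).v) ≤ pr g.1 (sqf (P (u m)).v) := by
    intro u hu m w g hg
    have := hSdom m _ (hPmem (u m)) w g hg
    rw [hu m] at this
    refine le_trans (le_of_eq ?_) this
    ring
  -- constants
  set K0 : ℝ := 4 * ‖P‖ ^ 2 + 1 with hK0
  have hK01 : 1 ≤ K0 := by rw [hK0]; have : 0 ≤ 4 * ‖P‖ ^ 2 := by positivity
                           linarith
  have hK0pos : 0 < K0 := by linarith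
  set X : ℕ → ℝ → ℝ := fun m => sqf (z m).v with hX
  have hXm : ∀ m, Measurable (X m) := fun m => (meas2 (z m).v).pow_const 2
  have hX0 : ∀ m t, 0 ≤ X m t := fun m t => sqf_nn _ t
  have hXi : ∀ m, Integrable (X m) mu := fun m => sqf_int _
  have hX1 : ∀ m, NB (X m) 1 := fun m => by
    have := E.nb (z m)
    rwa [hz1 m, one_pow] at this
  have hcut : ∀ m, ∃ M : ℕ, NB (fun t => indicator {t | (M : ℝ) < X m t} (X m) t)
      ((1 / 2) ^ m / (4 * K0)) := fun m =>
    order_cont (hXm m) (hX0 m) (hXi m) (hX1 m) (by positivity)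
  choose M hM using hcut
  -- supports
  set D : ℕ → Set ℝ := fun m => {t | (z m).v t ≠ 0} ∩ ⋂ l ∈ Finset.range m, {t | (z l).v t = 0}
    with hD
  have hDm : ∀ m, MeasurableSet (D m) := by
    intro m
    refine MeasurableSet.inter ?_ ?_
    · exact ((meas2 (z m).v) (measurableSet_singleton 0)).compl
    · exact Finset.measurableSet_biInter _ fun l _ =>
        (meas2 (z l).v) (measurableSet_singleton 0)
  have hDdisj : ∀ n m, ∀ t, t ∈ D n → t ∈ D m → n = m := by
    intro n m t hn hm
    rcases lt_trichotomy n m with h | h | h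
    · have := (mem_iInter₂.1 hm.2) n (Finset.mem_range.2 h)
      exact absurd this hn.1
    · exact h
    · have := (mem_iInter₂.1 hn.2) m (Finset.mem_range.2 h)
      exact absurd this hm.1
  have hall : ∀ᵐ t ∂mu, ∀ n m, n ≠ m → (z n).v t * (z m).v t = 0 := by
    rw [ae_all_iff]; intro n
    rw [ae_all_iff]; intro m
    by_cases h : n = m
    · exact Eventually.of_forall fun t h' => absurd h h'
    · filter_upwards [hzd n m h] with t ht _
      exact ht
  have hDae : ∀ m, ∀ᵐ t ∂mu, t ∉ D m → (z m).v t = 0 := by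
    intro m
    filter_upwards [hall] with t ht hD'
    by_contra h
    apply hD'
    refine ⟨h, mem_iInter₂.2 fun l hl => ?_⟩
    have hlm : l ≠ m := by have := Finset.mem_range.1 hl; omega
    have := ht l m hlm
    rcases mul_eq_zero.1 this with h1 | h1
    · exact h1
    · exact absurd h1 h
  have hGm : ∀ m, MeasurableSet {t | X m t ≤ M m} := fun m =>
    measurableSet_le (hXm m) measurable_const
  set Yf : ℕ → ℝ → ℝ := fun m => indicator ((D m ∩ Iic (τ m)) ∩ {t | X m t ≤ M m}) (X m) with hYf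
  set Zf : ℕ → ℝ → ℝ := fun m => indicator ((D m ∩ Ioi (τ m)) ∩ {t | X m t ≤ M m}) (X m) with hZf
  set A : Set ℝ := ⋃ m, D m ∩ Iic (τ m) with hA
  have mA : MeasurableSet A := MeasurableSet.iUnion fun m => (hDm m).inter measurableSet_Iic
  have bmgen : ∀ m (B : Set ℝ), MeasurableSet B → B ⊆ {t | X m t ≤ M m} →
      BM (indicator B (X m)) := by
    intro m B hB hBM
    refine ⟨(hXm m).indicator hB, fun t => ?_, M m, fun t => ?_⟩
    · by_cases h : t ∈ B
      · rw [indicator_of_mem h]; exact hX0 m t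
      · rw [indicator_of_notMem h]
    · by_cases h : t ∈ B
      · rw [indicator_of_mem h]; exact hBM h
      · rw [indicator_of_notMem h]; exact Nat.cast_nonneg _
  have bmY : ∀ m, BM (Yf m) := fun m =>
    bmgen m _ (((hDm m).inter measurableSet_Iic).inter (hGm m)) inter_subset_right
  have bmZ : ∀ m, BM (Zf m) := fun m =>
    bmgen m _ (((hDm m).inter measurableSet_Ioi).inter (hGm m)) inter_subset_right
  have Yoff : ∀ n, ∀ t ∉ A, Yf n t = 0 := by
    intro n t ht
    refine indicator_of_notMem (fun h => ht ?_) _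
    exact mem_iUnion.2 ⟨n, h.1⟩
  have Zoff : ∀ n, ∀ t ∈ A, Zf n t = 0 := by
    intro n t ht
    refine indicator_of_notMem (fun h => ?_) _
    obtain ⟨l, hl⟩ := mem_iUnion.1 ht
    have h1 : l = n := hDdisj l n t hl.1 h.1.1
    subst h1
    have h3 : τ l < t := h.1.2
    have h4 : t ≤ τ l := hl.2
    linarith
  have indle : ∀ m (B : Set ℝ) t, indicator B (X m) t ≤ X m t := by
    intro m B t
    by_cases h : t ∈ B
    · rw [indicator_of_mem h]
    · rw [indicator_of_notMem h]; exact hX0 m t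
  have hYX : ∀ m t, Yf m t ≤ X m t := fun m t => indle m _ t
  have hZX : ∀ m t, Zf m t ≤ X m t := fun m t => indle m _ t
  set W : ℕ → ℝ → ℝ := fun m t => indicator {t | (M m : ℝ) < X m t} (X m) t with hW
  have hWi : ∀ m, Integrable (W m) mu := fun m =>
    (hXi m).indicator (measurableSet_lt measurable_const (hXm m))
  have hsqY : ∀ m, sqf (y m).v ≤ᵐ[mu] fun t => Yf m t + W m t := by
    intro m
    filter_upwards [hyae m, hDae m] with t h1 h2
    have e1 : sqf (y m).v t = indicator (Iic (τ m)) 1 t * X m t := by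
      rw [hX]; unfold sqf; rw [h1]
      by_cases h : t ∈ Iic (τ m) <;> simp [indicator, h]
    have hX0' := hX0 m t
    rw [e1]
    have hY0 := (bmY m).nn t
    have hW0 : 0 ≤ W m t := by
      show 0 ≤ indicator {t | (M m : ℝ) < X m t} (X m) t
      by_cases h : t ∈ {t | (M m : ℝ) < X m t}
      · rw [indicator_of_mem h]; exact hX0'
      · rw [indicator_of_notMem h]
    by_cases hI : t ∈ Iic (τ m)
    · rw [indicator_of_mem hI, Pi.one_apply, one_mul]
      by_cases hDt : t ∈ D m
      · by_cases hMt : X m t ≤ M m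
        · have h3 : Yf m t = X m t := indicator_of_mem
            (show t ∈ (D m ∩ Iic (τ m)) ∩ {t | X m t ≤ M m} from ⟨⟨hDt, hI⟩, hMt⟩) _
          rw [h3]; linarith
        · have h3 : W m t = X m t := indicator_of_mem
            (show t ∈ {t | (M m : ℝ) < X m t} from not_le.1 hMt) _
          rw [h3]; linarith
      · have h3 : X m t = 0 := by
          show sqf (z m).v t = 0
          unfold sqf; rw [h2 hDt]; norm_num
        rw [h3]; linarith
    · rw [indicator_of_notMem hI, zero_mul]; linarith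
  have hsqZ : ∀ m, sqf (y' m).v ≤ᵐ[mu] fun t => Zf m t + W m t := by
    intro m
    filter_upwards [hy'ae m, hDae m] with t h1 h2
    have e1 : sqf (y' m).v t = indicator (Ioi (τ m)) 1 t * X m t := by
      rw [hX]; unfold sqf; rw [h1]
      by_cases h : t ∈ Ioi (τ m) <;> simp [indicator, h]
    have hX0' := hX0 m t
    rw [e1]
    have hZ0 := (bmZ m).nn t
    have hW0 : 0 ≤ W m t := by
      show 0 ≤ indicator {t | (M m : ℝ) < X m t} (X m) t
      by_cases h : t ∈ {t | (M m : ℝ) < X m t}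
      · rw [indicator_of_mem h]; exact hX0'
      · rw [indicator_of_notMem h]
    by_cases hI : t ∈ Ioi (τ m)
    · rw [indicator_of_mem hI, Pi.one_apply, one_mul]
      by_cases hDt : t ∈ D m
      · by_cases hMt : X m t ≤ M m
        · have h3 : Zf m t = X m t := indicator_of_mem
            (show t ∈ (D m ∩ Ioi (τ m)) ∩ {t | X m t ≤ M m} from ⟨⟨hDt, hI⟩, hMt⟩) _
          rw [h3]; linarith
        · have h3 : W m t = X m t := indicator_of_mem
            (show t ∈ {t | (M m : ℝ) < X m t} from not_le.1 hMt) _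
          rw [h3]; linarith
      · have h3 : X m t = 0 := by
          show sqf (z m).v t = 0
          unfold sqf; rw [h2 hDt]; norm_num
        rw [h3]; linarith
    · rw [indicator_of_notMem hI, zero_mul]; linarith
  -- the vectors
  set V : (ℕ →₀ ℝ) → E := fun u => ∑ m ∈ u.support, √(u m) • z m with hV
  have hVsq : ∀ u : ℕ →₀ ℝ, 0 ≤ u → sqf (V u).v =ᵐ[mu]
      fun t => ∑ m ∈ u.support, u m * X m t := by
    intro u hu
    filter_upwards [sqf_sum_disj u.support z hzd (fun m => √(u m))] with t ht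
    rw [hV]; simp only
    rw [ht]
    refine Finset.sum_congr rfl fun m _ => ?_
    rw [Real.sq_sqrt (hu m)]
  -- upper domination
  have hup : ∀ (T : ℕ → ℝ → ℝ), (∀ m, BM (T m)) → (∀ m t, T m t ≤ X m t) →
      ∀ u : ℕ →₀ ℝ, 0 ≤ u → NB (ev T u) (nsq (V u)) := by
    intro T hT hTX u hu w g hg
    refine le_trans ?_ (nb_nsq (V u) w g hg)
    rw [pr_congr (hVsq u hu)]
    have hI : Integrable (fun t => ∑ m ∈ u.support, u m * X m t) mu :=
      integrable_finsetSum _ fun m _ => (hXi m).const_mul _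
    refine pr_mono_ae hg.bm (ev_bm hT hu).integrable hI (Eventually.of_forall fun t => ?_)
    rw [ev_apply]
    exact Finset.sum_le_sum fun m _ => mul_le_mul_of_nonneg_left (hTX m t) (hu m)
  -- lower domination
  have hlow : ∀ (T : ℕ → ℝ → ℝ) (r : ℕ → E), (∀ m, BM (T m)) →
      (∀ m, sqf (r m).v ≤ᵐ[mu] fun t => T m t + W m t) →
      (∀ n m, n ≠ m → ∀ᵐ t ∂mu, (r n).v t * (r m).v t = 0) → (∀ m, κ m (P (r m)) = 1 / 2) →
      ∀ u : ℕ →₀ ℝ, 0 ≤ u → ∀ C, NB (ev T u) C → nsq (V u) ≤ 2 * K0 * C := by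
    intro T r hT hr hrd hrκ u hu C hC
    have hC0 : 0 ≤ C := hC.nonneg (ev_bm hT hu)
    set s := ∑ m ∈ u.support, u m * ((1 / 2) ^ m / (4 * K0)) with hs
    have hs0 : 0 ≤ s := Finset.sum_nonneg fun m _ => mul_nonneg (hu m) (by positivity)
    have h1 : NB (fun t => ∑ m ∈ u.support, u m * sqf (r m).v t) (C + s) := by
      intro w g hg
      rw [pr_sum' u.support hg.bm (fun m t => u m * sqf (r m).v t)
        fun m _ => (sqf_int _).const_mul _]
      have h2 : pr g.1 (ev T u) = ∑ m ∈ u.support, u m * pr g.1 (T m) := by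
        have e : ev T u = fun t => ∑ n ∈ u.support, u n * T n t := funext (ev_apply T u)
        rw [e, pr_sum' u.support hg.bm (fun m t => u m * T m t)
          fun m _ => (hT m).integrable.const_mul _]
        exact Finset.sum_congr rfl fun m _ => pr_const_mul_right _
      calc ∑ m ∈ u.support, pr g.1 (fun t => u m * sqf (r m).v t) ≤
          ∑ m ∈ u.support, (u m * pr g.1 (T m) + u m * ((1 / 2) ^ m / (4 * K0))) := by
            refine Finset.sum_le_sum fun m _ => ?_
            rw [pr_const_mul_right, ← mul_add]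
            refine mul_le_mul_of_nonneg_left ?_ (hu m)
            have h3 := pr_mono_ae hg.bm (sqf_int _) ((hT m).integrable.add (hWi m)) (hr m)
            have h4 : pr g.1 (T m + W m) = pr g.1 (T m) + pr g.1 (W m) :=
              pr_add' hg.bm (hT m).integrable (hWi m)
            have h5 := hM m w g hg
            have h6 : pr g.1 (fun t => T m t + W m t) = pr g.1 (T m) + pr g.1 (W m) :=
              pr_add' hg.bm (hT m).integrable (hWi m)
            have h7 : pr g.1 (sqf (r m).v) ≤ pr g.1 (T m) + pr g.1 (W m) := by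
              rw [← h6]; exact h3
            exact h7.trans (add_le_add le_rfl h5)
        _ = pr g.1 (ev T u) + s := by rw [Finset.sum_add_distrib, h2]
        _ ≤ C + s := by
          have := hC w g hg
          linarith
    have h2 := dom_step P z r (hquart r hrκ) hrd u.support u hu h1
    have h3 : nsq (V u) ≤ 4 * ‖P‖ ^ 2 * (C + s) := by
      refine nsq_le (NB.congr (hVsq u hu).symm h2)
    have h4 : nsq (V u) ≤ K0 * (C + s) := by
      refine h3.trans ?_
      have : 0 ≤ C + s := by linarith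
      rw [hK0]; nlinarith
    have h5 : ∀ m, u m ≤ nsq (V u) := by
      intro m
      by_cases hm : m ∈ u.support
      · have e1 : ‖√(u m) • z m‖ ≤ ‖V u‖ := by
          refine E.norm_mono ?_
          filter_upwards [hVsq u hu, sqf_smul (√(u m)) (z m).v] with t h1 h2
          rw [E.v_smul, h2, h1, Real.sq_sqrt (hu m)]
          exact Finset.single_le_sum (f := fun m => u m * X m t)
            (fun i _ => mul_nonneg (hu i) (hX0 i t)) hm
        rw [norm_smul, hz1, mul_one, Real.norm_eq_abs, abs_of_nonneg (Real.sqrt_nonneg _)] at e1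
        have e2 : √(u m) ^ 2 ≤ ‖V u‖ ^ 2 := pow_le_pow_left₀ (Real.sqrt_nonneg _) e1 2
        rwa [Real.sq_sqrt (hu m), E.norm_sq] at e2
      · rw [Finsupp.notMem_support_iff.1 hm]; exact nsq_nonneg _
    have h6 : s ≤ nsq (V u) / (2 * K0) := by
      calc s ≤ ∑ m ∈ u.support, nsq (V u) * ((1 / 2) ^ m / (4 * K0)) := by
            refine Finset.sum_le_sum fun m _ => ?_
            have := h5 m
            gcongr
        _ = nsq (V u) / (4 * K0) * ∑ m ∈ u.support, (1 / 2) ^ m := by
            rw [Finset.mul_sum]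
            exact Finset.sum_congr rfl fun m _ => by ring
        _ ≤ nsq (V u) / (4 * K0) * (2 * (1 / 2) ^ 0) := by
            have := nsq_nonneg (V u)
            gcongr
            exact sum_half_pow_le _ (fun m => m) 0 (fun a _ b _ h => h) (fun _ _ => Nat.zero_le _)
        _ = _ := by field_simp; norm_num
    have h7 : K0 * s ≤ nsq (V u) / 2 := by
      calc K0 * s ≤ K0 * (nsq (V u) / (2 * K0)) := by gcongr
        _ = _ := by field_simp
    nlinarith
  have hYlow := hlow Yf y bmY hsqY hyd hyκ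
  have hZlow := hlow Zf y' bmZ hsqZ hy'd hy'κ
  have hV1 : ∀ n, nsq (V (Finsupp.single n 1)) = 1 := by
    intro n
    have : V (Finsupp.single n 1) = z n := by
      rw [hV]; simp only
      rw [Finsupp.support_single _ one_ne_zero, Finset.sum_singleton, Finsupp.single_eq_same,
        Real.sqrt_one, one_smul]
    rw [this]
    exact nsq_eq_one (hz1 n)
  refine core (K := 2 * K0) (δ := 1 / (4 * K0)) (by linarith) (by positivity) mA bmY bmZ Yoff Zoff
    (fun n => ?_) (fun n => ?_) (fun u hu C hC => ?_) (fun u hu C hC => ?_) ?_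
  · intro w g hg
    exact (pr_mono_ae hg.bm (bmY n).integrable (hXi n)
      (Eventually.of_forall (hYX n))).trans (hX1 n w g hg)
  · by_contra hcon
    push Not at hcon
    have h1 : NB (ev Yf (Finsupp.single n 1)) (1 / (4 * K0)) := by
      rw [ev_single]
      exact fun w g hg => (hcon w g hg).le
    have h2 := hYlow (Finsupp.single n 1) (by simp) _ h1
    rw [hV1] at h2
    have h3 : 2 * K0 * (1 / (4 * K0)) = 1 / 2 := by field_simp; norm_num
    rw [h3] at h2
    norm_num at h2
  · exact (hup Yf bmY hYX u hu).mono (hZlow u hu C hC)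
  · exact (hup Zf bmZ hZX u hu).mono (hYlow u hu C hC)
  · intro p
    -- the measures of the supports tend to zero
    have hsum : ∀ N : ℕ, ∑ n ∈ Finset.range N, mu.real (D n) ≤ 1 := by
      intro N
      rw [← measureReal_biUnion_finset]
      · exact measureReal_le_one
      · intro n _ m _ hnm
        exact Set.disjoint_left.2 fun t h1 h2 => hnm (hDdisj n m t h1 h2)
      · exact fun n _ => hDm n
    obtain ⟨n, hn⟩ : ∃ n, mu.real (D n) < (1 / 4) ^ p := by
      by_contra hcon
      push Not at hcon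
      obtain ⟨N, hN⟩ := exists_nat_gt (1 / (1 / 4 : ℝ) ^ p)
      have h1 := hsum N
      have h2 : (N : ℝ) * (1 / 4) ^ p ≤ ∑ n ∈ Finset.range N, mu.real (D n) := by
        calc (N : ℝ) * (1 / 4) ^ p = ∑ n ∈ Finset.range N, (1 / 4 : ℝ) ^ p := by
              rw [Finset.sum_const, Finset.card_range, nsmul_eq_mul]
          _ ≤ _ := Finset.sum_le_sum fun n _ => hcon n
      rw [div_lt_iff₀ (by positivity)] at hN
      linarith
    have h1 := small_set (hXm n) (hX0 n) (hXi n) (hX1 n) p (hDm n) hn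
    rw [mul_one] at h1
    have hle : ∀ (B : Set ℝ), MeasurableSet B → B ⊆ D n →
        ∫ t, indicator B (X n) t ∂mu ≤ (1 / 2) ^ p := by
      intro B hB hBD
      refine le_trans (integral_mono ((hXi n).indicator hB) ((bm_ind (hDm n)).mul_int (hXi n))
        fun t => ?_) h1
      by_cases h : t ∈ B
      · simp [h, hBD h]
      · rw [indicator_of_notMem h]
        exact mul_nonneg ((bm_ind (hDm n)).nn t) (hX0 n t)
    refine ⟨n, hle _ (((hDm n).inter measurableSet_Iic).inter (hGm n)) ?_,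
      hle _ (((hDm n).inter measurableSet_Ioi).inter (hGm n)) ?_⟩
    · exact fun t h => h.1.1
    · exact fun t h => h.1.1

end

end Pool.Agent.H13.BL
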