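import Pool.Agent.H13.BL.Norming

/-! The Banach lattice. -/

set_option autoImplicit false

namespace Pool.Agent.H13.BL

open MeasureTheory Set

noncomputable section

/-- products with bounded functions -/
lemma BM.mul_int {g X : ℝ → ℝ} (hg : BM g) (hX : Integrable X mu) :
    Integrable (fun t => g t * X t) mu := by
  obtain ⟨C, hC⟩ := hg.bd
  refine hX.bdd_mul (c := C) hg.meas.aestronglyMeasurable (Filter.Eventually.of_forall fun t => ?_)
  rw [Real.norm_eq_abs, abs_of_nonneg (hg.nn t)]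
  exact hC t

lemma pr_congr {g X X' : ℝ → ℝ} (h : X =ᵐ[mu] X') : pr g X = pr g X' :=
  integral_congr_ae (h.mono fun t ht => by simp only [ht])

lemma NB.congr {X X' : ℝ → ℝ} {C : ℝ} (h : X =ᵐ[mu] X') (hX : NB X C) : NB X' C :=
  fun w g hg => by rw [← pr_congr h]; exact hX w g hg

/-- monotonicity -/
lemma pr_mono_ae {g X Y : ℝ → ℝ} (hg : BM g) (hX : Integrable X mu) (hY : Integrable Y mu)
    (h : X ≤ᵐ[mu] Y) : pr g X ≤ pr g Y :=
  integral_mono_ae (hg.mul_int hX) (hg.mul_int hY)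
    (h.mono fun t ht => mul_le_mul_of_nonneg_left ht (hg.nn t))

lemma pr_add' {g X Y : ℝ → ℝ} (hg : BM g) (hX : Integrable X mu) (hY : Integrable Y mu) :
    pr g (fun t => X t + Y t) = pr g X + pr g Y := by
  unfold pr
  rw [← integral_add (hg.mul_int hX) (hg.mul_int hY)]
  congr 1; funext t; ring

lemma pr_sum' {ι : Type*} (s : Finset ι) {g : ℝ → ℝ} (hg : BM g) (f : ι → ℝ → ℝ)
    (hf : ∀ i ∈ s, Integrable (f i) mu) :
    pr g (fun t => ∑ i ∈ s, f i t) = ∑ i ∈ s, pr g (f i) := by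
  unfold pr
  rw [← integral_finsetSum s (fun i hi => (hg.mul_int (hf i hi)))]
  congr 1; funext t; rw [Finset.mul_sum]

/-- the Hilbert space -/
abbrev L2 : Type := Lp ℝ 2 mu

lemma meas2 (y : L2) : Measurable (y : ℝ → ℝ) := (Lp.stronglyMeasurable y).measurable

lemma int_sq (y : L2) : Integrable (fun t => (y t) ^ 2) mu := (Lp.memLp y).integrable_sq

lemma int_mul (x y : L2) : Integrable (fun t => x t * y t) mu := by
  refine Integrable.mono' ((int_sq x).add (int_sq y))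
    ((meas2 x).mul (meas2 y)).aestronglyMeasurable (Filter.Eventually.of_forall fun t => ?_)
  rw [Real.norm_eq_abs, abs_le]
  simp only [Pi.add_apply]
  constructor <;> nlinarith [sq_nonneg (x t + y t), sq_nonneg (x t - y t)]

/-- the square of a member of the Hilbert space, as a function -/
def sqf (y : L2) : ℝ → ℝ := fun t => (y t) ^ 2

lemma sqf_int (y : L2) : Integrable (sqf y) mu := int_sq y

lemma sqf_nn (y : L2) (t : ℝ) : 0 ≤ sqf y t := sq_nonneg _

lemma pr_sqf_nonneg {g : ℝ → ℝ} (hg : BM g) (y : L2) : 0 ≤ pr g (sqf y) :=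
  integral_nonneg fun t => mul_nonneg (hg.nn t) (sqf_nn y t)

/-- Cauchy-Schwarz -/
lemma pr_cs {g : ℝ → ℝ} (hg : BM g) (x y : L2) :
    (pr g (fun t => x t * y t)) ^ 2 ≤ pr g (sqf x) * pr g (sqf y) := by
  have key : ∀ s : ℝ, 0 ≤ pr g (sqf x) * (s * s) + (2 * pr g (fun t => x t * y t)) * s +
      pr g (sqf y) := by
    intro s
    have h1 : ∀ t, g t * (s * x t + y t) ^ 2 =
        (s * s) * (g t * sqf x t) + ((2 * s) * (g t * (x t * y t)) + g t * sqf y t) := by
      intro t; unfold sqf; ring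
    have h2 : 0 ≤ ∫ t, g t * (s * x t + y t) ^ 2 ∂mu :=
      integral_nonneg fun t => mul_nonneg (hg.nn t) (sq_nonneg _)
    simp only [h1] at h2
    rw [integral_add, integral_add, integral_const_mul, integral_const_mul] at h2
    · have e : pr g (sqf x) * (s * s) + (2 * pr g (fun t => x t * y t)) * s + pr g (sqf y) =
        (s * s) * (∫ t, g t * sqf x t ∂mu) +
          ((2 * s) * (∫ t, g t * (x t * y t) ∂mu) + ∫ t, g t * sqf y t ∂mu) := by
        unfold pr; ring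
      rw [e]; exact h2
    · exact (hg.mul_int (int_mul x y)).const_mul _
    · exact hg.mul_int (sqf_int y)
    · exact (hg.mul_int (sqf_int x)).const_mul _
    · exact ((hg.mul_int (int_mul x y)).const_mul _).add (hg.mul_int (sqf_int y))
  have h := discrim_le_zero key
  unfold discrim at h
  nlinarith

lemma pr_sqf_add_le {g : ℝ → ℝ} (hg : BM g) (x y : L2) :
    pr g (sqf (x + y)) ≤ 2 * pr g (sqf x) + 2 * pr g (sqf y) := by
  have h1 : sqf (x + y) =ᵐ[mu] fun t => (x t + y t) ^ 2 := by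
    filter_upwards [Lp.coeFn_add x y] with t ht
    simp only [sqf, ht, Pi.add_apply]
  have h2 : Integrable (fun t => 2 * sqf x t + 2 * sqf y t) mu :=
    ((sqf_int x).const_mul 2).add ((sqf_int y).const_mul 2)
  have h3 : pr g (sqf (x + y)) ≤ pr g (fun t => 2 * sqf x t + 2 * sqf y t) := by
    refine pr_mono_ae hg (sqf_int _) h2 ?_
    filter_upwards [h1] with t ht
    rw [ht]; unfold sqf
    nlinarith [sq_nonneg (x t - y t)]
  refine h3.trans (le_of_eq ?_)
  rw [pr_add' hg ((sqf_int x).const_mul 2) ((sqf_int y).const_mul 2), pr_const_mul_right,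
    pr_const_mul_right]

lemma sqf_smul (c : ℝ) (y : L2) : sqf (c • y) =ᵐ[mu] fun t => c ^ 2 * sqf y t := by
  filter_upwards [Lp.coeFn_smul c y] with t ht
  simp only [sqf, ht, Pi.smul_apply, smul_eq_mul]; ring

lemma pr_sqf_smul {g : ℝ → ℝ} (c : ℝ) (y : L2) :
    pr g (sqf (c • y)) = c ^ 2 * pr g (sqf y) := by
  rw [pr_congr (sqf_smul c y), pr_const_mul_right]

/-- The space as a subspace of the Hilbert space. -/
def EE : Submodule ℝ L2 where
  carrier := {y | ∃ C, NB (sqf y) C}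
  add_mem' := by
    rintro x y ⟨C, hC⟩ ⟨D, hD⟩
    refine ⟨2 * C + 2 * D, fun w g hg => (pr_sqf_add_le hg.bm x y).trans ?_⟩
    have := hC w g hg
    have := hD w g hg
    linarith
  zero_mem' := by
    refine ⟨0, fun w g hg => ?_⟩
    have h : sqf (0 : L2) =ᵐ[mu] fun _ => 0 := by
      filter_upwards [Lp.coeFn_zero ℝ 2 mu] with t ht
      simp [sqf, ht]
    rw [pr_congr h]
    simp [pr]
  smul_mem' := by
    rintro c y ⟨C, hC⟩
    refine ⟨c ^ 2 * C, fun w g hg => ?_⟩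
    rw [pr_sqf_smul]
    have := hC w g hg
    gcongr

lemma mem_EE {y : L2} : y ∈ EE ↔ ∃ C, NB (sqf y) C := Iff.rfl

/-- Our Banach lattice. -/
def E : Type := EE

instance : AddCommGroup E := inferInstanceAs (AddCommGroup EE)
instance : Module ℝ E := inferInstanceAs (Module ℝ EE)

/-- the inclusion -/
def E.v (y : E) : L2 := (show EE from y).1

lemma E.v_inj : Function.Injective E.v := Subtype.val_injective

lemma E.v_mem (y : E) : E.v y ∈ EE := (show EE from y).2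

@[simp] lemma E.v_add (x y : E) : (x + y).v = x.v + y.v := rfl
@[simp] lemma E.v_neg (x : E) : (-x).v = -x.v := rfl
@[simp] lemma E.v_sub (x y : E) : (x - y).v = x.v - y.v := rfl
@[simp] lemma E.v_smul (c : ℝ) (y : E) : (c • y).v = c • y.v := rfl
@[simp] lemma E.v_zero : (0 : E).v = 0 := rfl

/-- constructor -/
def E.mk (y : L2) (hy : y ∈ EE) : E := (⟨y, hy⟩ : EE)

@[simp] lemma E.v_mk (y : L2) (hy : y ∈ EE) : (E.mk y hy).v = y := rfl

/-- functionals as a type -/
def GSt : Type := {g : St // ∃ w, GG w g}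

instance : Nonempty GSt := ⟨⟨_, 0, GG.one⟩⟩

lemma GSt.bm (g : GSt) : BM g.1.1 := by
  obtain ⟨w, hw⟩ := g.2
  exact hw.bm

/-- the square of the norm -/
def nsq (y : E) : ℝ := ⨆ g : GSt, pr g.1.1 (sqf y.v)

lemma nsq_bdd (y : E) : BddAbove (range fun g : GSt => pr g.1.1 (sqf y.v)) := by
  obtain ⟨C, hC⟩ := y.v_mem
  refine ⟨C, ?_⟩
  rintro _ ⟨g, rfl⟩
  obtain ⟨w, hw⟩ := g.2
  exact hC w g.1 hw

lemma nb_nsq (y : E) : NB (sqf y.v) (nsq y) := fun w g hg =>
  le_ciSup (nsq_bdd y) (⟨g, w, hg⟩ : GSt)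

lemma nsq_le {y : E} {D : ℝ} (h : NB (sqf y.v) D) : nsq y ≤ D :=
  ciSup_le fun g => by
    obtain ⟨w, hw⟩ := g.2
    exact h w g.1 hw

lemma nsq_nonneg (y : E) : 0 ≤ nsq y :=
  (pr_sqf_nonneg GG.one.bm y.v).trans (nb_nsq y _ _ GG.one)

instance : Norm E := ⟨fun y => √(nsq y)⟩

lemma E.norm_def (y : E) : ‖y‖ = √(nsq y) := rfl

lemma E.norm_sq (y : E) : ‖y‖ ^ 2 = nsq y := by
  rw [E.norm_def, Real.sq_sqrt (nsq_nonneg y)]

lemma E.norm_nn (y : E) : 0 ≤ ‖y‖ := Real.sqrt_nonneg _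

lemma E.nb (y : E) : NB (sqf y.v) (‖y‖ ^ 2) := by rw [E.norm_sq]; exact nb_nsq y

lemma E.norm_sq_le {y : E} {D : ℝ} (h : NB (sqf y.v) D) : ‖y‖ ^ 2 ≤ D := by
  rw [E.norm_sq]; exact nsq_le h

lemma E.norm_le {y : E} {D : ℝ} (hD : 0 ≤ D) (h : NB (sqf y.v) (D ^ 2)) : ‖y‖ ≤ D := by
  have := E.norm_sq_le h
  exact (pow_le_pow_iff_left₀ (E.norm_nn y) hD (by norm_num)).1 this

/-- Cauchy-Schwarz for the norm -/
lemma E.pr_mul_le (x y : E) {w : ℕ} {g : St} (hg : GG w g) :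
    |pr g.1 (fun t => x.v t * y.v t)| ≤ ‖x‖ * ‖y‖ := by
  refine abs_le_of_sq_le_sq ?_ (mul_nonneg (E.norm_nn x) (E.norm_nn y))
  refine (pr_cs hg.bm x.v y.v).trans ?_
  rw [mul_pow]
  exact mul_le_mul (E.nb x w g hg) (E.nb y w g hg) (pr_sqf_nonneg hg.bm _) (sq_nonneg _)

lemma sqf_add (x y : L2) : sqf (x + y) =ᵐ[mu] fun t => sqf x t + (2 * (x t * y t) + sqf y t) := by
  filter_upwards [Lp.coeFn_add x y] with t ht
  simp only [sqf, ht, Pi.add_apply]; ring

lemma pr_sqf_add {g : ℝ → ℝ} (hg : BM g) (x y : L2) : pr g (sqf (x + y)) =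
    pr g (sqf x) + (2 * pr g (fun t => x t * y t) + pr g (sqf y)) := by
  have hI : Integrable (fun t => 2 * (x t * y t) + sqf y t) mu :=
    ((int_mul x y).const_mul 2).add (sqf_int y)
  rw [pr_congr (sqf_add x y), pr_add' hg (sqf_int x) hI,
    pr_add' hg ((int_mul x y).const_mul 2) (sqf_int y), pr_const_mul_right]

lemma E.norm_add_le' (x y : E) : ‖x + y‖ ≤ ‖x‖ + ‖y‖ := by
  refine E.norm_le (add_nonneg (E.norm_nn x) (E.norm_nn y)) fun w g hg => ?_
  rw [E.v_add, pr_sqf_add hg.bm]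
  have h1 := E.nb x w g hg
  have h2 := E.nb y w g hg
  have h3 := (abs_le.1 (E.pr_mul_le x y hg)).2
  nlinarith

lemma E.norm_smul' (c : ℝ) (y : E) : ‖c • y‖ = ‖c‖ * ‖y‖ := by
  have h : nsq (c • y) = c ^ 2 * nsq y := by
    unfold nsq
    rw [Real.mul_iSup_of_nonneg (sq_nonneg c)]
    congr 1; funext g
    rw [E.v_smul, pr_sqf_smul]
  rw [E.norm_def, E.norm_def, h, Real.sqrt_mul (sq_nonneg c), Real.sqrt_sq_eq_abs,
    Real.norm_eq_abs]

lemma integral_sqf_le (y : E) : ∫ t, sqf y.v t ∂mu ≤ ‖y‖ ^ 2 := by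
  have h := E.nb y _ _ GG.one
  have h2 : pr (fun _ => (1 : ℝ)) (sqf y.v) = ∫ t, sqf y.v t ∂mu := by
    unfold pr; simp
  rw [← h2]
  exact h

lemma norm_sq_L2 (y : L2) : ‖y‖ ^ 2 = ∫ t, sqf y t ∂mu := by
  rw [← real_inner_self_eq_norm_sq, L2.inner_def]
  congr 1; funext t
  rw [real_inner_self_eq_norm_sq, Real.norm_eq_abs, sq_abs]
  rfl

lemma E.norm_v_le (y : E) : ‖y.v‖ ≤ ‖y‖ := by
  have h := integral_sqf_le y
  rw [← norm_sq_L2] at h
  exact (pow_le_pow_iff_left₀ (norm_nonneg _) (E.norm_nn y) (by norm_num)).1 h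

lemma E.core : NormedSpace.Core ℝ E where
  norm_nonneg := E.norm_nn
  norm_smul := E.norm_smul'
  norm_triangle := E.norm_add_le'
  norm_eq_zero_iff := by
    intro y
    constructor
    · intro h
      apply E.v_inj
      have h1 := E.norm_v_le y
      rw [h] at h1
      rw [E.v_zero]
      exact norm_le_zero_iff.1 h1
    · rintro rfl
      have := E.norm_smul' 0 0
      simpa using this

instance : NormedAddCommGroup E := NormedAddCommGroup.ofCore E.core
instance : NormedSpace ℝ E := NormedSpace.ofCore E.core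

/-- the inclusion as a continuous linear map -/
def incl : E →L[ℝ] L2 :=
  LinearMap.mkContinuous
    { toFun := E.v
      map_add' := E.v_add
      map_smul' := fun c y => E.v_smul c y } 1 (fun y => by
        rw [one_mul]; exact E.norm_v_le y)

@[simp] lemma incl_apply (y : E) : incl y = y.v := rfl

/-- monotonicity of the norm -/
lemma E.norm_mono {x y : E} (h : sqf x.v ≤ᵐ[mu] sqf y.v) : ‖x‖ ≤ ‖y‖ :=
  E.norm_le (E.norm_nn y) fun w g hg =>
    (pr_mono_ae hg.bm (sqf_int _) (sqf_int _) h).trans (E.nb y w g hg)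

lemma mem_EE_of_le {y : L2} {X : ℝ → ℝ} (hX : Integrable X mu) {C : ℝ} (hC : NB X C)
    (h : sqf y ≤ᵐ[mu] X) : y ∈ EE :=
  ⟨C, fun w g hg => (pr_mono_ae hg.bm (sqf_int _) hX h).trans (hC w g hg)⟩

lemma sup_mem_EE ⦃x y : L2⦄ (hx : x ∈ EE) (hy : y ∈ EE) : x ⊔ y ∈ EE := by
  obtain ⟨C, hC⟩ := hx
  obtain ⟨D, hD⟩ := hy
  refine mem_EE_of_le ((sqf_int x).add (sqf_int y)) (C := C + D) (fun w g hg => ?_) ?_
  · have h := pr_add' hg.bm (sqf_int x) (sqf_int y)
    have := hC w g hg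
    have := hD w g hg
    show pr g.1 (fun t => sqf x t + sqf y t) ≤ _
    linarith
  · filter_upwards [Lp.coeFn_sup x y] with t ht
    simp only [sqf, ht, Pi.sup_apply, Pi.add_apply]
    rcases le_total (x t) (y t) with h | h
    · rw [sup_eq_right.2 h]; nlinarith [sq_nonneg (x t)]
    · rw [sup_eq_left.2 h]; nlinarith [sq_nonneg (y t)]

lemma inf_mem_EE ⦃x y : L2⦄ (hx : x ∈ EE) (hy : y ∈ EE) : x ⊓ y ∈ EE := by
  have h := EE.sub_mem (EE.add_mem hx hy) (sup_mem_EE hx hy)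
  have h2 : x + y - x ⊔ y = x ⊓ y := by
    have := inf_add_sup x y
    rw [← this]; abel
  rwa [h2] at h

instance : Lattice E := Subtype.lattice sup_mem_EE inf_mem_EE

lemma E.v_le {x y : E} : x ≤ y ↔ x.v ≤ y.v := Iff.rfl
lemma E.v_sup (x y : E) : (x ⊔ y).v = x.v ⊔ y.v := rfl
lemma E.v_inf (x y : E) : (x ⊓ y).v = x.v ⊓ y.v := rfl
lemma E.v_abs (x : E) : (|x|).v = |x.v| := rfl

instance : IsOrderedAddMonoid E where
  add_le_add_left := by
    intro a b h c
    rw [E.v_le] at h ⊢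
    rw [E.v_add, E.v_add]
    exact add_le_add_left h _

lemma le_iff_ae (x y : E) : x ≤ y ↔ ∀ᵐ t ∂mu, x.v t ≤ y.v t := by
  rw [E.v_le, ← Lp.coeFn_le]; rfl

instance : PosSMulMono ℝ E where
  smul_le_smul_of_nonneg_left := by
    intro c hc x y h
    rw [le_iff_ae] at h ⊢
    filter_upwards [h, Lp.coeFn_smul c x.v, Lp.coeFn_smul c y.v] with t h1 h2 h3
    rw [E.v_smul, E.v_smul, h2, h3]
    simp only [Pi.smul_apply, smul_eq_mul]
    exact mul_le_mul_of_nonneg_left h1 hc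

instance : HasSolidNorm E where
  solid := by
    intro x y h
    rw [le_iff_ae] at h
    refine E.norm_mono ?_
    filter_upwards [h, Lp.coeFn_abs x.v, Lp.coeFn_abs y.v] with t h1 h2 h3
    rw [E.v_abs, E.v_abs, h2, h3] at h1
    unfold sqf
    exact sq_le_sq.2 h1

end

end Pool.Agent.H13.BL
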