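import Pool.Agent.H13.BL.Estim

/-! Sums of disjoint vectors, signs, splitting. -/

set_option autoImplicit false

namespace Pool.Agent.H13.BL

open MeasureTheory Set Filter Topology

noncomputable section

lemma coe_sum (F : Finset ℕ) (y : ℕ → E) (c : ℕ → ℝ) :
    (∑ m ∈ F, c m • y m).v =ᵐ[mu] fun t => ∑ m ∈ F, c m * (y m).v t := by
  classical
  induction F using Finset.induction_on with
  | empty =>
    simp only [Finset.sum_empty, E.v_zero]
    exact Lp.coeFn_zero ℝ 2 mu
  | insert a F ha ih =>
    rw [Finset.sum_insert ha]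
    rw [E.v_add, E.v_smul]
    filter_upwards [ih, Lp.coeFn_add (c a • (y a).v) (∑ m ∈ F, c m • y m).v,
      Lp.coeFn_smul (c a) (y a).v] with t h1 h2 h3
    rw [h2, Pi.add_apply, h1, h3, Finset.sum_insert ha]
    rfl

lemma sq_sum_disj (F : Finset ℕ) (a : ℕ → ℝ) (h : ∀ m ∈ F, ∀ n ∈ F, m ≠ n → a m * a n = 0) :
    (∑ m ∈ F, a m) ^ 2 = ∑ m ∈ F, a m ^ 2 := by
  rw [pow_two, Finset.sum_mul_sum]
  refine Finset.sum_congr rfl fun m hm => ?_
  rw [Finset.sum_eq_single_of_mem m hm, pow_two]
  intro n hn hnm
  exact h m hm n hn hnm.symm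

/-- sums of disjoint vectors -/
lemma sqf_sum_disj (F : Finset ℕ) (y : ℕ → E)
    (hd : ∀ n m, n ≠ m → ∀ᵐ t ∂mu, (y n).v t * (y m).v t = 0) (c : ℕ → ℝ) :
    sqf (∑ m ∈ F, c m • y m).v =ᵐ[mu] fun t => ∑ m ∈ F, c m ^ 2 * sqf (y m).v t := by
  have hall : ∀ᵐ t ∂mu, ∀ n m, n ≠ m → (y n).v t * (y m).v t = 0 := by
    rw [ae_all_iff]; intro n
    rw [ae_all_iff]; intro m
    by_cases h : n = m
    · exact Eventually.of_forall fun t h' => absurd h h'
    · filter_upwards [hd n m h] with t ht _
      exact ht
  filter_upwards [coe_sum F y c, hall] with t h1 h2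
  unfold sqf
  rw [h1, sq_sum_disj]
  · exact Finset.sum_congr rfl fun m _ => by ring
  · intro m _ n _ hmn
    have := h2 m n hmn
    calc c m * (y m).v t * (c n * (y n).v t) = c m * c n * ((y m).v t * (y n).v t) := by ring
      _ = 0 := by rw [this, mul_zero]

/-- Choice of signs. -/
lemma signs {g : ℝ → ℝ} (hg : BM g) (F : Finset ℕ) (w : ℕ → L2) :
    ∃ e : ℕ → ℝ, (∀ m, e m ^ 2 = 1) ∧
      ∑ m ∈ F, pr g (sqf (w m)) ≤ pr g (sqf (∑ m ∈ F, e m • w m)) := by
  classical
  induction F using Finset.induction_on with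
  | empty =>
    refine ⟨fun _ => 1, fun _ => by norm_num, ?_⟩
    simp only [Finset.sum_empty]
    exact pr_sqf_nonneg hg _
  | insert a F ha ih =>
    obtain ⟨e, he, hle⟩ := ih
    set V := ∑ m ∈ F, e m • w m with hV
    set b := pr g (fun t => w a t * V t) with hb
    obtain ⟨s, hs1, hs2⟩ : ∃ s : ℝ, s ^ 2 = 1 ∧ 0 ≤ s * b := by
      rcases le_total 0 b with h | h
      · exact ⟨1, by norm_num, by linarith⟩
      · exact ⟨-1, by norm_num, by linarith⟩
    refine ⟨fun m => if m = a then s else e m, fun m => ?_, ?_⟩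
    · by_cases h : m = a
      · simp only [h, if_true]; exact hs1
      · simp only [h, if_false]; exact he m
    · rw [Finset.sum_insert ha, Finset.sum_insert ha]
      have h1 : ∑ m ∈ F, (if m = a then s else e m) • w m = V := by
        rw [hV]
        refine Finset.sum_congr rfl fun m hm => ?_
        have : m ≠ a := fun h => ha (h ▸ hm)
        rw [if_neg this]
      rw [h1]
      simp only [if_true]
      rw [pr_sqf_add hg, pr_sqf_smul, hs1, one_mul]
      have h2 : pr g (fun t => (s • w a) t * V t) = s * b := by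
        rw [hb, ← pr_const_mul_right]
        refine pr_congr ?_
        filter_upwards [Lp.coeFn_smul s (w a)] with t ht
        rw [ht]; simp only [Pi.smul_apply, smul_eq_mul]; ring
      rw [h2]
      linarith

lemma mu_Ioc_le (s t : ℝ) : mu.real (Ioc (min s t) (max s t)) ≤ |s - t| := by
  unfold mu
  have h1 : (volume.restrict (Icc (0:ℝ) 1)).real (Ioc (min s t) (max s t)) ≤
      volume.real (Ioc (min s t) (max s t)) := by
    unfold Measure.real
    exact ENNReal.toReal_mono (by simp) (Measure.restrict_apply_le _ _)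
  refine h1.trans (le_of_eq ?_)
  rw [Real.volume_real_Ioc_of_le (min_le_max), max_sub_min_eq_abs, abs_sub_comm]

/-- The restriction moves continuously. -/
lemma continuous_res (z : E) : Continuous (fun t : ℝ => res (Iic t) measurableSet_Iic z) := by
  rw [Metric.continuous_iff]
  intro t ε hε
  obtain ⟨η, hη, hη'⟩ := abs_cont ((meas2 z.v).pow_const 2) (sqf_nn z.v) (sqf_int z.v) (E.nb z)
    (show 0 < (ε / 2) ^ 2 by positivity)
  refine ⟨η, hη, fun s hs => ?_⟩
  rw [Real.dist_eq] at hs
  have h1 := hη' (Ioc (min s t) (max s t)) measurableSet_Ioc ((mu_Ioc_le s t).trans hs.le)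
  rw [dist_eq_norm]
  have h2 : ‖res (Iic s) measurableSet_Iic z - res (Iic t) measurableSet_Iic z‖ ≤ ε / 2 := by
    refine E.norm_le (by positivity) (NB.congr ?_ h1)
    filter_upwards [Lp.coeFn_sub (res (Iic s) measurableSet_Iic z).v
      (res (Iic t) measurableSet_Iic z).v, res_ae (measurableSet_Iic (a := s)) z,
      res_ae (measurableSet_Iic (a := t)) z] with r h3 h4 h5
    unfold sqf
    rw [E.v_sub, h3, Pi.sub_apply, h4, h5]
    by_cases ha : r ≤ s <;> by_cases hb : r ≤ t
    · have : r ∉ Ioc (min s t) (max s t) := fun h => by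
        have := h.1; rw [min_lt_iff] at this
        rcases this with h | h <;> linarith
      simp [indicator, ha, hb]
    · have : r ∈ Ioc (min s t) (max s t) := ⟨by rw [min_lt_iff]; right; linarith,
        by rw [le_max_iff]; left; exact ha⟩
      simp only [indicator, mem_Iic, ha, hb, this, if_true, if_false, Pi.one_apply]; ring
    · have : r ∈ Ioc (min s t) (max s t) := ⟨by rw [min_lt_iff]; left; linarith,
        by rw [le_max_iff]; right; exact hb⟩
      simp only [indicator, mem_Iic, ha, hb, this, if_true, if_false, Pi.one_apply]; ring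
    · have : r ∉ Ioc (min s t) (max s t) := fun h => by
        have := h.2; rw [le_max_iff] at this
        rcases this with h | h <;> contradiction
      simp only [indicator, mem_Iic, ha, hb, this, if_false]; ring
  linarith

lemma mem_unit_ae : ∀ᵐ t ∂mu, t ∈ Icc (0 : ℝ) 1 := ae_restrict_mem measurableSet_Icc

/-- Splitting in the middle. -/
lemma exists_split (z : E) (κ : E →L[ℝ] ℝ) (P : E →L[ℝ] E) (h : κ (P z) = 1) :
    ∃ t : ℝ, κ (P (res (Iic t) measurableSet_Iic z)) = 1 / 2 := by
  set φ : ℝ → ℝ := fun t => κ (P (res (Iic t) measurableSet_Iic z)) with hφ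
  have hc : Continuous φ := κ.continuous.comp (P.continuous.comp (continuous_res z))
  have h0 : φ (-1) = 0 := by
    have : res (Iic (-1)) measurableSet_Iic z = 0 := by
      apply E.v_inj
      rw [E.v_zero]
      apply Lp.ext
      filter_upwards [res_ae (measurableSet_Iic (a := (-1 : ℝ))) z, mem_unit_ae,
        Lp.coeFn_zero ℝ 2 mu] with t h1 h2 h3
      rw [h1, h3]
      have : ¬ t ≤ -1 := by have := h2.1; linarith
      simp [indicator, this]
    rw [hφ]; simp only [this, map_zero]
  have h1 : φ 1 = 1 := by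
    have : res (Iic 1) measurableSet_Iic z = z := by
      apply E.v_inj
      apply Lp.ext
      filter_upwards [res_ae (measurableSet_Iic (a := (1 : ℝ))) z, mem_unit_ae] with t h1 h2
      rw [h1]
      simp [indicator, h2.2]
    rw [hφ]; simp only [this]; exact h
  have h2 := intermediate_value_Icc (show (-1 : ℝ) ≤ 1 by norm_num) hc.continuousOn
  have h3 : (1 / 2 : ℝ) ∈ Icc (φ (-1)) (φ 1) := by rw [h0, h1]; constructor <;> norm_num
  obtain ⟨t, -, ht⟩ := h2 h3
  exact ⟨t, ht⟩

/-- the constant function -/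
lemma one_mem : (memLp_const (1 : ℝ) : MemLp (fun _ : ℝ => (1 : ℝ)) 2 mu).toLp ∈ EE := by
  refine ⟨2, fun w g hg => ?_⟩
  have h1 : sqf ((memLp_const (1 : ℝ) : MemLp (fun _ : ℝ => (1 : ℝ)) 2 mu).toLp) =ᵐ[mu]
      fun _ => 1 := by
    filter_upwards [MemLp.coeFn_toLp (memLp_const (1 : ℝ) : MemLp (fun _ : ℝ => (1 : ℝ)) 2 mu)]
      with t ht
    simp only [sqf, ht]; norm_num
  rw [pr_congr h1]
  unfold pr
  simp only [mul_one]
  exact hg.int_le

def oneE : E := E.mk _ one_mem

lemma oneE_ae : oneE.v =ᵐ[mu] fun _ => 1 :=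
  MemLp.coeFn_toLp (memLp_const (1 : ℝ) : MemLp (fun _ : ℝ => (1 : ℝ)) 2 mu)

lemma not_fd : ¬ FiniteDimensional ℝ E := by
  intro hfd
  set I : ℕ → Set ℝ := fun n => Ioc (1 / (n + 2) : ℝ) (1 / (n + 1)) with hI
  have hIm : ∀ n, MeasurableSet (I n) := fun n => measurableSet_Ioc
  set x : ℕ → E := fun n => res (I n) (hIm n) oneE with hx
  have hxae : ∀ n, (x n).v =ᵐ[mu] indicator (I n) 1 := by
    intro n
    filter_upwards [res_ae (hIm n) oneE, oneE_ae] with t h1 h2
    rw [hx]; simp only; rw [h1, h2, mul_one]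
  have hdisj : ∀ n m, n < m → Disjoint (I n) (I m) := by
    intro n m hnm
    rw [Set.disjoint_left]
    intro t ht ht'
    have h1 : (1 / (m + 1) : ℝ) ≤ 1 / (n + 2) := by
      apply one_div_le_one_div_of_le (by positivity)
      have : (n : ℝ) + 1 ≤ m := by exact_mod_cast hnm
      linarith
    have h2 := ht.1
    have h3 := ht'.2
    linarith
  have hli : LinearIndependent ℝ (fun n => (x n).v) := by
    refine linearIndependent_of_ne_zero_of_inner_eq_zero (𝕜 := ℝ) ?_ ?_
    · intro n h0
      have h1 : ∀ᵐ t ∂mu, indicator (I n) (1 : ℝ → ℝ) t = 0 := by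
        filter_upwards [hxae n, Lp.coeFn_zero ℝ 2 mu] with t h1 h2
        rw [← h1, h0, h2]; rfl
      have h2 : mu (I n) = 0 := by
        refine measure_mono_null (fun t ht => ?_) (ae_iff.1 h1)
        show ¬ _ = _
        simp [ht]
      have h3 : mu (I n) = volume (I n) := by
        unfold mu
        rw [Measure.restrict_apply (hIm n), inter_eq_left.2]
        intro t ht
        have e1 : (0 : ℝ) < 1 / (n + 2) := by positivity
        have e2 : (1 / (n + 1) : ℝ) ≤ 1 := by
          rw [div_le_one (by positivity)]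
          have : (0 : ℝ) ≤ n := Nat.cast_nonneg n
          linarith
        exact ⟨by linarith [ht.1], by linarith [ht.2]⟩
      rw [h3, hI, Real.volume_Ioc, ENNReal.ofReal_eq_zero] at h2
      have h4 : (1 / (n + 2) : ℝ) < 1 / (n + 1) := by
        apply one_div_lt_one_div_of_lt (by positivity); linarith
      linarith
    · intro n m hnm
      show inner ℝ (x n).v (x m).v = 0
      rw [inner_eq]
      have h1 : (fun t => (x n).v t * (x m).v t) =ᵐ[mu] fun _ => 0 := by
        filter_upwards [hxae n, hxae m] with t h1 h2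
        rw [h1, h2]
        have hd : Disjoint (I n) (I m) := by
          rcases lt_or_gt_of_ne hnm with h | h
          · exact hdisj n m h
          · exact (hdisj m n h).symm
        by_cases ht : t ∈ I n
        · have : t ∉ I m := Set.disjoint_left.1 hd ht
          simp [this]
        · simp [ht]
      rw [integral_congr_ae h1, integral_zero]
  have hli2 : LinearIndependent ℝ x := LinearIndependent.of_comp incl.toLinearMap hli
  exact (not_finite_iff_infinite.2 (inferInstance : Infinite ℕ)) hli2.finite_of_isNoetherian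

end

end Pool.Agent.H13.BL
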