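import Pool.Agent.H13.BL.Params

/-! Rational step functions on the line, the measure, pairings. -/

set_option autoImplicit false

namespace Pool.Agent.H13.BL

open MeasureTheory Set
open scoped ENNReal symmDiff

/-- Lebesgue measure on the unit interval, seen as a measure on the line. -/
noncomputable def mu : Measure ℝ := volume.restrict (Icc 0 1)

instance : IsProbabilityMeasure mu := by
  constructor
  simp [mu]


/-- a rational step function -/
def IsSt (f : ℝ → ℝ) : Prop :=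
  ∃ (F : Finset ℚ) (φ : Finset ℚ → ℚ), ∀ t, f t = φ (F.filter (fun q : ℚ => (q : ℝ) ≤ t))

lemma IsSt.const (q : ℚ) : IsSt (fun _ => (q : ℝ)) := ⟨∅, fun _ => q, fun _ => rfl⟩

lemma IsSt.op2 {f g : ℝ → ℝ} (hf : IsSt f) (hg : IsSt g) (op : ℝ → ℝ → ℝ) (opQ : ℚ → ℚ → ℚ)
    (h : ∀ a b : ℚ, op a b = (opQ a b : ℚ)) : IsSt (fun t => op (f t) (g t)) := by
  obtain ⟨F, φ, hφ⟩ := hf
  obtain ⟨G, ψ, hψ⟩ := hg
  refine ⟨F ∪ G, fun A => opQ (φ (A ∩ F)) (ψ (A ∩ G)), fun t => ?_⟩
  have h1 : (F ∪ G).filter (fun q : ℚ => (q : ℝ) ≤ t) ∩ F = F.filter (fun q : ℚ => (q : ℝ) ≤ t) := by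
    ext q; simp only [Finset.mem_inter, Finset.mem_filter, Finset.mem_union]; tauto
  have h2 : (F ∪ G).filter (fun q : ℚ => (q : ℝ) ≤ t) ∩ G = G.filter (fun q : ℚ => (q : ℝ) ≤ t) := by
    ext q; simp only [Finset.mem_inter, Finset.mem_filter, Finset.mem_union]; tauto
  simp only [h1, h2]
  rw [hφ, hψ, h]

lemma IsSt.add {f g : ℝ → ℝ} (hf : IsSt f) (hg : IsSt g) : IsSt (fun t => f t + g t) :=
  hf.op2 hg (fun a b => a + b) (fun a b => a + b) (fun a b => by push_cast; rfl)

lemma IsSt.mul {f g : ℝ → ℝ} (hf : IsSt f) (hg : IsSt g) : IsSt (fun t => f t * g t) :=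
  hf.op2 hg (fun a b => a * b) (fun a b => a * b) (fun a b => by push_cast; rfl)

lemma IsSt.sub {f g : ℝ → ℝ} (hf : IsSt f) (hg : IsSt g) : IsSt (fun t => f t - g t) :=
  hf.op2 hg (fun a b => a - b) (fun a b => a - b) (fun a b => by push_cast; rfl)

lemma IsSt.max {f g : ℝ → ℝ} (hf : IsSt f) (hg : IsSt g) : IsSt (fun t => max (f t) (g t)) :=
  hf.op2 hg (fun a b => Max.max a b) (fun a b => Max.max a b) (fun a b => by push_cast; rfl)

lemma IsSt.min {f g : ℝ → ℝ} (hf : IsSt f) (hg : IsSt g) : IsSt (fun t => min (f t) (g t)) :=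
  hf.op2 hg (fun a b => Min.min a b) (fun a b => Min.min a b) (fun a b => by push_cast; rfl)

lemma IsSt.sum {ι : Type*} (s : Finset ι) (f : ι → ℝ → ℝ) (hf : ∀ i ∈ s, IsSt (f i)) :
    IsSt (fun t => ∑ i ∈ s, f i t) := by
  classical
  induction s using Finset.induction_on with
  | empty => simpa using IsSt.const 0
  | insert i s hi ih =>
    have h1 := (hf i (Finset.mem_insert_self _ _)).add
      (ih (fun k hk => hf k (Finset.mem_insert_of_mem hk)))
    have h2 : (fun t => ∑ i ∈ insert i s, f i t) = fun t => f i t + ∑ i ∈ s, f i t := by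
      funext t; rw [Finset.sum_insert hi]
    rw [h2]; exact h1

lemma isSt_Ici (q : ℚ) : IsSt (indicator (Ici (q : ℝ)) 1) := by
  refine ⟨{q}, fun A => if q ∈ A then 1 else 0, fun t => ?_⟩
  by_cases h : (q : ℝ) ≤ t
  · have : ({q} : Finset ℚ).filter (fun q : ℚ => (q : ℝ) ≤ t) = {q} := by
      rw [Finset.filter_singleton, if_pos h]
    rw [this]
    simp [h]
  · have : ({q} : Finset ℚ).filter (fun q : ℚ => (q : ℝ) ≤ t) = ∅ := by
      rw [Finset.filter_singleton, if_neg h]
    rw [this]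
    simp [h]

lemma IsSt.measurable {f : ℝ → ℝ} (hf : IsSt f) : Measurable f := by
  obtain ⟨F, φ, hφ⟩ := hf
  have h1 : f = fun t => ∑ A ∈ F.powerset,
      (if F.filter (fun q : ℚ => (q : ℝ) ≤ t) = A then (φ A : ℝ) else 0) := by
    funext t
    rw [hφ, Finset.sum_ite_eq, if_pos]
    exact Finset.mem_powerset.2 (Finset.filter_subset _ _)
  rw [h1]
  refine Finset.measurable_sum _ fun A _ => ?_
  refine Measurable.ite ?_ measurable_const measurable_const
  have h2 : {t : ℝ | F.filter (fun q : ℚ => (q : ℝ) ≤ t) = A} =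
      ⋂ q : ℚ, {t : ℝ | (q ∈ F ∧ (q : ℝ) ≤ t) ↔ q ∈ A} := by
    ext t
    simp only [mem_setOf_eq, mem_iInter, Finset.ext_iff, Finset.mem_filter]
  rw [h2]
  refine MeasurableSet.iInter fun q => ?_
  by_cases hq : q ∈ A
  · by_cases hF : q ∈ F
    · simp only [hq, hF, true_and, iff_true]
      exact measurableSet_Ici
    · simp [hq, hF]
  · by_cases hF : q ∈ F
    · simp only [hq, hF, true_and, iff_false]
      exact measurableSet_Ici.compl
    · simp [hq, hF]

lemma IsSt.bdd {f : ℝ → ℝ} (hf : IsSt f) : ∃ c : ℕ, ∀ t, f t ≤ 2 ^ c := by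
  obtain ⟨F, φ, hφ⟩ := hf
  obtain ⟨M, hM⟩ : ∃ M : ℝ, ∀ A ∈ F.powerset, (φ A : ℝ) ≤ M := by
    obtain ⟨M, hM⟩ := (F.powerset.image φ).exists_le
    exact ⟨M, fun A hA => by exact_mod_cast hM _ (Finset.mem_image_of_mem _ hA)⟩
  obtain ⟨c, hc⟩ := pow_unbounded_of_one_lt M (by norm_num : (1 : ℝ) < 2)
  refine ⟨c, fun t => ?_⟩
  rw [hφ]
  exact (hM _ (Finset.mem_powerset.2 (Finset.filter_subset _ _))).trans hc.le

lemma countable_isSt : {f : ℝ → ℝ | IsSt f}.Countable := by
  have h : {f : ℝ → ℝ | IsSt f} ⊆ ⋃ F : Finset ℚ, range (fun ψ : F.powerset → ℚ =>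
      fun t : ℝ => (ψ ⟨F.filter (fun q : ℚ => (q : ℝ) ≤ t),
        Finset.mem_powerset.2 (Finset.filter_subset _ _)⟩ : ℝ)) := by
    rintro f ⟨F, φ, hφ⟩
    rw [mem_iUnion]
    refine ⟨F, fun A => φ A.1, ?_⟩
    funext t
    exact (hφ t).symm
  refine Countable.mono h ?_
  exact countable_iUnion fun F => countable_range _

/-- the type of the rational step functions -/
def St : Type := {f : ℝ → ℝ // IsSt f}

instance : Countable St := countable_isSt.to_subtype

/-- a coding of the special sequences -/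
noncomputable def code : List (St × ℕ) → ℕ :=
  (exists_injective_nat (List (St × ℕ))).choose

lemma code_inj : Function.Injective code :=
  (exists_injective_nat (List (St × ℕ))).choose_spec

/-- Approximation of measurable sets by step sets. -/
lemma exists_stset {A : Set ℝ} (hA : MeasurableSet A) {ε : ℝ} (hε : 0 < ε) :
    ∃ B : Set ℝ, IsSt (indicator B 1) ∧ MeasurableSet B ∧ mu.real (B \ A) < ε ∧
      mu.real (A \ B) < ε := by
  set C : Set (Set ℝ) := {B | IsSt (indicator B 1)} with hC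
  have hCm : ∀ B ∈ C, MeasurableSet B := by
    intro B hB
    have h1 : Measurable (indicator B (1 : ℝ → ℝ)) := hB.measurable
    have h2 : B = (indicator B (1 : ℝ → ℝ)) ⁻¹' {1} := by
      ext t; by_cases h : t ∈ B <;> simp [h]
    rw [h2]
    exact h1 (measurableSet_singleton _)
  have hring : IsSetRing C := by
    constructor
    · show IsSt _
      rw [indicator_empty]; exact_mod_cast IsSt.const 0
    · intro s t hs ht
      have h1 := IsSt.max hs ht
      have h2 : (indicator (s ∪ t) (1 : ℝ → ℝ)) =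
          fun x => max (indicator s (1 : ℝ → ℝ) x) (indicator t (1 : ℝ → ℝ) x) := by
        funext x
        by_cases h1 : x ∈ s <;> by_cases h2 : x ∈ t <;> simp [h1, h2]
      show IsSt _
      rw [h2]; exact h1
    · intro s t hs ht
      have h1 := IsSt.mul hs (IsSt.sub (IsSt.const 1) ht)
      have h2 : (indicator (s \ t) (1 : ℝ → ℝ)) =
          fun x => (indicator s (1 : ℝ → ℝ) x) * (((1 : ℚ) : ℝ) - indicator t (1 : ℝ → ℝ) x) := by
        funext x
        by_cases h1 : x ∈ s <;> by_cases h2 : x ∈ t <;> simp [h1, h2]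
      show IsSt _
      rw [h2]; exact h1
  have huniv : (univ : Set ℝ) ∈ C := by
    show IsSt _
    rw [indicator_univ]; exact_mod_cast IsSt.const 1
  have hgen : (inferInstance : MeasurableSpace ℝ) = MeasurableSpace.generateFrom C := by
    apply le_antisymm
    · rw [BorelSpace.measurable_eq (α := ℝ), Real.borel_eq_generateFrom_Ici_rat]
      refine MeasurableSpace.generateFrom_mono ?_
      intro B hB
      rw [mem_iUnion] at hB
      obtain ⟨q, hq⟩ := hB
      rw [mem_singleton_iff] at hq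
      rw [hq]
      exact isSt_Ici q
    · exact MeasurableSpace.generateFrom_le hCm
  obtain ⟨B, hB, hlt⟩ := exists_measure_symmDiff_lt_of_generateFrom_isSetRing (μ := mu) hring
    ⟨{univ}, countable_singleton _, by simpa using huniv, by simp⟩ hgen hA
    (ε := ENNReal.ofReal ε) (by simpa using hε)
  have key : ∀ D : Set ℝ, D ⊆ B ∆ A → mu.real D < ε := by
    intro D hD
    have h1 : mu D < ENNReal.ofReal ε := lt_of_le_of_lt (measure_mono hD) hlt
    have := (ENNReal.toReal_lt_toReal (measure_ne_top _ _) ENNReal.ofReal_ne_top).2 h1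
    rwa [ENNReal.toReal_ofReal hε.le] at this
  refine ⟨B, hB, hCm B hB, key _ ?_, key _ ?_⟩
  · exact fun x hx => Or.inl hx
  · exact fun x hx => Or.inr hx

/-- bounded nonnegative measurable functions -/
structure BM (X : ℝ → ℝ) : Prop where
  meas : Measurable X
  nn : ∀ t, 0 ≤ X t
  bd : ∃ C, ∀ t, X t ≤ C

namespace BM

variable {X Y : ℝ → ℝ}

lemma integrable (h : BM X) : Integrable X mu := by
  obtain ⟨C, hC⟩ := h.bd
  refine Integrable.of_bound h.meas.aestronglyMeasurable C (Filter.Eventually.of_forall fun t => ?_)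
  rw [Real.norm_eq_abs, abs_of_nonneg (h.nn t)]
  exact hC t

lemma mul (h : BM X) (h' : BM Y) : BM (fun t => X t * Y t) := by
  obtain ⟨C, hC⟩ := h.bd
  obtain ⟨D, hD⟩ := h'.bd
  refine ⟨h.meas.mul h'.meas, fun t => mul_nonneg (h.nn t) (h'.nn t), C * D, fun t => ?_⟩
  exact mul_le_mul (hC t) (hD t) (h'.nn t) ((h.nn t).trans (hC t))

lemma add (h : BM X) (h' : BM Y) : BM (fun t => X t + Y t) := by
  obtain ⟨C, hC⟩ := h.bd
  obtain ⟨D, hD⟩ := h'.bd
  exact ⟨h.meas.add h'.meas, fun t => add_nonneg (h.nn t) (h'.nn t), C + D,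
    fun t => add_le_add (hC t) (hD t)⟩

lemma const_mul (h : BM X) {c : ℝ} (hc : 0 ≤ c) : BM (fun t => c * X t) := by
  obtain ⟨C, hC⟩ := h.bd
  exact ⟨h.meas.const_mul c, fun t => mul_nonneg hc (h.nn t), c * C,
    fun t => mul_le_mul_of_nonneg_left (hC t) hc⟩

lemma const {c : ℝ} (hc : 0 ≤ c) : BM (fun _ => c) :=
  ⟨measurable_const, fun _ => hc, c, fun _ => le_rfl⟩

lemma sum {ι : Type*} (s : Finset ι) (f : ι → ℝ → ℝ) (hf : ∀ i ∈ s, BM (f i)) :
    BM (fun t => ∑ i ∈ s, f i t) := by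
  classical
  induction s using Finset.induction_on with
  | empty => simpa using BM.const le_rfl
  | insert i s hi ih =>
    have h1 := (hf i (Finset.mem_insert_self _ _)).add
      (ih (fun k hk => hf k (Finset.mem_insert_of_mem hk)))
    have h2 : (fun t => ∑ i ∈ insert i s, f i t) = fun t => f i t + ∑ i ∈ s, f i t := by
      funext t; rw [Finset.sum_insert hi]
    rw [h2]; exact h1

/-- domination -/
lemma of_le (h : BM X) (hm : Measurable Y) (h0 : ∀ t, 0 ≤ Y t) (hle : ∀ t, Y t ≤ X t) : BM Y := by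
  obtain ⟨C, hC⟩ := h.bd
  exact ⟨hm, h0, C, fun t => (hle t).trans (hC t)⟩

end BM

lemma IsSt.bm {f : ℝ → ℝ} (hf : IsSt f) (h0 : ∀ t, 0 ≤ f t) : BM f := by
  obtain ⟨c, hc⟩ := hf.bdd
  exact ⟨hf.measurable, h0, _, hc⟩

/-- the pairing -/
noncomputable def pr (g X : ℝ → ℝ) : ℝ := ∫ t, g t * X t ∂mu

section pr

variable {g h X Y : ℝ → ℝ}

lemma pr_nonneg (hg : BM g) (hX : BM X) : 0 ≤ pr g X :=
  integral_nonneg fun t => mul_nonneg (hg.nn t) (hX.nn t)

lemma pr_mono (hg : BM g) (hh : BM h) (hX : BM X) (hY : BM Y) (h1 : ∀ t, g t ≤ h t)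
    (h2 : ∀ t, X t ≤ Y t) : pr g X ≤ pr h Y :=
  integral_mono (hg.mul hX).integrable (hh.mul hY).integrable
    fun t => mul_le_mul (h1 t) (h2 t) (hX.nn t) (hh.nn t)

lemma pr_add_right (hg : BM g) (hX : BM X) (hY : BM Y) :
    pr g (fun t => X t + Y t) = pr g X + pr g Y := by
  unfold pr
  rw [← integral_add (hg.mul hX).integrable (hg.mul hY).integrable]
  congr 1; funext t; ring

lemma pr_comm : pr g X = pr X g := by
  unfold pr; congr 1; funext t; ring

lemma pr_add_left (hg : BM g) (hh : BM h) (hX : BM X) :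
    pr (fun t => g t + h t) X = pr g X + pr h X := by
  rw [pr_comm, pr_add_right hX hg hh, pr_comm, pr_comm (g := X)]

lemma pr_const_mul_right (c : ℝ) : pr g (fun t => c * X t) = c * pr g X := by
  unfold pr
  rw [← integral_const_mul]
  congr 1; funext t; ring

lemma pr_const_mul_left (c : ℝ) : pr (fun t => c * g t) X = c * pr g X := by
  rw [pr_comm, pr_const_mul_right, pr_comm]

lemma pr_sum_right {ι : Type*} (s : Finset ι) (f : ι → ℝ → ℝ) (hf : ∀ i ∈ s, BM (f i))
    (hg : BM g) : pr g (fun t => ∑ i ∈ s, f i t) = ∑ i ∈ s, pr g (f i) := by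
  classical
  unfold pr
  rw [← integral_finsetSum s (fun i hi => (hg.mul (hf i hi)).integrable)]
  congr 1; funext t; rw [Finset.mul_sum]

lemma pr_sum_left {ι : Type*} (s : Finset ι) (f : ι → ℝ → ℝ) (hf : ∀ i ∈ s, BM (f i))
    (hX : BM X) : pr (fun t => ∑ i ∈ s, f i t) X = ∑ i ∈ s, pr (f i) X := by
  rw [pr_comm, pr_sum_right s f hf hX]
  exact Finset.sum_congr rfl fun i _ => pr_comm

lemma pr_le_left (hg : BM g) (hX : BM X) {c : ℝ} (hc : ∀ t, g t ≤ c) :
    pr g X ≤ c * ∫ t, X t ∂mu := by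
  rw [← integral_const_mul]
  exact integral_mono (hg.mul hX).integrable (hX.integrable.const_mul c)
    fun t => mul_le_mul_of_nonneg_right (hc t) (hX.nn t)

lemma pr_le_right (hg : BM g) (hX : BM X) {c : ℝ} (hc : ∀ t, X t ≤ c) :
    pr g X ≤ c * ∫ t, g t ∂mu := by
  rw [pr_comm]; exact pr_le_left hX hg hc

end pr

end Pool.Agent.H13.BL
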