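import Pool.Agent.H13.BL.Norming

/-! Upper estimates. -/

set_option autoImplicit false

namespace Pool.Agent.H13.BL

open MeasureTheory Set

/-- range condition on vectors -/
structure RX (p q : ℕ) (X : ℝ → ℝ) : Prop where
  meas : Measurable X
  nn : ∀ t, 0 ≤ X t
  pq : p ≤ q
  le : ∀ t, X t ≤ 2 ^ q
  int : ∫ t, X t ∂mu ≤ (1 / 2) ^ p

lemma RX.bm {p q : ℕ} {X : ℝ → ℝ} (h : RX p q X) : BM X := ⟨h.meas, h.nn, _, h.le⟩

lemma sum_le_of_card_le_one (T : Finset ℕ) (hT : T.card ≤ 1) (f : ℕ → ℝ) {K : ℝ} (hK : 0 ≤ K)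
    (hf : ∀ k ∈ T, f k ≤ K) : ∑ k ∈ T, f k ≤ K := by
  calc ∑ k ∈ T, f k ≤ ∑ k ∈ T, K := Finset.sum_le_sum hf
    _ = (T.card : ℝ) * K := by rw [Finset.sum_const, nsmul_eq_mul]
    _ ≤ 1 * K := by
      gcongr
      exact_mod_cast hT
    _ = K := one_mul K

/-- A child acting on a sequence: the parts of the sequence outside of the range of the child. -/
lemma child {N : ℕ} {p q : ℕ → ℕ} {x : ℕ → ℝ → ℝ} (hx : ∀ k < N, RX (p k) (q k) (x k))
    (sep : ∀ k l, k < l → l < N → q k < p l) {S : Finset ℕ} (hS : ∀ k ∈ S, k < N)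
    {a b : ℕ} {f : ℝ → ℝ} (hf : BM f) (hr : RR a b f) :
    ∑ k ∈ S, pr f (x k) ≤
      2 + ∑ k ∈ S.filter (fun k => ¬ q k < a ∧ ¬ b < p k), pr f (x k) := by
  have hinjp : ∀ k < N, ∀ l < N, p k = p l → k = l := by
    intro i hi l hl hil
    rcases lt_trichotomy i l with h | h | h
    · have := sep i l h hl; have := (hx i hi).pq; omega
    · exact h
    · have := sep l i h hi; have := (hx l hl).pq; omega
  have hinjq : ∀ k < N, ∀ l < N, q k = q l → k = l := by
    intro i hi l hl hil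
    rcases lt_trichotomy i l with h | h | h
    · have := sep i l h hl; have := (hx l hl).pq; omega
    · exact h
    · have := sep l i h hi; have := (hx i hi).pq; omega
  have hsplit : ∑ k ∈ S, pr f (x k) = ∑ k ∈ S.filter (fun k => q k < a), pr f (x k) +
      (∑ k ∈ S.filter (fun k => ¬ q k < a ∧ b < p k), pr f (x k) +
       ∑ k ∈ S.filter (fun k => ¬ q k < a ∧ ¬ b < p k), pr f (x k)) := by
    rw [← Finset.sum_filter_add_sum_filter_not S (fun k => q k < a)]
    congr 1
    rw [← Finset.sum_filter_add_sum_filter_not (S.filter (fun k => ¬ q k < a))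
      (fun k => b < p k)]
    rw [Finset.filter_filter, Finset.filter_filter]
  have b1 : ∑ k ∈ S.filter (fun k => q k < a), pr f (x k) ≤ 1 := by
    calc ∑ k ∈ S.filter (fun k => q k < a), pr f (x k) ≤
        ∑ k ∈ S.filter (fun k => q k < a), (2 : ℝ) ^ (q k) * (1 / 2) ^ a :=
          Finset.sum_le_sum fun k hk => by
            rw [Finset.mem_filter] at hk
            refine (pr_le_right hf (hx k (hS k hk.1)).bm (hx k (hS k hk.1)).le).trans ?_
            have := hr.int
            gcongr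
      _ = (∑ k ∈ S.filter (fun k => q k < a), (2 : ℝ) ^ (q k)) * (1 / 2) ^ a := by
          rw [Finset.sum_mul]
      _ ≤ 2 ^ a * (1 / 2) ^ a := by
          gcongr
          refine sum_two_pow_le _ q a ?_ ?_
          · intro i hi l hl hil
            rw [Finset.mem_coe, Finset.mem_filter] at hi hl
            exact hinjq i (hS i hi.1) l (hS l hl.1) hil
          · intro i hi
            rw [Finset.mem_filter] at hi
            exact hi.2
      _ = 1 := by rw [← mul_pow]; norm_num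
  have b2 : ∑ k ∈ S.filter (fun k => ¬ q k < a ∧ b < p k), pr f (x k) ≤ 1 := by
    calc ∑ k ∈ S.filter (fun k => ¬ q k < a ∧ b < p k), pr f (x k) ≤
        ∑ k ∈ S.filter (fun k => ¬ q k < a ∧ b < p k), (2 : ℝ) ^ b * (1 / 2) ^ (p k) :=
          Finset.sum_le_sum fun k hk => by
            rw [Finset.mem_filter] at hk
            refine (pr_le_left hf (hx k (hS k hk.1)).bm hr.le).trans ?_
            have := (hx k (hS k hk.1)).int
            gcongr
      _ = 2 ^ b * (∑ k ∈ S.filter (fun k => ¬ q k < a ∧ b < p k), (1 / 2 : ℝ) ^ (p k)) := by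
          rw [Finset.mul_sum]
      _ ≤ 2 ^ b * (2 * (1 / 2) ^ (b + 1)) := by
          gcongr
          refine sum_half_pow_le _ p (b + 1) ?_ ?_
          · intro i hi l hl hil
            rw [Finset.mem_coe, Finset.mem_filter] at hi hl
            exact hinjp i (hS i hi.1) l (hS l hl.1) hil
          · intro i hi
            rw [Finset.mem_filter] at hi
            exact hi.2.2
      _ = 1 := by
          rw [pow_succ]
          have : (2 : ℝ) ^ b * (1 / 2) ^ b = 1 := by rw [← mul_pow]; norm_num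
          linear_combination this
  rw [hsplit]
  linarith

/-- A child acting on a sequence. -/
lemma child' {N : ℕ} {p q : ℕ → ℕ} {x : ℕ → ℝ → ℝ} (hx : ∀ k < N, RX (p k) (q k) (x k))
    (sep : ∀ k l, k < l → l < N → q k < p l) {S : Finset ℕ} (hS : ∀ k ∈ S, k < N)
    {a b : ℕ} {f : ℝ → ℝ} (hf : BM f) (hr : RR a b f) {K : ℝ} (hK : 0 ≤ K)
    (hfK : ∀ k ∈ S, pr f (x k) ≤ K) :
    ∑ k ∈ S, pr f (x k) ≤
      2 + K + ∑ k ∈ S.filter (fun k => a ≤ p k ∧ p k ≤ b), pr f (x k) := by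
  refine (child hx sep hS hf hr).trans ?_
  have hsplit : ∑ k ∈ S.filter (fun k => ¬ q k < a ∧ ¬ b < p k), pr f (x k) =
      ∑ k ∈ S.filter (fun k => (¬ q k < a ∧ ¬ b < p k) ∧ a ≤ p k), pr f (x k) +
      ∑ k ∈ S.filter (fun k => (¬ q k < a ∧ ¬ b < p k) ∧ ¬ a ≤ p k), pr f (x k) := by
    rw [← Finset.sum_filter_add_sum_filter_not (S.filter (fun k => ¬ q k < a ∧ ¬ b < p k))
      (fun k => a ≤ p k), Finset.filter_filter, Finset.filter_filter]
  rw [hsplit]
  have b1 : ∑ k ∈ S.filter (fun k => (¬ q k < a ∧ ¬ b < p k) ∧ ¬ a ≤ p k), pr f (x k) ≤ K := by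
    refine sum_le_of_card_le_one _ ?_ _ hK ?_
    · rw [Finset.card_le_one]
      intro i hi l hl
      rw [Finset.mem_filter] at hi hl
      rcases lt_trichotomy i l with h | h | h
      · have := sep i l h (hS l hl.1); omega
      · exact h
      · have := sep l i h (hS i hi.1); omega
    · intro k hk
      rw [Finset.mem_filter] at hk
      exact hfK k hk.1
  have b2 : ∑ k ∈ S.filter (fun k => (¬ q k < a ∧ ¬ b < p k) ∧ a ≤ p k), pr f (x k) ≤
      ∑ k ∈ S.filter (fun k => a ≤ p k ∧ p k ≤ b), pr f (x k) := by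
    refine Finset.sum_le_sum_of_subset_of_nonneg ?_ ?_
    · intro k hk
      rw [Finset.mem_filter] at hk ⊢
      exact ⟨hk.1, hk.2.2, not_lt.1 hk.2.1.2⟩
    · intro k hk _
      rw [Finset.mem_filter] at hk
      exact pr_nonneg hf (hx k (hS k hk.1)).bm
  linarith

/-- Basic functionals. -/
lemma base_act {N : ℕ} {p q : ℕ → ℕ} {x : ℕ → ℝ → ℝ} (hx : ∀ k < N, RX (p k) (q k) (x k))
    (sep : ∀ k l, k < l → l < N → q k < p l) {S : Finset ℕ} (hS : ∀ k ∈ S, k < N)
    {g : St} (hg : GG 0 g) {K : ℝ} (hK : 0 ≤ K) (hfK : ∀ k ∈ S, pr g.1 (x k) ≤ K) :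
    ∑ k ∈ S, pr g.1 (x k) ≤ 2 + K := by
  have hgbm := hg.bm
  cases hg with
  | node j n h w a b c g hj hn hG hR hs hsp h0 h1 => omega
  | base a g h0 h1 h2 =>
    have hr : RR a a g.1 := by
      refine ⟨le_rfl, h1, ?_⟩
      have hmeas : MeasurableSet {t | g.1 t ≠ 0} :=
        (hgbm.meas (measurableSet_singleton (0 : ℝ))).compl
      calc ∫ t, g.1 t ∂mu ≤
          ∫ t, indicator {t | g.1 t ≠ 0} (fun _ => (2 : ℝ) ^ a) t ∂mu := by
            refine integral_mono hgbm.integrable ((integrable_const _).indicator hmeas) fun t => ?_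
            by_cases ht : g.1 t = 0
            · simp [ht]
            · have : t ∈ {t | g.1 t ≠ 0} := ht
              rw [indicator_of_mem this]
              exact h1 t
        _ = mu.real {t | g.1 t ≠ 0} * 2 ^ a := by
            rw [integral_indicator hmeas, integral_const, smul_eq_mul]
            simp
        _ ≤ (1 / 4) ^ a * 2 ^ a := by gcongr
        _ = (1 / 2) ^ a := by rw [← mul_pow]; norm_num
    refine (child hx sep hS hgbm hr).trans ?_
    have : ∑ k ∈ S.filter (fun k => ¬ q k < a ∧ ¬ a < p k), pr g.1 (x k) ≤ K := by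
      refine sum_le_of_card_le_one _ ?_ _ hK ?_
      · rw [Finset.card_le_one]
        intro i hi l hl
        rw [Finset.mem_filter] at hi hl
        rcases lt_trichotomy i l with h | h | h
        · have := sep i l h (hS l hl.1); omega
        · exact h
        · have := sep l i h (hS i hi.1); omega
      · intro k hk
        rw [Finset.mem_filter] at hk
        exact hfK k hk.1
    linarith

/-- The total of the disjoint windows. -/
lemma windows_card {n : ℕ} {a b p : ℕ → ℕ} (hs : ∀ i l, i < l → l < n → b i < a l)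
    (S : Finset ℕ) :
    ∑ i ∈ Finset.range n, ((S.filter (fun k => a i ≤ p k ∧ p k ≤ b i)).card : ℝ) ≤
      (S.card : ℝ) := by
  have h1 : ((Finset.range n).biUnion (fun i => S.filter (fun k => a i ≤ p k ∧ p k ≤ b i))).card =
      ∑ i ∈ Finset.range n, (S.filter (fun k => a i ≤ p k ∧ p k ≤ b i)).card := by
    refine Finset.card_biUnion ?_
    intro i hi l hl hil
    show Disjoint (S.filter (fun k => a i ≤ p k ∧ p k ≤ b i))
      (S.filter (fun k => a l ≤ p k ∧ p k ≤ b l))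
    rw [Finset.disjoint_left]
    intro k hk hk'
    rw [Finset.mem_filter] at hk hk'
    rw [Finset.mem_coe, Finset.mem_range] at hi hl
    rcases lt_or_gt_of_ne hil with h | h
    · have := hs i l h hl; omega
    · have := hs l i h hi; omega
  have h2 : ((Finset.range n).biUnion (fun i => S.filter (fun k => a i ≤ p k ∧ p k ≤ b i))) ⊆ S := by
    intro k hk
    rw [Finset.mem_biUnion] at hk
    obtain ⟨i, _, hk⟩ := hk
    exact (Finset.mem_filter.1 hk).1
  have h3 := Finset.card_le_card h2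
  rw [h1] at h3
  exact_mod_cast h3

/-- Estimate for functionals with a node at the top. -/
lemma node_act {N : ℕ} {p q : ℕ → ℕ} {x : ℕ → ℝ → ℝ} (hx : ∀ k < N, RX (p k) (q k) (x k))
    (sep : ∀ k l, k < l → l < N → q k < p l) {S : Finset ℕ} (hS : ∀ k ∈ S, k < N)
    {w : ℕ} {g : St} (hg : GG w g) (hw : 1 ≤ w) {K : ℝ} (hK : 0 ≤ K)
    (hfK : ∀ k ∈ S, NB (x k) K) {α b : ℝ} (hα : 0 ≤ α) (hb : 0 ≤ b)
    (hyp : ∀ S' ⊆ S, ∀ w g, GG w g → ∑ k ∈ S', pr g.1 (x k) ≤ α * (S'.card : ℝ) + b) :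
    ∑ k ∈ S, pr g.1 (x k) ≤ β w * (α * (S.card : ℝ) + (nn w : ℝ) * (2 + K + b)) := by
  have hgbm := hg.bm
  cases hg with
  | base a g h0 h1 h2 => omega
  | node j n h v a b' c g hj hn hG hR hs hsp h0 h1 =>
    have hh : ∀ i ∈ Finset.range n, BM (h i).1 := fun i hi => (hG i (Finset.mem_range.1 hi)).bm
    have hβ := (β_pos w).le
    have e1 : ∀ k ∈ S, pr g.1 (x k) ≤ β w * ∑ i ∈ Finset.range n, pr (h i).1 (x k) := by
      intro k hk
      have hxk := (hx k (hS k hk)).bm
      rw [← pr_sum_left _ _ hh hxk, ← pr_const_mul_left]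
      exact pr_mono hgbm ((BM.sum _ _ hh).const_mul hβ) hxk hxk h1 (fun t => le_rfl)
    calc ∑ k ∈ S, pr g.1 (x k) ≤ ∑ k ∈ S, β w * ∑ i ∈ Finset.range n, pr (h i).1 (x k) :=
          Finset.sum_le_sum e1
      _ = β w * ∑ i ∈ Finset.range n, ∑ k ∈ S, pr (h i).1 (x k) := by
          rw [← Finset.mul_sum, Finset.sum_comm]
      _ ≤ β w * ∑ i ∈ Finset.range n, (2 + K +
            (α * ((S.filter (fun k => a i ≤ p k ∧ p k ≤ b' i)).card : ℝ) + b)) := by
          refine mul_le_mul_of_nonneg_left (Finset.sum_le_sum fun i hi => ?_) hβ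
          have hi' := Finset.mem_range.1 hi
          refine (child' hx sep hS (hh i hi) (hR i hi') hK
            (fun k hk => hfK k hk _ _ (hG i hi'))).trans ?_
          have := hyp _ (Finset.filter_subset (fun k => a i ≤ p k ∧ p k ≤ b' i) S) _ _ (hG i hi')
          linarith
      _ = β w * ((n : ℝ) * (2 + K + b) + α * ∑ i ∈ Finset.range n,
            ((S.filter (fun k => a i ≤ p k ∧ p k ≤ b' i)).card : ℝ)) := by
          simp only [Finset.sum_add_distrib, Finset.sum_const, ← Finset.mul_sum,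
            Finset.card_range, nsmul_eq_mul]
          ring
      _ ≤ β w * ((nn w : ℝ) * (2 + K + b) + α * (S.card : ℝ)) := by
          have h2 := windows_card (p := p) hs S
          have h3 : (n : ℝ) ≤ nn w := by exact_mod_cast hn
          gcongr
      _ = _ := by ring

/-- rapidly increasing vectors -/
structure RV (C : ℝ) (p q : ℕ) (X : ℝ → ℝ) : Prop where
  rx : RX p q X
  nb : NB X C
  low : ∀ w g, GG w g → 1 ≤ w → w < p → pr g.1 X ≤ C * β w

/-- A rapidly increasing sequence of length `N`. -/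
structure RSeq (C : ℝ) (N : ℕ) (p q : ℕ → ℕ) (x : ℕ → ℝ → ℝ) : Prop where
  rv : ∀ k < N, RV C (p k) (q k) (x k)
  sep : ∀ k l, k < l → l < N → q k < p l

variable {C : ℝ} {N : ℕ} {p q : ℕ → ℕ} {x : ℕ → ℝ → ℝ}

/-- Estimate for high weights. -/
lemma RSeq.high (h : RSeq C N p q x) (hC : 0 ≤ C) {S : Finset ℕ} (hS : ∀ k ∈ S, k < N)
    {w : ℕ} {g : St} (hg : GG w g) (hw : 1 ≤ w) :
    ∑ k ∈ S, pr g.1 (x k) ≤ 1 + C + C * β w * (S.card : ℝ) := by
  have hβ := β_pos w
  have hsplit : ∑ k ∈ S, pr g.1 (x k) = ∑ k ∈ S.filter (fun k => q k < w), pr g.1 (x k) +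
      (∑ k ∈ S.filter (fun k => ¬ q k < w ∧ w < p k), pr g.1 (x k) +
       ∑ k ∈ S.filter (fun k => ¬ q k < w ∧ ¬ w < p k), pr g.1 (x k)) := by
    rw [← Finset.sum_filter_add_sum_filter_not S (fun k => q k < w)]
    congr 1
    rw [← Finset.sum_filter_add_sum_filter_not (S.filter (fun k => ¬ q k < w))
      (fun k => w < p k)]
    rw [Finset.filter_filter, Finset.filter_filter]
  have b1 : ∑ k ∈ S.filter (fun k => q k < w), pr g.1 (x k) ≤ 1 := by
    calc ∑ k ∈ S.filter (fun k => q k < w), pr g.1 (x k) ≤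
        ∑ k ∈ S.filter (fun k => q k < w), (2 : ℝ) ^ (q k) * (2 * β w) :=
          Finset.sum_le_sum fun k hk => by
            rw [Finset.mem_filter] at hk
            have hr := (h.rv k (hS k hk.1)).rx
            refine (pr_le_right hg.bm hr.bm hr.le).trans ?_
            have := hg.int_le_beta hw
            gcongr
      _ = (∑ k ∈ S.filter (fun k => q k < w), (2 : ℝ) ^ (q k)) * (2 * β w) := by
          rw [Finset.sum_mul]
      _ ≤ 2 ^ w * (2 * β w) := by
          gcongr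
          refine sum_two_pow_le _ q w ?_ ?_
          · intro i hi l hl hil
            rw [Finset.mem_coe, Finset.mem_filter] at hi hl
            rcases lt_trichotomy i l with h' | h' | h'
            · have := h.sep i l h' (hS l hl.1); have := (h.rv l (hS l hl.1)).rx.pq; omega
            · exact h'
            · have := h.sep l i h' (hS i hi.1); have := (h.rv i (hS i hi.1)).rx.pq; omega
          · intro i hi
            rw [Finset.mem_filter] at hi
            exact hi.2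
      _ = 2 * 2 ^ w * β w := by ring
      _ ≤ 1 := two_pow_beta' w
  have b2 : ∑ k ∈ S.filter (fun k => ¬ q k < w ∧ w < p k), pr g.1 (x k) ≤
      C * β w * (S.card : ℝ) := by
    calc _ ≤ ∑ k ∈ S.filter (fun k => ¬ q k < w ∧ w < p k), C * β w :=
          Finset.sum_le_sum fun k hk => by
            rw [Finset.mem_filter] at hk
            exact (h.rv k (hS k hk.1)).low w g hg hw hk.2.2
      _ = ((S.filter (fun k => ¬ q k < w ∧ w < p k)).card : ℝ) * (C * β w) := by
          rw [Finset.sum_const, nsmul_eq_mul]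
      _ ≤ (S.card : ℝ) * (C * β w) := by
          gcongr
          exact Finset.filter_subset _ _
      _ = _ := by ring
  have b3 : ∑ k ∈ S.filter (fun k => ¬ q k < w ∧ ¬ w < p k), pr g.1 (x k) ≤ C := by
    refine sum_le_of_card_le_one _ ?_ _ hC ?_
    · rw [Finset.card_le_one]
      intro i hi l hl
      rw [Finset.mem_filter] at hi hl
      rcases lt_trichotomy i l with h' | h' | h'
      · have := h.sep i l h' (hS l hl.1); omega
      · exact h'
      · have := h.sep l i h' (hS i hi.1); omega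
    · intro k hk
      rw [Finset.mem_filter] at hk
      exact (h.rv k (hS k hk.1)).nb _ _ hg
  rw [hsplit]
  linarith

/-- The iteration. -/
lemma RSeq.iter (h : RSeq C N p q x) (hC : 1 ≤ C) {S : Finset ℕ}
    (hS : ∀ k ∈ S, k < N) {C1 θ : ℝ} (hC1 : C ≤ C1) (hθ : 0 ≤ θ) (j : ℕ)
    (hw : ∀ S' ⊆ S, ∀ w g, GG w g → j + 1 ≤ w →
      ∑ k ∈ S', pr g.1 (x k) ≤ 2 * C1 + 4 * C1 * θ * (S'.card : ℝ)) (t : ℕ) :
    ∀ S' ⊆ S, ∀ w g, GG w g → ∑ k ∈ S', pr g.1 (x k) ≤
      (((1/4 : ℝ)) ^ t + 4 * θ) * C1 * (S'.card : ℝ) +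
      4 * C1 * (((nn j : ℝ) + 1) ^ t - 1) := by
  have hC1' : 1 ≤ C1 := hC.trans hC1
  have hnn : (1 : ℝ) ≤ nn j := by exact_mod_cast nn_pos j
  have hrx : ∀ k < N, RX (p k) (q k) (x k) := fun k hk => (h.rv k hk).rx
  induction t with
  | zero =>
    intro S' hS' w g hg
    simp only [pow_zero, sub_self, mul_zero, add_zero]
    calc ∑ k ∈ S', pr g.1 (x k) ≤ ∑ k ∈ S', C1 := Finset.sum_le_sum fun k hk =>
          ((h.rv k (hS k (hS' hk))).nb _ _ hg).trans hC1
      _ = (S'.card : ℝ) * C1 := by rw [Finset.sum_const, nsmul_eq_mul]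
      _ ≤ _ := by
        have : 0 ≤ 4 * θ * C1 * (S'.card : ℝ) := by positivity
        nlinarith
  | succ t ih =>
    intro S' hS' w g hg
    have hpow : (1 : ℝ) ≤ ((nn j : ℝ) + 1) ^ t := one_le_pow₀ (by linarith)
    set b := 4 * C1 * (((nn j : ℝ) + 1) ^ t - 1) with hb
    have hb0 : 0 ≤ b := by
      rw [hb]; apply mul_nonneg (by positivity); linarith
    set α := (((1/4 : ℝ)) ^ t + 4 * θ) * C1 with hα
    have hα0 : 0 ≤ α := by positivity
    have hb' : 4 * C1 * (((nn j : ℝ) + 1) ^ (t+1) - 1) = (nn j : ℝ) * (4 * C1 + b) + b := by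
      rw [hb, pow_succ]; ring
    rw [hb']
    have hbig : 4 * C1 ≤ (nn j : ℝ) * (4 * C1 + b) := by nlinarith
    have h1 : 0 ≤ ((1/4 : ℝ)) ^ (t+1) * C1 * (S'.card : ℝ) := by positivity
    have h1' : 0 ≤ θ * C1 * (S'.card : ℝ) := by positivity
    rcases Nat.eq_zero_or_pos w with hw0 | hw0
    · subst hw0
      have := base_act hrx h.sep (fun k hk => hS k (hS' hk)) hg (K := C) (by linarith)
        (fun k hk => (h.rv k (hS k (hS' hk))).nb _ _ hg)
      refine this.trans ?_
      nlinarith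
    · by_cases hwγ : j + 1 ≤ w
      · refine (hw S' hS' w g hg hwγ).trans ?_
        nlinarith
      · push Not at hwγ
        have hlow := node_act hrx h.sep (fun k hk => hS k (hS' hk)) hg hw0 (K := C) (by linarith)
          (fun k hk => (h.rv k (hS k (hS' hk))).nb) hα0 hb0
          (fun S'' hS'' => ih S'' (hS''.trans hS'))
        refine hlow.trans ?_
        have hβ := β_pos w
        have hβ4 := β_le w
        have hage : (nn w : ℝ) ≤ nn j := by
          exact_mod_cast (nn_mono (by omega : w ≤ j))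
        have hnw : (0 : ℝ) ≤ nn w := Nat.cast_nonneg _
        rw [mul_add]
        have t1 : β w * (α * (S'.card : ℝ)) ≤
            (((1/4 : ℝ)) ^ (t+1) + 4 * θ) * C1 * (S'.card : ℝ) := by
          calc _ ≤ (1/4) * (α * (S'.card : ℝ)) := by gcongr
            _ ≤ _ := by
                rw [hα, pow_succ]
                nlinarith
        have t2 : β w * ((nn w : ℝ) * (2 + C + b)) ≤ (nn j : ℝ) * (4 * C1 + b) := by
          calc β w * ((nn w : ℝ) * (2 + C + b)) ≤ 1 * ((nn j : ℝ) * (4 * C1 + b)) := by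
                have : 2 + C + b ≤ 4 * C1 + b := by linarith
                have h0 : 0 ≤ 2 + C + b := by linarith
                have hb1 := β_le_one w
                gcongr
            _ = _ := one_mul _
        linarith

/-- General form of the upper estimate. -/
lemma RSeq.upper_gen (h : RSeq C N p q x) (hC : 1 ≤ C) {S : Finset ℕ}
    (hS : ∀ k ∈ S, k < N) {C1 θ : ℝ} (hC1 : C ≤ C1) (j : ℕ)
    (hθ : β (j + 1) ^ 2 ≤ θ) (hcard : S.card ≤ nn (j + 1))
    (hw : ∀ S' ⊆ S, ∀ w g, GG w g → j + 1 ≤ w →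
      ∑ k ∈ S', pr g.1 (x k) ≤ 2 * C1 + 4 * C1 * θ * (S'.card : ℝ)) :
    (∀ w g, GG w g → ∑ k ∈ S, pr g.1 (x k) ≤ 9 * C1 * θ * (nn (j + 1) : ℝ)) ∧
    ∀ w g, GG w g → 1 ≤ w → w < j + 1 → ∑ k ∈ S, pr g.1 (x k) ≤
      5 * C1 * θ * β w * (nn (j + 1) : ℝ) + 4 * C1 * β (j + 1) ^ 2 * (nn (j + 1) : ℝ) := by
  have hC1' : 1 ≤ C1 := hC.trans hC1
  have hβ := β_pos (j + 1)
  have hθ0 : 0 ≤ θ := (by positivity : (0:ℝ) ≤ β (j+1) ^ 2).trans hθ
  have hnn : (1 : ℝ) ≤ nn j := by exact_mod_cast nn_pos j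
  have hnn1 : (0 : ℝ) ≤ nn (j + 1) := Nat.cast_nonneg _
  have hcard' : (S.card : ℝ) ≤ nn (j + 1) := by exact_mod_cast hcard
  set T := 2 ^ (j + 2) with hT
  have hit := h.iter hC hS hC1 hθ0 j hw T
  have hpow4 : (1/4 : ℝ) ^ T ≤ θ := by
    rw [hT, ← β_sq_eq]; exact hθ
  have hpw : ((nn j : ℝ) + 1) ^ (T + 1) = β (j + 1) ^ 2 * (nn (j + 1) : ℝ) := (β_sq_nn j).symm
  have hpw1 : (1 : ℝ) ≤ ((nn j : ℝ) + 1) ^ T := one_le_pow₀ (by linarith)
  have hit' : ∀ S' ⊆ S, ∀ w g, GG w g → ∑ k ∈ S', pr g.1 (x k) ≤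
      (5 * θ * C1) * (S'.card : ℝ) + 4 * C1 * (((nn j : ℝ) + 1) ^ T - 1) := by
    intro S' hS' w g hg
    refine (hit S' hS' w g hg).trans ?_
    gcongr
    linarith
  constructor
  · intro w g hg
    refine (hit' S subset_rfl w g hg).trans ?_
    have h1 : (5 * θ * C1) * (S.card : ℝ) ≤ (5 * θ * C1) * (nn (j + 1) : ℝ) := by gcongr
    have h2 : ((nn j : ℝ) + 1) ^ T ≤ θ * (nn (j + 1) : ℝ) := by
      calc ((nn j : ℝ) + 1) ^ T ≤ ((nn j : ℝ) + 1) ^ (T + 1) :=
            pow_le_pow_right₀ (by linarith) (Nat.le_succ _)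
        _ = β (j + 1) ^ 2 * (nn (j + 1) : ℝ) := hpw
        _ ≤ θ * (nn (j + 1) : ℝ) := by gcongr
    have h3 : 4 * C1 * (((nn j : ℝ) + 1) ^ T - 1) ≤ 4 * C1 * (θ * (nn (j + 1) : ℝ)) := by
      gcongr
      linarith
    nlinarith
  · intro w g hg hw1 hwγ
    have hlow := node_act (fun k hk => (h.rv k hk).rx) h.sep hS hg hw1 (K := C) (by linarith)
      (fun k hk => (h.rv k (hS k hk)).nb) (α := 5 * θ * C1) (by positivity)
      (b := 4 * C1 * (((nn j : ℝ) + 1) ^ T - 1))
      (mul_nonneg (by positivity) (by linarith)) hit'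
    refine hlow.trans ?_
    have hβγ := β_pos w
    have hage : (nn w : ℝ) ≤ nn j := by
      exact_mod_cast (nn_mono (by omega : w ≤ j))
    have hnw : (0 : ℝ) ≤ nn w := Nat.cast_nonneg _
    rw [mul_add]
    have t1 : β w * (5 * θ * C1 * (S.card : ℝ)) ≤
        5 * C1 * θ * β w * (nn (j + 1) : ℝ) := by
      calc _ ≤ β w * (5 * θ * C1 * (nn (j + 1) : ℝ)) := by gcongr
        _ = _ := by ring
    have t2 : β w * ((nn w : ℝ) * (2 + C + 4 * C1 * (((nn j : ℝ) + 1) ^ T - 1))) ≤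
        4 * C1 * β (j + 1) ^ 2 * (nn (j + 1) : ℝ) := by
      have hb0 : 0 ≤ 4 * C1 * (((nn j : ℝ) + 1) ^ T - 1) :=
        mul_nonneg (by positivity) (by linarith)
      have h0 : 2 + C ≤ 4 * C1 := by linarith
      calc _ ≤ 1 * ((nn j : ℝ) * (4 * C1 + 1 * (4 * C1 * (((nn j : ℝ) + 1) ^ T - 1)))) := by
            have h00 : 0 ≤ 2 + C + 4 * C1 * (((nn j : ℝ) + 1) ^ T - 1) := by linarith
            have hb1 := β_le_one w
            rw [one_mul (4 * C1 * (((nn j : ℝ) + 1) ^ T - 1))]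
            gcongr
        _ = 4 * C1 * ((nn j : ℝ) * ((nn j : ℝ) + 1) ^ T) := by ring
        _ ≤ 4 * C1 * (((nn j : ℝ) + 1) ^ (T + 1)) := by
            gcongr
            rw [pow_succ]
            nlinarith
        _ = _ := by rw [hpw]; ring
    linarith

/-- Sums of length at most `n_j` of rapidly increasing sequences. -/
lemma RSeq.upper (h : RSeq C N p q x) (hC : 1 ≤ C) {S : Finset ℕ}
    (hS : ∀ k ∈ S, k < N) {j : ℕ} (hj : j ≠ 0) (hcard : S.card ≤ nn j) :
    (∀ w g, GG w g → ∑ k ∈ S, pr g.1 (x k) ≤ 9 * C * β j * (nn j : ℝ)) ∧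
    ∀ w g, GG w g → 1 ≤ w → w < j → ∑ k ∈ S, pr g.1 (x k) ≤
      9 * C * β j * β w * (nn j : ℝ) := by
  obtain ⟨i, rfl⟩ := Nat.exists_eq_succ_of_ne_zero hj
  have hβ := β_pos (i + 1)
  have hβ1 := β_le_one (i + 1)
  obtain ⟨h1, h2⟩ := h.upper_gen hC hS (le_refl C) (θ := β (i + 1)) i (by nlinarith) hcard
    (by
      intro S' hS' w g hg hw
      refine (h.high (by linarith) (fun k hk => hS k (hS' hk)) hg (by omega)).trans ?_
      have h3 : β w ≤ β (i + 1) := β_anti hw
      have h4 : C * β w * (S'.card : ℝ) ≤ C * β (i + 1) * (S'.card : ℝ) := by gcongr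
      have h5 : 0 ≤ C * β (i + 1) * (S'.card : ℝ) := by positivity
      linarith)
  refine ⟨h1, fun w g hg hw1 hw => (h2 w g hg hw1 hw).trans ?_⟩
  have hle : β (i + 1) ≤ β w := β_anti (by omega)
  have : 4 * C * β (i + 1) ^ 2 * (nn (i + 1) : ℝ) ≤
      4 * C * (β (i + 1) * β w) * (nn (i + 1) : ℝ) := by
    rw [pow_two]; gcongr
  have hs : (Nat.succ i) = i + 1 := rfl
  rw [hs]
  linarith

/-- Sums of length at most `n_j` of rapidly increasing sequences on which functionals of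
weight `j` act badly. -/
lemma RSeq.upper' (h : RSeq C N p q x) (hC : 1 ≤ C) {S : Finset ℕ}
    (hS : ∀ k ∈ S, k < N) {C1 : ℝ} (hC1 : C ≤ C1) {j : ℕ} (hj : j ≠ 0) (hcard : S.card ≤ nn j)
    (hsp : ∀ S' ⊆ S, ∀ g, GG j g → ∑ k ∈ S', pr g.1 (x k) ≤ C1) :
    ∀ w g, GG w g → ∑ k ∈ S, pr g.1 (x k) ≤ 9 * C1 * β j ^ 2 * (nn j : ℝ) := by
  have hC1' : 1 ≤ C1 := hC.trans hC1
  obtain ⟨i, rfl⟩ := Nat.exists_eq_succ_of_ne_zero hj
  have hβ := β_pos (i + 1)
  refine (h.upper_gen hC hS hC1 (θ := β (i + 1) ^ 2) i le_rfl hcard ?_).1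
  intro S' hS' w g hg hw
  rcases hw.eq_or_lt with hw | hw
  · subst hw
    refine (hsp S' hS' g hg).trans ?_
    have : 0 ≤ 4 * C1 * β (i + 1) ^ 2 * (S'.card : ℝ) := by positivity
    linarith
  · refine (h.high (by linarith) (fun k hk => hS k (hS' hk)) hg (by omega)).trans ?_
    have hle : β w ≤ β (i + 1) ^ 2 := by rw [← β_succ]; exact β_anti hw
    have hβγ := β_pos w
    have h4 : C * β w * (S'.card : ℝ) ≤ C1 * β (i + 1) ^ 2 * (S'.card : ℝ) := by gcongr
    have h5 : 0 ≤ C1 * β (i + 1) ^ 2 * (S'.card : ℝ) := by positivity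
    linarith

end Pool.Agent.H13.BL
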